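import Pool.Agent.Lib.MP_783f50_lc.FR.Core

/-! The working form of the reflection principle is equivalent to the official one. -/

namespace Pool.Agent.Lib.MP_783f50_lc

open Pool.Agent.Lib.MP_2739cb_lc

set_option synthInstance.maxSize 100000

universe v

variable {M : Type v} [ZM M]

theorem trans_app {f A B a b : M} (h : IsFun (EE M) f A B) (hab : App (EE M) f a b) :
    a ∈ A ∧ b = app f a :=
  ⟨(ZM.zfc.app_mem h hab).1,
    (app_eq (app_iff.1 hab) fun _ hb => ZM.zfc.app_unique h (app_iff.2 hb) hab).symm⟩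

theorem trans_app' {f A B a : M} (h : IsFun (EE M) f A B) (ha : a ∈ A) :
    App (EE M) f a (app f a) ∧ app f a ∈ B := by
  obtain ⟨b, h1, h2⟩ := ZM.zfc.app_total h ha
  obtain ⟨-, rfl⟩ := trans_app h h1
  exact ⟨h1, h2⟩

theorem trans_reg {κ : M} (h1 : IsInfCard (EE M) κ) (h2 : ¬ IsSingular (EE M) κ) : Reg κ := by
  have hO : Od κ := h1.1.1
  refine ⟨hO, fun ξ hξ f hf => ?_⟩
  by_contra hc
  push Not at hc
  obtain ⟨g, h3, h4⟩ := exists_isFun ξ κ (fun a => app f a) hf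
  refine h2 ⟨ξ, g, hξ, h3, fun β hβ => ?_⟩
  obtain ⟨a, ha, h5⟩ := hc β hβ
  exact ⟨a, _, (h4 _ _).2 ⟨ha, rfl⟩, mem_suc.1 (hO.mem_suc_of_not hβ (hf a ha) h5)⟩

theorem trans_not_sing {κ : M} (h : Reg κ) : ¬ IsSingular (EE M) κ := by
  rintro ⟨α, f, hα, hf, h1⟩
  obtain ⟨b, hb, h2⟩ := h.2 α hα f fun a ha => (trans_app' hf ha).2
  obtain ⟨a, c, h3, h4⟩ := h1 b hb
  obtain ⟨ha, rfl⟩ := trans_app hf h3
  rcases h4 with h4 | h4
  · exact mem_asymm' h4 (h2 a ha)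
  · exact mem_irrefl b (by have := h2 a ha; rwa [← h4] at this)

theorem trans_infCard {κ : M} (h : Reg κ) (hω : om M ∈ κ) : IsInfCard (EE M) κ := by
  refine ⟨⟨h.1, fun α hα hc => ?_⟩, ⟨_, hω⟩,
    fun α hα => ⟨_, h.suc_mem hω hα, self_mem_suc α⟩⟩
  obtain ⟨f, hf, h1⟩ := hc
  exact trans_not_sing h ⟨α, f, hα, hf.1, fun β hβ =>
    let ⟨a, ha⟩ := h1 β hβ; ⟨a, β, ha, Or.inr rfl⟩⟩

theorem trans_cardEq {I : M} (h1 : Le I (om1 M)) (h2 : ¬ Ctbl I) : CardEq (EE M) (om1 M) I := by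
  obtain ⟨e, h3, h4⟩ := h1.exists_inj
  obtain ⟨b, h5, h6, h7⟩ := enum' (X := I) reg_om1 (fun x => app e x) h3 (by
    by_contra hc
    push Not at hc
    obtain ⟨a, ha, h5⟩ := hc
    refine h2 (ctbl_iff_le.2 ((le_of_inj I (suc a) (fun x => app e x) (fun x hx => ?_) h4).trans
      (ctbl_iff_le.1 (ctbl_of_mem_om1 (suc_mem_om1 ha)))))
    exact od_om1.mem_suc_of_not (h3 x hx) ha (h5 x hx))
  exact cardEq_of _ _ (fun n => app b n) h5 h6 fun x hx =>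
    let ⟨ξ, hξ, h⟩ := h7 x hx; ⟨ξ, hξ, h4 _ _ hx (h5 ξ hξ) h.symm⟩

theorem frp_iff : FRP (EE M) (om M) (om1 M) ↔ FRPi M := by
  constructor
  · intro H κ S g hκ h1 hS h2 h3
    have hω : om M ∈ κ := hκ.1.trans h1 om_mem_om1
    obtain ⟨g', hg, hg'⟩ := exists_isFun S (pw κ) (fun α => app g α)
      fun α hα => mem_pw.2 (h3 α hα).1
    obtain ⟨I, β, i1, i2, i3, i4, i5, i6⟩ := H κ S g' (pw κ) (trans_infCard hκ hω)
      (trans_not_sing hκ) h1 (hS.stationary hκ.1) (fun α hα => by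
        obtain ⟨h4, B, h5, h6, h7⟩ := h2 α hα
        exact ⟨⟨hκ.1.mem (hS.1 α hα), h4, fun b hb =>
          let ⟨c, h8, h9⟩ := h7 b hb; ⟨c, h5 c h8, h9⟩⟩, B, h5, h6.cardLe, h7⟩) hg
      (fun α y h => by
        obtain ⟨h4, rfl⟩ := (hg' _ _).1 h
        exact ⟨(h3 α h4).1, (h3 α h4).2.cardLe⟩)
    obtain rfl : β = sU I := zext fun z => (i3 z).trans mem_sU.symm
    refine ⟨I, i1, ?_, fun B h4 h5 => i4 B h4 h5.cardLe,
      fun α h4 h5 => i5 α _ h5 ((hg' _ _).2 ⟨h4, rfl⟩), fun f hf => ?_⟩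
    · obtain ⟨e, h4, h5⟩ := i2
      refine ⟨e, fun z hz => ?_⟩
      obtain ⟨a, ha⟩ := h5 z hz
      exact ⟨a, (trans_app h4.1 ha).1, (trans_app h4.1 ha).2.symm⟩
    · obtain ⟨f', h4, h5⟩ := exists_isFun (S ∩ I) κ (fun α => app f α) fun α hα =>
        (h3 α (mem_inter.1 hα).1).1 _ (hf α (mem_inter.1 hα).1 (mem_inter.1 hα).2).2
      obtain ⟨ξ, T, -, h6, h7⟩ := i6 f' (S ∩ I) (fun _ => mem_inter) h4 fun α x y hx hy => by
        obtain ⟨h6, rfl⟩ := (h5 _ _).1 hx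
        obtain ⟨-, rfl⟩ := (hg' _ _).1 hy
        exact hf α (mem_inter.1 h6).1 (mem_inter.1 h6).2
      obtain rfl : T = sep I fun α => α ∈ S ∧ app f α = ξ := zext fun z => by
        refine ((h6 z).trans (h5 z ξ)).trans ?_
        rw [mem_sep, mem_inter]
        exact ⟨fun h => ⟨h.1.2, h.1.1, h.2.symm⟩, fun h => ⟨⟨h.2.1, h.1⟩, h.2.2.symm⟩⟩
      exact ⟨ξ, h7⟩
  · intro H κ S g C h1 h2 h3 hS h4 hg h5
    have hκ := trans_reg h1 h2
    have hω : om M ∈ κ := hκ.1.trans h3 om_mem_om1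
    obtain ⟨I, i1, i2, i3, i4, i5⟩ := H κ S g hκ h3 (gstat_of_stationary hκ hω hS)
      (fun α hα => by
        obtain ⟨h6, B, h7, h8, h9⟩ := h4 α hα
        exact ⟨h6.2.1, B, h7, ctbl_of_cardLe h8, h9⟩)
      fun α hα => ⟨(h5 α _ (trans_app' hg hα).1).1, ctbl_of_cardLe (h5 α _ (trans_app' hg hα).1).2⟩
    refine ⟨I, sU I, i1, trans_cardEq i2 fun hc => ?_, fun _ => mem_sU,
      fun B h6 h7 => i3 B h6 (ctbl_of_cardLe h7), fun α y h6 h7 => ?_, fun f D hD hf h6 => ?_⟩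
    · obtain ⟨a, ha, h6⟩ := i3 I (sub_refl I) hc
      exact mem_irrefl a (h6 a ha)
    · obtain ⟨h8, rfl⟩ := trans_app hg h7
      exact i4 α h8 h6
    · obtain ⟨ξ, h7⟩ := i5 f fun α h7 h8 =>
        h6 α _ _ (trans_app' hf ((hD α).2 ⟨h7, h8⟩)).1 (trans_app' hg h7).1
      have key : ∀ α, α ∈ (sep I fun α => α ∈ S ∧ app f α = ξ) ↔ App (EE M) f α ξ := by
        intro α
        rw [mem_sep]
        refine ⟨fun h => h.2.2 ▸ (trans_app' hf ((hD α).2 ⟨h.2.1, h.1⟩)).1, fun h => ?_⟩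
        obtain ⟨h8, h9⟩ := trans_app hf h
        exact ⟨((hD α).1 h8).2, ((hD α).1 h8).1, h9.symm⟩
      obtain ⟨s, hs, -⟩ := h7.2 (sU I) ⟨fun _ h => h, fun a ha => by
        obtain ⟨y, hy, h8⟩ := mem_sU.1 ha
        obtain ⟨c, hc, h9⟩ := i3 {y} (fun z hz => mem_single.1 hz ▸ hy) (ctbl_single y)
        exact ⟨y, mem_sU.2 ⟨c, hc, h9 y (mem_single.2 rfl)⟩, h8⟩, fun _ h _ _ => h⟩
      exact ⟨ξ, _, (ZM.zfc.app_mem hf ((key s).1 hs)).2, key, h7⟩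

end Pool.Agent.Lib.MP_783f50_lc
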