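import Pool.Agent.Lib.MP_783f50_lc.FR.Core

/-! A normal spanning tree gives each vertex finitely many ancestors. -/

namespace Pool.Agent.Lib.MP_783f50_lc

open Pool.Agent.Lib.MP_2739cb_lc

set_option synthInstance.maxSize 100000

universe v

variable {M : Type v} [ZM M] {V A : M}

theorem anc_snoc {B X f n a u v : M} (h : Pth B X f n a u) (hv : v ∈ X)
    (hc : ∀ j, j ∈ suc n → app f j ≠ v) (e : op u v ∈ B) :
    ∃ g, Pth B X g (suc n) a v ∧ app g n = u := by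
  obtain ⟨h1, h2, h3, h4, h5, h6⟩ := h
  have hn := od_om.mem h1
  obtain ⟨g, -, hg⟩ := exists_lam (suc (suc n)) fun i => zite (i = suc n) v (app f i)
  have h7 : ∀ i, i ∈ suc n → app g i = app f i := fun i hi => by
    rw [hg i (mem_suc.2 (Or.inl hi)), zite_neg fun e => mem_irrefl _ (e ▸ hi)]
  have h8 : app g (suc n) = v := by rw [hg _ (self_mem_suc _), zite_pos rfl]
  refine ⟨g, ⟨suc_mem_om h1, fun i hi => ?_, fun i j hi hj e => ?_,
    by rw [h7 _ (empty_mem_suc h1), h4], h8, fun i hi => ?_⟩,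
    by rw [h7 _ (self_mem_suc n), h5]⟩
  · rcases mem_suc.1 hi with h | rfl
    · rw [h7 i h]; exact h2 i h
    · rwa [h8]
  · rcases mem_suc.1 hi with h | rfl <;> rcases mem_suc.1 hj with h' | rfl
    · rw [h7 i h, h7 j h'] at e; exact h3 i j h h' e
    · rw [h7 i h, h8] at e; exact absurd e (hc i h)
    · rw [h7 j h', h8] at e; exact absurd e.symm (hc j h')
    · rfl
  · rw [h7 i hi]
    rcases mem_suc.1 hi with h | rfl
    · rw [h7 _ (suc_mem_suc hn h)]; exact h6 i h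
    · rwa [h8, h5]

/-- In an acyclic graph two distinct neighbours of `x` are not joined away from `x`. -/
theorem anc_cut {T a b x : M} (hS : Sym T) (hac : Acyclic (EE M) (om M) T V) (hx : x ∈ V)
    (ha : op x a ∈ T) (hb : op x b ∈ T) (hc : Conn T (V \ {x}) a b) : a = b := by
  obtain ⟨f, n, hf⟩ := hc.pth
  have hf' : Pth T V f n a b :=
    ⟨hf.1, fun i hi => (mem_diff.1 (hf.2.1 i hi)).1, hf.2.2⟩
  obtain ⟨g, hg, hgn⟩ := anc_snoc hf' hx
    (fun j hj e => (mem_diff.1 (hf.2.1 j hj)).2 (mem_single.2 e)) (hS _ _ hb)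
  obtain ⟨k, hk, hk'⟩ := hg.isPath
  rcases hac k a x hk (app_iff.2 ha) n b
    ((hk' n b).2 ⟨mem_suc.2 (Or.inl (self_mem_suc n)), hgn.symm⟩) with h | h
  · exact h.symm
  · exact absurd (mem_single.2 h) (mem_diff.1 hc.right_mem).2

/-- In an acyclic graph two paths with the same ends have the same vertices. -/
theorem anc_key {T P m Q n r y j : M} (hS : Sym T) (hac : Acyclic (EE M) (om M) T V)
    (hP : Pth T V P m r y) (hQ : Pth T V Q n r y) (hj : j ∈ suc n) :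
    ∃ i, i ∈ suc m ∧ app Q j = app P i := by
  by_contra hc
  have hne : ∀ i, i ∈ suc m → app Q j ≠ app P i := fun i hi e => hc ⟨i, hi, e⟩
  have hn := od_om.mem hQ.1
  have hjo : j ∈ om M := od_om.trans (suc_mem_om hQ.1) hj
  have hjn : j ∈ n := by
    rcases mem_suc.1 hj with h | rfl
    · exact h
    · exact absurd (hQ.2.2.2.2.1.trans hP.2.2.2.2.1.symm) (hne m (self_mem_suc m))
  rcases nat_cases hjo with rfl | ⟨k, hk, rfl⟩
  · exact hne ∅ (empty_mem_suc hP.1) (hQ.2.2.2.1.trans hP.2.2.2.1.symm)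
  have hkn : k ∈ n := hn.trans hjn (self_mem_suc k)
  have hk1 : k ∈ suc n := mem_suc.2 (Or.inl hkn)
  have hk2 : suc (suc k) ∈ suc n := suc_mem_suc hn hjn
  have c1 : Conn T (V \ {app Q (suc k)}) r y := hP.conn fun i hi =>
    mem_diff.2 ⟨hP.2.1 i hi, fun e => hne i hi (mem_single.1 e).symm⟩
  have c2 : Conn T (V \ {app Q (suc k)}) r (app Q k) := by
    have := hQ.seg (Y := V \ {app Q (suc k)}) (empty_mem_suc hQ.1) k hk1 (empty_sub k)
      fun i hi _ h1 => mem_diff.2 ⟨hQ.2.1 i hi, fun e => by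
        obtain rfl := hQ.2.2.1 i _ hi hj (mem_single.1 e)
        exact mem_irrefl k (h1 k (self_mem_suc k))⟩
    rwa [hQ.2.2.2.1] at this
  have c3 : Conn T (V \ {app Q (suc k)}) (app Q (suc (suc k))) y := by
    have := hQ.seg (Y := V \ {app Q (suc k)}) hk2 n (self_mem_suc n) (sub_of_mem_suc hn hk2)
      fun i hi h1 _ => mem_diff.2 ⟨hQ.2.1 i hi, fun e => by
        obtain rfl := hQ.2.2.1 i _ hi hj (mem_single.1 e)
        exact mem_irrefl _ (h1 _ (self_mem_suc (suc k)))⟩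
    rwa [hQ.2.2.2.2.1] at this
  have e := anc_cut hS hac (hQ.2.1 _ hj) (hS _ _ (hQ.2.2.2.2.2 k hkn)) (hQ.2.2.2.2.2 _ hjn)
    (((c2.symm hS).trans c1).trans (c3.symm hS))
  have e2 := hQ.2.2.1 _ _ hk1 hk2 e
  have h3 : k ∈ suc (suc k) := mem_suc.2 (Or.inl (self_mem_suc k))
  rw [← e2] at h3
  exact mem_irrefl k h3

theorem nst_anc (hG : Gr V A) (h : HasNST (EE M) (om M) V A) :
    ∃ R : M, (∀ y, y ∈ V → ¬ Inf (sep V fun x => op x y ∈ R)) ∧
      ∀ a b, op a b ∈ A → op a b ∈ R ∨ op b a ∈ R := by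
  obtain ⟨T, r, hT, -, hr, hC, hac, hN⟩ := h
  have hT' : Gr V T := gr_of hT hC
  obtain ⟨R, -, hR⟩ := exists_rel V V
    fun x y => ∃ f n : M, Pth T V f n r y ∧ ∃ i, i ∈ suc n ∧ x = app f i
  have key : ∀ a b, a ∈ V → b ∈ V → TreeLe (EE M) (om M) T V r a b → op a b ∈ R := by
    rintro a b ha hb ⟨f, hf, i, hi⟩
    obtain ⟨n, h1, h2⟩ := pth_of_isPath hf
    exact (hR a b).2 ⟨ha, hb, f, n, h1, i, h2 i a hi⟩
  refine ⟨R, fun y hy => ?_, fun a b e => ?_⟩
  · obtain ⟨P, m, hP⟩ := (hT'.conn r y hr hy).pth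
    refine not_inf_img (not_inf_nat (suc_mem_om hP.1)) (fun i => app P i) fun z hz => ?_
    obtain ⟨-, -, Q, n, hQ, j, hj, rfl⟩ := (hR z y).1 (mem_sep.1 hz).2
    exact anc_key hT'.sym hac hP hQ hj
  · have h1 := hG.mem a b e
    exact (hN a b (app_iff.2 e)).imp (key a b h1.1 h1.2) (key b a h1.2 h1.1)

end Pool.Agent.Lib.MP_783f50_lc
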