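import Pool.Agent.Lib.MP_783f50_lc.Defs

/-!
The Fodor-type Reflection Principle, read inside a structure `(M, E)`.
-/

namespace Pool.Agent.Lib.MP_783f50_lc

open Pool.Agent.Lib.MP_2739cb_lc

universe v

variable {M : Type v} (E : M → M → Prop)

/-- `a` is a limit ordinal of cofinality `w`: it has a cofinal subset that injects into `w`. -/
def CofOmega (w a : M) : Prop :=
  IsLimit E a ∧ ∃ B, Sub E B a ∧ CardLe E B w ∧ ∀ x, E x a → ∃ b, E b B ∧ E x b

/-- The Fodor-type Reflection Principle: for every regular cardinal `κ > w₁`, every stationary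
set `S ⊆ κ` of ordinals of cofinality `w` and every function `g` on `S` whose values are
countable subsets of `κ`, there is `I ⊆ κ` of size `w₁` with supremum `β` such that
`I` has no countable cofinal subset, `g α ⊆ I` for `α ∈ I ∩ S`, and every function
`f : S ∩ I → κ` with `f α < α` and `f α ∈ g α` is constant on a set stationary in `β`. -/
def FRP (w w₁ : M) : Prop :=
  ∀ κ S g C, IsInfCard E κ → ¬ IsSingular E κ → E w₁ κ → IsStationary E κ S →
    (∀ α, E α S → CofOmega E w α) → IsFun E g S C →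
    (∀ α y, App E g α y → Sub E y κ ∧ CardLe E y w) →
    ∃ I β, Sub E I κ ∧ CardEq E w₁ I ∧ (∀ z, E z β ↔ ∃ y, E y I ∧ E z y) ∧
      (∀ B, Sub E B I → CardLe E B w → ∃ a, E a I ∧ ∀ b, E b B → E b a) ∧
      (∀ α y, E α I → App E g α y → Sub E y I) ∧
      ∀ f D, (∀ α, E α D ↔ E α S ∧ E α I) → IsFun E f D κ →
        (∀ α x y, App E f α x → App E g α y → E x α ∧ E x y) →
        ∃ ξ T, E ξ κ ∧ (∀ α, E α T ↔ App E f α ξ) ∧ IsStationary E β T

end Pool.Agent.Lib.MP_783f50_lc
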