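import Pool.Agent.Lib.MP_783f50_lc.Minor
import Pool.Agent.Lib.MP_783f50_lc.FR.FDefs

/-! Sizes, recursion, stationary sets and Fodor's lemma inside a model of ZFC. -/

namespace Pool.Agent.Lib.MP_783f50_lc

open Pool.Agent.Lib.MP_2739cb_lc

set_option synthInstance.maxSize 100000

universe v

variable {M : Type v} [ZM M]

/-- `X` is covered by the values of a function on `θ`. -/
def Le (X θ : M) : Prop := ∃ f : M, ∀ z, z ∈ X → ∃ a, a ∈ θ ∧ app f a = z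

instance DP.le {α : Type v} [Ctx M α] (s t : α → M) [DF M s] [DF M t] :
    DP M (no_index fun x => Le (s x) (t x)) :=
  have : DP M fun z : M × M => Le z.1 z.2 := by unfold Le; infer_instance
  DP.comp (fun z : M × M => Le z.1 z.2) fun x => (s x, t x)

instance DP.od {α : Type v} [Ctx M α] (s : α → M) [DF M s] :
    DP M (no_index fun x => Od (s x)) :=
  have : DP M fun x : M => Od x := by unfold Od IsOrd MP_2739cb_lc.Sub; infer_instance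
  DP.comp (fun x : M => Od x) s

instance DF.prd {α : Type v} [Ctx M α] (s t : α → M) [DF M s] [DF M t] :
    DF M (no_index fun x => prd (s x) (t x)) :=
  have : DF M fun z : M × M => MP_783f50_lc.prd z.1 z.2 := by
    unfold MP_783f50_lc.prd; infer_instance
  DF.comp (fun z : M × M => MP_783f50_lc.prd z.1 z.2) fun x => (s x, t x)

theorem ctbl_iff_le {Z : M} : Ctbl Z ↔ Le Z (om M) := Iff.rfl

theorem le_of (X θ : M) (F : M → M) [DF M F] (h : ∀ z, z ∈ X → ∃ a, a ∈ θ ∧ F a = z) :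
    Le X θ := by
  obtain ⟨f, -, hf⟩ := exists_lam θ F
  exact ⟨f, fun z hz => let ⟨n, h1, h2⟩ := h z hz; ⟨n, h1, (hf n h1).trans h2⟩⟩

theorem le_of_sub {X θ : M} (h : X ⊆ θ) : Le X θ :=
  le_of _ _ (fun a => a) fun z hz => ⟨z, h z hz, rfl⟩

theorem Le.mono {X X' θ : M} (h : Le X θ) (hs : X' ⊆ X) : Le X' θ :=
  let ⟨f, hf⟩ := h; ⟨f, fun z hz => hf z (hs z hz)⟩

theorem Le.mono' {X θ θ' : M} (h : Le X θ) (hs : θ ⊆ θ') : Le X θ' :=
  let ⟨f, hf⟩ := h; ⟨f, fun z hz => let ⟨a, h1, h2⟩ := hf z hz; ⟨a, hs a h1, h2⟩⟩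

theorem Le.img {X X' θ : M} (h : Le X θ) (F : M → M) [DF M F]
    (hs : ∀ z, z ∈ X' → ∃ a, a ∈ X ∧ z = F a) : Le X' θ := by
  obtain ⟨f, hf⟩ := h
  have : DF M fun n => F (app f n) := DF.comp F _
  refine le_of _ _ (fun n => F (app f n)) fun z hz => ?_
  obtain ⟨a, ha, rfl⟩ := hs z hz
  obtain ⟨n, hn, rfl⟩ := hf a ha
  exact ⟨n, hn, rfl⟩

theorem Le.trans {X Y θ : M} (h : Le X Y) (h' : Le Y θ) : Le X θ :=
  let ⟨f, hf⟩ := h
  h'.img (fun a => app f a) fun z hz => let ⟨a, h1, h2⟩ := hf z hz; ⟨a, h1, h2.symm⟩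

/-- A definable map between sets as a subset of the product. -/
theorem exists_fn (A B : M) (F : M → M) [DF M F] (h : ∀ a, a ∈ A → F a ∈ B) :
    ∃ f : M, f ⊆ prd A B ∧ ∀ a, a ∈ A → app f a = F a := by
  obtain ⟨f, h1, h2⟩ := exists_lam A F
  refine ⟨f, fun p hp => ?_, h2⟩
  obtain ⟨a, ha, rfl⟩ := (h1 p).1 hp
  exact op_mem_prd.2 ⟨ha, h a ha⟩

theorem Le.bdd {X θ U : M} (h : Le X θ) (hU : X ⊆ U) :
    ∃ f : M, f ⊆ prd θ U ∧ ∀ z, z ∈ X → ∃ a, a ∈ θ ∧ app f a = z := by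
  obtain ⟨f, hf⟩ := h
  obtain ⟨g, h1, h2⟩ := exists_fn (sep θ fun a => app f a ∈ U) U (fun a => app f a)
    fun a ha => (mem_sep.1 ha).2
  refine ⟨g, fun p hp => ?_, fun z hz => ?_⟩
  · obtain ⟨a, b, ha, hb, rfl⟩ := mem_prd.1 (h1 p hp)
    exact op_mem_prd.2 ⟨(mem_sep.1 ha).1, hb⟩
  · obtain ⟨a, ha, rfl⟩ := hf z hz
    exact ⟨a, ha, h2 a (mem_sep.2 ⟨ha, hU _ hz⟩)⟩

/-- A total enumeration of a nonempty set. -/
theorem Le.total {X θ x : M} (h : Le X θ) (hx : x ∈ X) :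
    ∃ f : M, (∀ a, a ∈ θ → app f a ∈ X) ∧ ∀ z, z ∈ X → ∃ a, a ∈ θ ∧ app f a = z := by
  obtain ⟨f, hf⟩ := h
  obtain ⟨g, -, hg⟩ := exists_lam θ fun a => zite (app f a ∈ X) (app f a) x
  refine ⟨g, fun a ha => ?_, fun z hz => ?_⟩
  · rw [hg a ha]
    by_cases h1 : app f a ∈ X
    · rwa [zite_pos h1]
    · rwa [zite_neg h1]
  · obtain ⟨a, ha, rfl⟩ := hf z hz
    exact ⟨a, ha, by rw [hg a ha, zite_pos hz]⟩

theorem Le.exists_inj {X θ : M} (h : Le X θ) : ∃ e : M, (∀ z, z ∈ X → app e z ∈ θ) ∧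
    ∀ z z', z ∈ X → z' ∈ X → app e z = app e z' → z = z' := by
  obtain ⟨f, hf⟩ := h
  obtain ⟨e, he⟩ := choice X θ (fun z n => app f n = z) hf
  exact ⟨e, fun z hz => (he z hz).1, fun z z' hz hz' h => by
    rw [← (he z hz).2, h, (he z' hz').2]⟩

theorem le_of_inj (X θ : M) (F : M → M) [DF M F] (h : ∀ z, z ∈ X → F z ∈ θ)
    (hi : ∀ z z', z ∈ X → z' ∈ X → F z = F z' → z = z') : Le X θ := by
  have : DF M fun z : M × M => F z.2 := DF.comp F _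
  obtain ⟨g, hg⟩ := choice (sep θ fun a => ∃ z, z ∈ X ∧ F z = a) X (fun a z => F z = a)
    fun a ha => (mem_sep.1 ha).2
  refine ⟨g, fun z hz => ⟨F z, h z hz, ?_⟩⟩
  have h1 := hg (F z) (mem_sep.2 ⟨h z hz, z, hz, rfl⟩)
  exact hi _ _ h1.1 hz h1.2

theorem od_tri {a b : M} (ha : Od a) (hb : Od b) : a ⊆ b ∨ b ∈ a := ZM.zfc.ord_total ha hb

theorem od_of_sub {θ a : M} (hθ : Od θ) (h : a ⊆ θ) (ht : ∀ x y, x ∈ a → y ∈ x → y ∈ a) : Od a :=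
  ⟨fun x hx y hy => ht x y hx hy, fun x y hx hy => hθ.tri (h x hx) (h y hy)⟩

theorem Od.sub_of_mem {θ a : M} (hθ : Od θ) (h : a ∈ θ) : a ⊆ θ := fun _ hz => hθ.trans h hz

theorem od_sU {θ B : M} (hθ : Od θ) (h : B ⊆ θ) : Od (sU B) :=
  od_of_sub hθ (fun _ hz => let ⟨y, h1, h2⟩ := mem_sU.1 hz; hθ.trans (h y h1) h2)
    fun _ _ hx hy => let ⟨z, h1, h2⟩ := mem_sU.1 hx
      mem_sU.2 ⟨z, h1, (hθ.mem (h z h1)).trans h2 hy⟩

theorem om_mem_om1 : om M ∈ om1 M := by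
  rcases od_tri (od_om1 (M := M)) od_om with h | h
  · exact absurd (ctbl_om.mono h) not_ctbl_om1
  · exact h

theorem om_sub_om1 : om M ⊆ om1 M := od_om1.sub_of_mem om_mem_om1

/-! ### Finite sets -/

theorem not_inf_empty : ¬ Inf (∅ : M) := fun h => let ⟨x, hx⟩ := h.nonempty; not_mem_empty x hx

theorem not_inf_of_bdd {X : M} (h : ∀ f : M, ∃ n, n ∈ om M ∧
    ∀ x, x ∈ X → app f x ∈ om M → app f x ∈ n) : ¬ Inf X := by
  rintro ⟨f, hf⟩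
  obtain ⟨n, h1, h2⟩ := h f
  obtain ⟨x, h3, h4, h5⟩ := hf n h1
  exact mem_asymm' h5 (h2 x h3 h4)

theorem bdd_of_not_inf' {X : M} (h : ¬ Inf X) (F : M → M) [DF M F] :
    ∃ n, n ∈ om M ∧ ∀ x, x ∈ X → F x ∈ om M → F x ∈ n := by
  obtain ⟨n, h1, h2⟩ := bdd_of_not_inf (X := sep X fun x => F x ∈ om M)
    (fun h1 => h (h1.mono fun x hx => (mem_sep.1 hx).1)) F fun x hx => (mem_sep.1 hx).2
  exact ⟨n, h1, fun x h3 h4 => h2 x (mem_sep.2 ⟨h3, h4⟩)⟩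

theorem not_inf_cover {n U : M} (hn : n ∈ om M) (F : M → M) [DF M F]
    (h1 : ∀ i, i ∈ n → ¬ Inf (F i)) (h2 : ∀ z, z ∈ U → ∃ i, i ∈ n ∧ z ∈ F i) : ¬ Inf U := by
  have inst : ∀ {α : Type v} [Ctx M α] (s : α → M) [DF M s], DF M fun x => F (s x) :=
    fun s _ => DF.comp F s
  refine not_inf_of_bdd fun f => ?_
  obtain ⟨r, hr⟩ := choice n (om M) (fun i m => ∀ x, x ∈ F i → app f x ∈ om M → app f x ∈ m)
    fun i hi => bdd_of_not_inf' (h1 i hi) fun x => app f x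
  obtain ⟨m, h3, h4⟩ := reg_om.2 n hn r fun i hi => (hr i hi).1
  refine ⟨m, h3, fun x hx h5 => ?_⟩
  obtain ⟨i, hi, h6⟩ := h2 x hx
  exact (od_om.mem h3).trans (h4 i hi) ((hr i hi).2 x h6 h5)

theorem not_inf_union {a b : M} (ha : ¬ Inf a) (hb : ¬ Inf b) : ¬ Inf (a ∪ b) := by
  refine not_inf_of_bdd fun f => ?_
  obtain ⟨n, h1, h2⟩ := bdd_of_not_inf' ha fun x => app f x
  obtain ⟨m, h3, h4⟩ := bdd_of_not_inf' hb fun x => app f x
  refine ⟨n ∪ m, od_om.union_mem h1 h3, fun x hx h5 => mem_union.2 ?_⟩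
  exact (mem_union.1 hx).imp (fun h => h2 x h h5) fun h => h4 x h h5

theorem not_inf_single (a : M) : ¬ Inf ({a} : M) := by
  refine not_inf_of_bdd fun f => ?_
  by_cases h : app f a ∈ om M
  · exact ⟨_, suc_mem_om h, fun x hx _ => by rw [mem_single.1 hx]; exact self_mem_suc _⟩
  · exact ⟨_, empty_mem_om, fun x hx h1 => absurd (mem_single.1 hx ▸ h1) h⟩

theorem not_inf_nat {n : M} (h : n ∈ om M) : ¬ Inf n :=
  not_inf_cover h (fun i => {i}) (fun i _ => not_inf_single i) fun z hz => ⟨z, hz, by simp⟩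

theorem not_inf_img {X Y : M} (h : ¬ Inf X) (F : M → M) [DF M F]
    (hs : ∀ z, z ∈ Y → ∃ a, a ∈ X ∧ z = F a) : ¬ Inf Y := by
  refine not_inf_of_bdd fun f => ?_
  have : DF M fun x => app f (F x) := inferInstance
  obtain ⟨n, h1, h2⟩ := bdd_of_not_inf' h fun x => app f (F x)
  refine ⟨n, h1, fun z hz h3 => ?_⟩
  obtain ⟨a, ha, rfl⟩ := hs z hz
  exact h2 a ha h3

theorem inf_om : Inf (om M) :=
  inf_of _ (fun n => n) fun n hn => ⟨_, suc_mem_om hn, suc_mem_om hn, self_mem_suc n⟩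

/-! ### Sizes -/

/-- A set that is the union of layers indexed by `κ`, none of whose initial unions covers `κ`,
is covered by `κ`. -/
theorem layers {κ X : M} (hκ : Od κ) (ρ : M → M) [DF M ρ] (h1 : ∀ x, x ∈ X → ρ x ∈ κ)
    (h2 : ∀ γ, γ ∈ κ → ¬ Le κ (sep X fun x => ρ x ⊆ γ)) : Le X κ := by
  have inst : ∀ {α : Type v} [Ctx M α] (s : α → M) [DF M s], DF M fun x => ρ (s x) :=
    fun s _ => DF.comp ρ s
  obtain ⟨F, hF, ⟨f1, f2⟩, hmax⟩ := zorn' (prd X κ) (fun F =>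
    (∀ x c x' c' : M, op x c ∈ F → op x' c' ∈ F → (x = x' ↔ c = c')) ∧
    ∀ x c y : M, op x c ∈ F → y ∈ X → ρ y ∈ ρ x → ∃ c', op y c' ∈ F) (by
      intro C hC hc
      simp only [mem_sU]
      refine ⟨?_, ?_⟩
      · rintro a l a' l' ⟨y, hy, h1⟩ ⟨y', hy', h2⟩
        rcases hc y y' hy hy' with h | h
        · exact (hC y' hy').2.1 _ _ _ _ (h _ h1) h2
        · exact (hC y hy).2.1 _ _ _ _ h1 (h _ h2)
      · rintro a l b ⟨y, hy, h1⟩ hb h3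
        obtain ⟨l', h2⟩ := (hC y hy).2.2 _ _ _ h1 hb h3
        exact ⟨l', y, hy, h2⟩)
  have happ : ∀ x c, op x c ∈ F → app F x = c := fun x c h =>
    app_eq h fun c' h' => (f1 _ _ _ _ h' h).1 rfl
  have tot : ∀ x, x ∈ X → op x (app F x) ∈ F := by
    by_contra hc
    push Not at hc
    obtain ⟨x0, h3, h4⟩ := hc
    obtain ⟨_, hγ, ⟨x, hx, rfl, hxF⟩, hmin⟩ := exists_min κ
      (fun γ => ∃ x, x ∈ X ∧ ρ x = γ ∧ ¬ ∃ c, op x c ∈ F)
      ⟨_, h1 x0 h3, x0, h3, rfl, fun ⟨c, h⟩ => h4 (by rwa [happ _ _ h])⟩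
    obtain ⟨c, hc, hcF⟩ : ∃ c, c ∈ κ ∧ ¬ ∃ y, op y c ∈ F := by
      by_contra h
      push Not at h
      refine h2 _ hγ ⟨F, fun c hc => ?_⟩
      obtain ⟨y, hy⟩ := h c hc
      have h5 := (op_mem_prd.1 (hF _ hy)).1
      refine ⟨y, mem_sep.2 ⟨h5, ?_⟩, happ _ _ hy⟩
      exact (od_tri (hκ.mem (h1 y h5)) (hκ.mem hγ)).resolve_right fun h => hxF (f2 _ _ _ hy hx h)
    refine hxF ⟨c, hmax (F ∪ {op x c}) (fun p hp => ?_) ⟨?_, ?_⟩ (fun p hp => by simp [hp]) _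
      (by simp)⟩
    · rcases mem_union.1 hp with h | h
      · exact hF p h
      · rw [mem_single.1 h]; simp [hx, hc]
    · intro b l1 b' l2 h7 h8
      simp only [mem_union, mem_single, op_inj] at h7 h8
      rcases h7 with h7 | ⟨rfl, rfl⟩ <;> rcases h8 with h8 | ⟨rfl, rfl⟩
      · exact f1 _ _ _ _ h7 h8
      · exact iff_of_false (fun e => hxF ⟨_, e ▸ h7⟩) fun e => hcF ⟨_, e ▸ h7⟩
      · exact iff_of_false (fun e => hxF ⟨_, e ▸ h8⟩) fun e => hcF ⟨_, e ▸ h8⟩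
      · exact iff_of_true rfl rfl
    · intro b l1 y h7 h8 h9
      simp only [mem_union, mem_single, op_inj] at h7 ⊢
      rcases h7 with h7 | ⟨rfl, rfl⟩
      · exact (f2 _ _ _ h7 h8 h9).imp fun _ h => Or.inl h
      · by_contra h10
        exact hmin _ h9 (h1 y h8) ⟨y, h8, rfl, fun ⟨c', h⟩ => h10 ⟨c', Or.inl h⟩⟩
  exact le_of_inj X κ (fun x => app F x) (fun x hx => (op_mem_prd.1 (hF _ (tot x hx))).2)
    fun x x' hx hx' e => (f1 _ _ _ _ (tot x hx) (tot x' hx')).2 e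

theorem Reg.bdd {κ ξ X : M} (hκ : Reg κ) (hξ : ξ ∈ κ) (hX : Le X ξ) (F : M → M) [DF M F]
    (h : ∀ x, x ∈ X → F x ∈ κ) : ∃ b, b ∈ κ ∧ ∀ x, x ∈ X → F x ∈ b := by
  obtain ⟨f, hf⟩ := hX
  have : DF M fun a => F (app f a) := DF.comp F _
  obtain ⟨g, -, hg⟩ := exists_lam ξ fun a => zite (app f a ∈ X) (F (app f a)) ξ
  obtain ⟨b, h1, h2⟩ := hκ.2 ξ hξ g fun a ha => by
    rw [hg a ha]
    by_cases h1 : app f a ∈ X
    · rw [zite_pos h1]; exact h _ h1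
    · rwa [zite_neg h1]
  refine ⟨b, h1, fun x hx => ?_⟩
  obtain ⟨a, ha, rfl⟩ := hf x hx
  have := h2 a ha
  rwa [hg a ha, zite_pos hx] at this

theorem Reg.suc_mem {κ a : M} (hκ : Reg κ) (hω : om M ∈ κ) (ha : a ∈ κ) : suc a ∈ κ := by
  obtain ⟨b, h1, h2⟩ := hκ.bdd hω (X := om M) (le_of_sub (sub_refl _)) (fun _ => a) fun _ _ => ha
  exact hκ.1.suc_mem h1 (h2 _ empty_mem_om)

theorem le_prd_map {a b θ : M} (ha : Le a θ) (hb : Le b θ) : Le (prd a b) (prd θ θ) := by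
  obtain ⟨f, hf⟩ := ha
  obtain ⟨g, hg⟩ := hb
  refine le_of _ _ (fun p => op (app f (p1 p)) (app g (p2 p))) fun z hz => ?_
  obtain ⟨x, y, hx, hy, rfl⟩ := mem_prd.1 hz
  obtain ⟨i, hi, rfl⟩ := hf x hx
  obtain ⟨j, hj, rfl⟩ := hg y hy
  exact ⟨op i j, by simp [hi, hj], by simp⟩

theorem hess {θ : M} (hθ : Od θ) (hω : om M ⊆ θ) : Le (prd θ θ) θ := by
  have key : ∀ κ, κ ∈ suc θ → om M ⊆ κ → Le (prd κ κ) κ := by
    refine mem_induction _ _ fun κ hκ ih hω => ?_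
    have hO := hθ.suc.mem hκ
    by_cases hc : ∃ β, β ∈ κ ∧ om M ⊆ β ∧ Le κ β
    · obtain ⟨β, h1, h2, h3⟩ := hc
      exact ((le_prd_map h3 h3).trans (ih β h1 (hθ.suc.trans hκ h1) h2)).mono' (hO.sub_of_mem h1)
    refine layers hO (fun p => p1 p ∪ p2 p) (fun p hp => ?_) fun γ hγ h => ?_
    · obtain ⟨a, b, ha, hb, rfl⟩ := mem_prd.1 hp
      simpa using hO.union_mem ha hb
    have h1 : Le κ (prd (suc γ) (suc γ)) := h.mono' fun p hp => by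
      obtain ⟨h1, h2⟩ := mem_sep.1 hp
      obtain ⟨a, b, ha, hb, rfl⟩ := mem_prd.1 h1
      simp only [p1_op, p2_op] at h2
      have h3 := (hO.mem hγ).suc
      exact op_mem_prd.2 ⟨(hO.mem ha).mem_of_sub h3 (fun z hz => h2 z (by simp [hz]))
        (self_mem_suc γ), (hO.mem hb).mem_of_sub h3 (fun z hz => h2 z (by simp [hz]))
        (self_mem_suc γ)⟩
    rcases od_om.sub hO hω with rfl | h2
    · have h2 := suc_mem_om hγ
      have h3 : ¬ Inf (prd (suc γ) (suc γ)) := not_inf_cover h2 (fun i => prd {i} (suc γ))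
        (fun i _ => not_inf_img (not_inf_nat h2) (fun j => op i j) fun z hz => by
          obtain ⟨a, b, ha, hb, rfl⟩ := mem_prd.1 hz
          exact ⟨b, hb, by rw [mem_single.1 ha]⟩) fun z hz => by
          obtain ⟨a, b, ha, hb, rfl⟩ := mem_prd.1 hz
          exact ⟨a, ha, by simp [hb]⟩
      obtain ⟨f, hf⟩ := h1
      exact not_inf_img h3 (fun a => app f a)
        (fun z hz => let ⟨a, h4, h5⟩ := hf z hz; ⟨a, h4, h5.symm⟩) inf_om
    · have h3 := hO.union_mem hγ h2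
      have h4 : om M ⊆ γ ∪ om M := fun z hz => by simp [hz]
      have h5 := ih _ h3 (hθ.suc.trans hκ h3) h4
      have h6 : Le (suc γ) (γ ∪ om M) := by
        refine (le_of _ _ (fun p : M => zite (p1 p = (∅ : M)) (p2 p) γ) fun z hz => ?_).trans h5
        rcases mem_suc.1 hz with h6 | rfl
        · exact ⟨op ∅ z, by simp [h6, empty_mem_om], by simp [zite_pos]⟩
        · refine ⟨op (suc ∅) ∅, by simp [empty_mem_om, suc_mem_om], zite_neg ?_⟩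
          rw [p1_op]
          exact fun e => not_mem_empty _ (e ▸ self_mem_suc (∅ : M))
      exact hc ⟨_, h3, h4, (h1.trans (le_prd_map h6 h6)).trans h5⟩
  exact key θ (self_mem_suc θ) hω

theorem Le.prd {θ a b : M} (hθ : Od θ) (hω : om M ⊆ θ) (ha : Le a θ) (hb : Le b θ) :
    Le (MP_783f50_lc.prd a b) θ := (le_prd_map ha hb).trans (hess hθ hω)

theorem Le.cover {θ I U : M} (hθ : Od θ) (hω : om M ⊆ θ) (h : Le I θ) (F : M → M) [DF M F]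
    (h1 : ∀ i, i ∈ I → Le (F i) θ) (h2 : ∀ z, z ∈ U → ∃ i, i ∈ I ∧ z ∈ F i) : Le U θ := by
  have inst : ∀ {α : Type v} [Ctx M α] (s : α → M) [DF M s], DF M fun x => F (s x) :=
    fun s _ => DF.comp F s
  obtain ⟨e, he⟩ := choice I (pw (MP_783f50_lc.prd θ U))
    (fun i f => ∀ z, z ∈ F i ∩ U → ∃ a, a ∈ θ ∧ app f a = z) fun i hi =>
      let ⟨f, h3, h4⟩ := ((h1 i hi).mono (X' := F i ∩ U) fun z hz => (mem_inter.1 hz).1).bdd
        (U := U) fun z hz => (mem_inter.1 hz).2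
      ⟨f, mem_pw.2 h3, h4⟩
  refine (h.prd hθ hω (le_of_sub (sub_refl θ))).img (fun p => app (app e (p1 p)) (p2 p))
    fun z hz => ?_
  obtain ⟨i, hi, h3⟩ := h2 z hz
  obtain ⟨a, ha, h4⟩ := (he i hi).2 z (mem_inter.2 ⟨h3, hz⟩)
  exact ⟨op i a, by simp [hi, ha], by simp [h4]⟩

theorem Le.union {θ a b : M} (hθ : Od θ) (hω : om M ⊆ θ) (ha : Le a θ) (hb : Le b θ) :
    Le (a ∪ b) θ :=
  Le.cover hθ hω (Le.mono' (ctbl_upair a b) hω) (fun y => y)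
    (fun y hy => by rcases mem_upair.1 hy with rfl | rfl <;> assumption)
    fun z hz => by simpa using hz

/-- Recursion along an ordinal, in the form of increasing unions. -/
theorem exists_rec {θ : M} (hθ : Od θ) (U : M) (F : M → M → M)
    [DF M fun z : M × M => F z.1 z.2] (hF : ∀ β y, β ∈ θ → y ⊆ U → F β y ⊆ U) :
    ∃ Y : M, ∀ α, α ∈ θ → app Y α ⊆ U ∧
      ∀ z, z ∈ app Y α ↔ ∃ β, β ∈ α ∧ z ∈ F β (app Y β) := by
  have inst : ∀ {α : Type v} [Ctx M α] (s t : α → M) [DF M s] [DF M t],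
      DF M fun x => F (s x) (t x) :=
    fun s t _ _ => DF.comp (fun z : M × M => F z.1 z.2) fun x => (s x, t x)
  obtain ⟨Y, hY, ⟨f1, f2, f3⟩, hmax⟩ := zorn' (prd θ (pw U)) (fun Y =>
    (∀ a y y' : M, op a y ∈ Y → op a y' ∈ Y → y' = y) ∧
    (∀ a y b : M, op a y ∈ Y → b ∈ a → ∃ y', op b y' ∈ Y) ∧
    ∀ a y z : M, op a y ∈ Y → (z ∈ y ↔ ∃ b y' : M, b ∈ a ∧ op b y' ∈ Y ∧ z ∈ F b y')) (by
      intro C hC hc
      simp only [mem_sU]
      have f1 : ∀ a y y' : M, (∃ Y, Y ∈ C ∧ op a y ∈ Y) → (∃ Y, Y ∈ C ∧ op a y' ∈ Y) → y' = y := by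
        rintro a l l' ⟨y, hy, h1⟩ ⟨y', hy', h2⟩
        rcases hc y y' hy hy' with h | h
        · exact (hC y' hy').2.1 _ _ _ (h _ h1) h2
        · exact (hC y hy).2.1 _ _ _ h1 (h _ h2)
      refine ⟨f1, ?_, ?_⟩
      · rintro a l b ⟨y, hy, h1⟩ hb
        obtain ⟨l', h2⟩ := (hC y hy).2.2.1 _ _ _ h1 hb
        exact ⟨l', y, hy, h2⟩
      · rintro a l z ⟨y, hy, h1⟩
        rw [(hC y hy).2.2.2 _ _ z h1]
        constructor
        · rintro ⟨b, y', h2, h3, h4⟩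
          exact ⟨b, y', h2, ⟨y, hy, h3⟩, h4⟩
        · rintro ⟨b, y', h2, h3, h4⟩
          obtain ⟨l', h5⟩ := (hC y hy).2.2.1 _ _ _ h1 h2
          exact ⟨b, l', h2, h5, f1 _ _ _ h3 ⟨y, hy, h5⟩ ▸ h4⟩)
  have happ : ∀ a y, op a y ∈ Y → app Y a = y := fun a y h => app_eq h fun y' h' => f1 _ _ _ h h'
  have tot : ∀ a, a ∈ θ → op a (app Y a) ∈ Y := by
    refine mem_induction θ _ fun a ha ih => ?_
    by_contra hc
    have hn : ∀ y, op a y ∉ Y := fun y h => hc (by rwa [happ _ _ h])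
    obtain ⟨y, hy⟩ := exists_sep U fun z => ∃ b y' : M, b ∈ a ∧ op b y' ∈ Y ∧ z ∈ F b y'
    refine hn y (hmax (Y ∪ {op a y}) (fun p hp => ?_) ⟨?_, ?_, ?_⟩ (fun p hp => by simp [hp]) _
      (by simp))
    · rcases mem_union.1 hp with h | h
      · exact hY p h
      · rw [mem_single.1 h]
        exact op_mem_prd.2 ⟨ha, mem_pw.2 fun z hz => ((hy z).1 hz).1⟩
    · intro b l1 l2 h7 h8
      simp only [mem_union, mem_single, op_inj] at h7 h8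
      rcases h7 with h7 | ⟨rfl, rfl⟩ <;> rcases h8 with h8 | ⟨h8, rfl⟩
      · exact f1 _ _ _ h7 h8
      · exact absurd (h8 ▸ h7) (hn _)
      · exact absurd h8 (hn _)
      · rfl
    · intro b l1 b' h7 h8
      simp only [mem_union, mem_single, op_inj] at h7 ⊢
      rcases h7 with h7 | ⟨rfl, rfl⟩
      · exact (f2 _ _ _ h7 h8).imp fun _ h => Or.inl h
      · exact ⟨_, Or.inl (ih b' h8 (hθ.trans ha h8))⟩
    · intro b l z h7
      simp only [mem_union, mem_single, op_inj] at h7 ⊢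
      rcases h7 with h7 | ⟨rfl, rfl⟩
      · rw [f3 _ _ z h7]
        refine exists₂_congr fun c y' => and_congr_right fun h8 => and_congr_left fun _ =>
          ⟨Or.inl, fun h => h.resolve_right fun e => ?_⟩
        obtain ⟨y'', h9⟩ := f2 _ _ _ h7 h8
        exact hn _ (e.1 ▸ h9)
      · rw [hy]
        constructor
        · rintro ⟨-, c, y', h8, h9, h10⟩
          exact ⟨c, y', h8, Or.inl h9, h10⟩
        · rintro ⟨c, y', h8, h9 | ⟨rfl, -⟩, h10⟩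
          · obtain ⟨h11, h12⟩ := op_mem_prd.1 (hY _ h9)
            exact ⟨hF _ _ h11 (mem_pw.1 h12) z h10, c, y', h8, h9, h10⟩
          · exact absurd h8 (mem_irrefl _)
  refine ⟨Y, fun a ha => ⟨mem_pw.1 (op_mem_prd.1 (hY _ (tot a ha))).2, fun z => ?_⟩⟩
  rw [f3 _ _ z (tot a ha)]
  refine exists_congr fun b => ⟨?_, ?_⟩
  · rintro ⟨y', h1, h2, h3⟩
    exact ⟨h1, by rwa [happ _ _ h2]⟩
  · rintro ⟨h1, h2⟩
    exact ⟨_, h1, tot b (hθ.trans ha h1), h2⟩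

/-- `a` has a countable cofinal subset and no largest element. -/
def CofW (a : M) : Prop := ∃ B : M, B ⊆ a ∧ Ctbl B ∧ ∀ x, x ∈ a → ∃ b, b ∈ B ∧ x ∈ b

instance DP.cofW {α : Type v} [Ctx M α] (s : α → M) [DF M s] :
    DP M (no_index fun x => CofW (s x)) :=
  have : DP M fun x : M => CofW x := by unfold CofW; infer_instance
  DP.comp (fun x : M => CofW x) s

theorem exists_closed {κ k b : M} (hκ : Reg κ) (hω : om M ∈ κ)
    (hk : ∀ a, a ∈ κ → app k a ∈ κ) (hb : b ∈ κ) : ∃ γ, γ ∈ κ ∧ b ∈ γ ∧ Cl k γ ∧ CofW γ := by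
  have hO := hκ.1
  obtain ⟨s, hs⟩ := choice κ κ (fun y c => y ∈ c ∧ b ∈ c ∧ ∀ a, a ∈ y → app k a ∈ c)
    fun y hy => by
      obtain ⟨c, h1, h2⟩ := hκ.2 y hy k fun a ha => hk a (hO.trans hy ha)
      exact ⟨c ∪ (suc y ∪ suc b), hO.union_mem h1 (hO.union_mem (hκ.suc_mem hω hy)
        (hκ.suc_mem hω hb)), by simp, by simp, fun a ha => by simp [h2 a ha]⟩
  obtain ⟨Y, hY⟩ := exists_rec od_om κ (fun _ y => zite (y ∈ κ) (app s y) ∅) fun _ y _ _ => by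
    by_cases h : y ∈ κ
    · rw [zite_pos h]; exact hO.sub_of_mem (hs y h).1
    · rw [zite_neg h]; exact empty_sub _
  have small : ∀ B, B ⊆ κ → (∀ x y, x ∈ B → y ∈ x → y ∈ B) → (∃ c, c ∈ κ ∧ B ⊆ c) → B ∈ κ :=
    fun B h1 h2 ⟨c, h3, h4⟩ =>
      (od_of_sub hO h1 h2).mem_of_sub hO h4 h3
  have hYκ : ∀ n, n ∈ om M → app Y n ∈ κ := by
    refine mem_induction _ _ fun n hn ih => ?_
    have h1 : ∀ z, z ∈ app Y n ↔ ∃ m, m ∈ n ∧ z ∈ app s (app Y m) := fun z => by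
      rw [(hY n hn).2]
      exact exists_congr fun m => and_congr_right fun hm => by
        rw [zite_pos (ih m hm (od_om.trans hn hm))]
    have h2 := fun m (hm : m ∈ n) => (hs _ (ih m hm (od_om.trans hn hm))).1
    obtain ⟨c, h3, h4⟩ := hκ.bdd hω (le_of_sub (od_om.sub_of_mem hn))
      (fun m => app s (app Y m)) h2
    refine small _ (hY n hn).1 (fun x y hx hy => ?_) ⟨c, h3, fun z hz => ?_⟩
    · obtain ⟨m, h5, h6⟩ := (h1 x).1 hx
      exact (h1 y).2 ⟨m, h5, (hO.mem (h2 m h5)).trans h6 hy⟩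
    · obtain ⟨m, h5, h6⟩ := (h1 z).1 hz
      exact (hO.mem h3).trans (h4 m h5) h6
  have hstep : ∀ n, n ∈ om M → app s (app Y n) ⊆ app Y (suc n) := fun n hn z hz =>
    ((hY _ (suc_mem_om hn)).2 z).2 ⟨n, self_mem_suc n, by rwa [zite_pos (hYκ n hn)]⟩
  obtain ⟨B, hB⟩ := exists_img (om M) fun n => app Y n
  have hm : ∀ z, z ∈ sU B ↔ ∃ n, n ∈ om M ∧ z ∈ app Y n := fun z => by
    simp only [mem_sU, hB]
    exact ⟨fun ⟨y, ⟨n, h1, h2⟩, h3⟩ => ⟨n, h1, h2 ▸ h3⟩, fun ⟨n, h1, h2⟩ => ⟨_, ⟨n, h1, rfl⟩, h2⟩⟩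
  have hin : ∀ n, n ∈ om M → app Y n ∈ sU B := fun n hn =>
    (hm _).2 ⟨_, suc_mem_om hn, hstep n hn _ (hs _ (hYκ n hn)).2.1⟩
  have hBκ : B ⊆ κ := fun z hz => by obtain ⟨n, hn, rfl⟩ := (hB z).1 hz; exact hYκ n hn
  obtain ⟨c, h3, h4⟩ := hκ.bdd hω (le_of_sub (sub_refl _)) (fun n => app Y n) hYκ
  refine ⟨sU B, (od_sU hO hBκ).mem_of_sub hO (fun z hz => ?_) h3,
    (hm _).2 ⟨_, suc_mem_om empty_mem_om, hstep _ empty_mem_om _ (hs _ (hYκ _ empty_mem_om)).2.2.1⟩,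
    fun a ha => ?_, B, fun z hz => ?_, ctbl_om.img (fun n => app Y n) fun z hz => (hB z).1 hz,
    fun x hx => mem_sU.1 hx⟩
  · obtain ⟨n, hn, h5⟩ := (hm z).1 hz
    exact (hO.mem h3).trans (h4 n hn) h5
  · obtain ⟨n, hn, h5⟩ := (hm a).1 ha
    exact (hm _).2 ⟨_, suc_mem_om hn, hstep n hn _ ((hs _ (hYκ n hn)).2.2.2 a h5)⟩
  · obtain ⟨n, hn, rfl⟩ := (hB z).1 hz
    exact hin n hn

/-- Stationarity through closure points of functions. -/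
def GStat (θ S : M) : Prop :=
  S ⊆ θ ∧ ∀ f : M, (∀ a, a ∈ θ → app f a ∈ θ) → ∃ δ, δ ∈ S ∧ (∃ a, a ∈ δ) ∧ Cl f δ

instance DP.gstat {α : Type v} [Ctx M α] (s t : α → M) [DF M s] [DF M t] :
    DP M (no_index fun x => GStat (s x) (t x)) :=
  have : DP M fun z : M × M => GStat z.1 z.2 := by unfold GStat; infer_instance
  DP.comp (fun z : M × M => GStat z.1 z.2) fun x => (s x, t x)

theorem fstat_iff {S : M} : FStat S ↔ GStat (om1 M) S := Iff.rfl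

theorem GStat.mono {θ S S' : M} (h : GStat θ S) (h1 : S ⊆ S') (h2 : S' ⊆ θ) : GStat θ S' :=
  ⟨h2, fun f hf => let ⟨δ, h3, h4⟩ := h.2 f hf; ⟨δ, h1 δ h3, h4⟩⟩

theorem GStat.inter {θ S f : M} (hθ : Od θ) (h : GStat θ S) (hf : ∀ a, a ∈ θ → app f a ∈ θ) :
    GStat θ (sep S fun δ => (∃ a, a ∈ δ) ∧ Cl f δ) := by
  refine ⟨fun z hz => h.1 z (mem_sep.1 hz).1, fun g hg => ?_⟩
  obtain ⟨k, -, hk⟩ := exists_lam θ fun a => app f a ∪ app g a
  obtain ⟨δ, h1, h2, h3⟩ := h.2 k fun a ha => by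
    rw [hk a ha]; exact hθ.union_mem (hf a ha) (hg a ha)
  have h4 := h.1 δ h1
  have key : ∀ a, a ∈ δ → app f a ∪ app g a ∈ δ := fun a ha => by
    rw [← hk a (hθ.trans h4 ha)]; exact h3 a ha
  refine ⟨δ, mem_sep.2 ⟨h1, h2, fun a ha => ?_⟩, h2, fun a ha => ?_⟩
  · exact (hθ.mem (hf a (hθ.trans h4 ha))).mem_of_sub (hθ.mem h4)
      (fun z hz => by simp [hz]) (key a ha)
  · exact (hθ.mem (hg a (hθ.trans h4 ha))).mem_of_sub (hθ.mem h4)
      (fun z hz => by simp [hz]) (key a ha)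

theorem GStat.above {θ S b : M} (hθ : Od θ) (h : GStat θ S) (hb : b ∈ θ) :
    GStat θ (sep S fun δ => b ∈ δ) := by
  obtain ⟨k, -, hk⟩ := exists_lam θ fun _ => b
  refine (h.inter hθ (f := k) fun a ha => by rwa [hk a ha]).mono (fun δ hδ => ?_)
    fun δ hδ => h.1 δ (mem_sep.1 hδ).1
  obtain ⟨h1, ⟨a, h2⟩, h3⟩ := mem_sep.1 hδ
  exact mem_sep.2 ⟨h1, by simpa [hk a (hθ.trans (h.1 δ h1) h2)] using h3 a h2⟩

theorem GStat.nonempty {θ S : M} (h : GStat θ S) : ∃ δ, δ ∈ S := by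
  obtain ⟨k, -, hk⟩ := exists_lam θ fun a => a
  obtain ⟨δ, h1, -⟩ := h.2 k fun a ha => by rwa [hk a ha]
  exact ⟨δ, h1⟩

theorem fodor {θ S : M} (hθ : Reg θ) (hω : om M ∈ θ) (h : GStat θ S) (R : M → M → Prop)
    [DP M fun z : M × M => R z.1 z.2] (hR : ∀ δ, δ ∈ S → ∃ a, a ∈ δ ∧ R δ a) :
    ∃ a, a ∈ θ ∧ ∃ S', GStat θ S' ∧ ∀ δ, δ ∈ S' → δ ∈ S ∧ R δ a := by
  have inst : ∀ {α : Type v} [Ctx M α] (s t : α → M) [DF M s] [DF M t],
      DP M fun x => R (s x) (t x) :=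
    fun s t _ _ => DP.comp (fun z : M × M => R z.1 z.2) fun x => (s x, t x)
  have hO := hθ.1
  by_contra hc
  obtain ⟨e, he⟩ := choice θ (pw (prd θ θ)) (fun a k => (∀ b, b ∈ θ → app k b ∈ θ) ∧
      ∀ δ, δ ∈ S → R δ a → (∃ b, b ∈ δ) → ¬ Cl k δ) fun a ha => by
    by_contra h1
    refine hc ⟨a, ha, sep S fun δ => R δ a, ⟨fun δ hδ => h.1 δ (mem_sep.1 hδ).1, fun k hk => ?_⟩,
      fun δ hδ => mem_sep.1 hδ⟩
    by_contra h2
    obtain ⟨k', h3, h4⟩ := exists_fn θ θ (fun b => app k b) hk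
    refine h1 ⟨k', mem_pw.2 h3, fun b hb => by rw [h4 b hb]; exact hk b hb,
      fun δ h5 h6 h7 h8 => h2 ⟨δ, mem_sep.2 ⟨h5, h6⟩, h7, fun b hb => ?_⟩⟩
    rw [← h4 b (hO.trans (h.1 δ h5) hb)]
    exact h8 b hb
  obtain ⟨k, hk⟩ := choice θ θ
    (fun c d => ∀ a b, a ∈ suc c → b ∈ suc c → app (app e a) b ∈ d) fun c hc => by
      have h1 := hθ.suc_mem hω hc
      obtain ⟨r, hr⟩ := choice (suc c) θ (fun a d => ∀ b, b ∈ suc c → app (app e a) b ∈ d)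
        fun a ha => hθ.2 _ h1 _ fun b hb => (he a (hO.trans h1 ha)).2.1 b (hO.trans h1 hb)
      obtain ⟨d, h2, h3⟩ := hθ.2 _ h1 r fun a ha => (hr a ha).1
      exact ⟨d, h2, fun a b ha hb => (hO.mem h2).trans (h3 a ha) ((hr a ha).2 b hb)⟩
  obtain ⟨δ, h1, h2, h3⟩ := h.2 k fun a ha => (hk a ha).1
  obtain ⟨a, h4, h5⟩ := hR δ h1
  have h6 := h.1 δ h1
  have h7 := hO.mem h6
  refine (he a (hO.trans h6 h4)).2.2 δ h1 h5 h2 fun b hb => ?_
  have h8 := h7.union_mem h4 hb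
  have h9 := (h7.mem h8).suc
  exact h7.trans (h3 _ h8) ((hk _ (hO.trans h6 h8)).2 a b
    ((h7.mem h4).mem_of_sub h9 (fun z hz => by simp [hz]) (self_mem_suc _))
    ((h7.mem hb).mem_of_sub h9 (fun z hz => by simp [hz]) (self_mem_suc _)))

theorem GStat.stationary {θ S : M} (hθ : Od θ) (h : GStat θ S) : IsStationary (EE M) θ S := by
  refine ⟨h.1, fun C hC => ?_⟩
  obtain ⟨f, hf⟩ := choice θ C (fun a c => a ∈ c) hC.2.1
  obtain ⟨δ, h1, h2, h3⟩ := h.2 f fun a ha => hC.1 _ (hf a ha).1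
  have h4 := h.1 δ h1
  exact ⟨δ, h1, hC.2.2 δ h4 h2 fun a ha =>
    ⟨_, (hf a (hθ.trans h4 ha)).1, (hf a (hθ.trans h4 ha)).2, h3 a ha⟩⟩

theorem gstat_of_stationary {θ S : M} (hθ : Reg θ) (hω : om M ∈ θ)
    (h : IsStationary (EE M) θ S) : GStat θ S := by
  refine ⟨h.1, fun k hk => ?_⟩
  obtain ⟨C, hC⟩ := exists_sep θ fun δ => (∃ a, a ∈ δ) ∧ Cl k δ
  obtain ⟨s, h1, h2⟩ := h.2 C ⟨fun z hz => ((hC z).1 hz).1, fun a ha => by
      obtain ⟨γ, h1, h2, h3, -⟩ := exists_closed hθ hω hk ha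
      exact ⟨γ, (hC γ).2 ⟨h1, ⟨a, h2⟩, h3⟩, h2⟩,
    fun d hd h1 h2 => (hC d).2 ⟨hd, h1, fun a ha => by
      obtain ⟨c, h3, h4, h5⟩ := h2 a ha
      exact (hθ.1.mem hd).trans h5 (((hC c).1 h3).2.2 a h4)⟩⟩
  exact ⟨s, h1, ((hC s).1 h2).2⟩

end Pool.Agent.Lib.MP_783f50_lc
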