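import Pool.Agent.Lib.MP_783f50_lc.FR.Core

/-! Closed sets: a rank of the induced graph is a rank inside the whole graph. -/

namespace Pool.Agent.Lib.MP_783f50_lc

open Pool.Agent.Lib.MP_2739cb_lc

set_option synthInstance.maxSize 100000

universe v

variable {M : Type v} [ZM M] {V A : M}

theorem clo_hull {X a b : M} (h : Conn A X a b) : ∃ K, K ⊆ X ∧ ¬ Inf K ∧ Conn A K a b := by
  refine h.ind (fun b => ∃ K, K ⊆ X ∧ ¬ Inf K ∧ Conn A K a b)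
    ⟨{a}, fun z hz => mem_single.1 hz ▸ h.1, not_inf_single a, Conn.refl (by simp)⟩ ?_
  rintro u v - hv e ⟨K, h1, h2, h3⟩
  refine ⟨K ∪ {v}, fun z hz => ?_, not_inf_union h2 (not_inf_single v),
    (h3.mono fun z hz => by simp [hz]).step (by simp) e⟩
  rcases mem_union.1 hz with h | h
  · exact h1 z h
  · exact mem_single.1 h ▸ hv

theorem exists_cl (hG : Gr V A) {u v : M} (hu : u ∈ V) (hv : v ∈ V) :
    ∃ K, K ⊆ V ∧ Ctbl K ∧ ∀ X, K ⊆ X → u ∈ X → v ∈ X → Conn A ((V \ X) ∪ upair u v) u v →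
      ∀ F, ¬ Inf F → u ∉ F → v ∉ F → Conn A (X \ F) u v := by
  by_cases hc : ∃ F, ¬ Inf F ∧ u ∉ F ∧ v ∉ F ∧ ¬ Conn A (V \ F) u v
  · obtain ⟨F0, h1, h2, h3, h4⟩ := hc
    refine ⟨F0 ∩ V, fun z hz => (mem_inter.1 hz).2,
      (ctbl_of_not_inf h1).mono fun z hz => (mem_inter.1 hz).1, fun X hX _ _ h5 => ?_⟩
    refine absurd (h5.mono fun z hz => ?_) h4
    rcases mem_union.1 hz with h | h
    · exact mem_diff.2 ⟨(mem_diff.1 h).1, fun h6 =>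
        (mem_diff.1 h).2 (hX z (mem_inter.2 ⟨h6, (mem_diff.1 h).1⟩))⟩
    · rcases mem_upair.1 h with rfl | rfl
      · exact mem_diff.2 ⟨hu, h2⟩
      · exact mem_diff.2 ⟨hv, h3⟩
  have hc' : ∀ F, ¬ Inf F → u ∉ F → v ∉ F → Conn A (V \ F) u v := fun F h1 h2 h3 => by
    by_contra h4
    exact hc ⟨F, h1, h2, h3, h4⟩
  obtain ⟨c, hcc⟩ := choice (pw V) (pw V) (fun y P => ¬ Inf P ∧ (¬ Inf y →
      Conn A P u v ∧ ∀ z, z ∈ P → z ∈ y → z = u ∨ z = v)) fun y _ => by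
    by_cases h1 : Inf y
    · exact ⟨∅, mem_pw.2 (empty_sub V), not_inf_empty, fun h => absurd h1 h⟩
    · obtain ⟨P, h2, h3, h4⟩ := clo_hull (hc' (y \ upair u v)
        (fun h => h1 (h.mono fun z hz => (mem_diff.1 hz).1)) (by simp) (by simp))
      refine ⟨P, mem_pw.2 fun z hz => (mem_diff.1 (h2 z hz)).1, h3, fun _ => ⟨h4, fun z hz hy => ?_⟩⟩
      by_contra h5
      exact (mem_diff.1 (h2 z hz)).2 (mem_diff.2 ⟨hy, fun h6 => h5 (mem_upair.1 h6)⟩)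
  obtain ⟨Y, hY⟩ := exists_rec (od_om (M := M)) V (fun _ y => app c y)
    fun _ y _ hy => mem_pw.1 (hcc y (mem_pw.2 hy)).1
  have hfin : ∀ n, n ∈ om M → ¬ Inf (app Y n) := fun n hn =>
    not_inf_cover hn (fun i => app c (app Y i))
      (fun i hi => (hcc _ (mem_pw.2 (hY i (od_om.trans hn hi)).1)).2.1)
      fun z hz => ((hY n hn).2 z).1 hz
  obtain ⟨K, hK⟩ := exists_sep V fun z => ∃ n, n ∈ om M ∧ z ∈ app Y n
  refine ⟨K, fun z hz => ((hK z).1 hz).1, ctbl_om.cover' (fun n => app Y n)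
    (fun n hn => ctbl_of_not_inf (hfin n hn)) fun z hz => ((hK z).1 hz).2,
    fun X hX _ _ _ F h1 h2 h3 => ?_⟩
  obtain ⟨g, hg⟩ := choice (F ∩ K) (om M) (fun z n => z ∈ app Y n)
    fun z hz => ((hK z).1 (mem_inter.1 hz).2).2
  obtain ⟨n, hn, h4⟩ := bdd_of_not_inf (X := F ∩ K)
    (fun h => h1 (h.mono fun z hz => (mem_inter.1 hz).1)) (fun z => app g z) fun z hz => (hg z hz).1
  obtain ⟨h5, -, h6⟩ := hcc _ (mem_pw.2 (hY n hn).1)
  obtain ⟨h7, h8⟩ := h6 (hfin n hn)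
  refine h7.mono fun z hz => ?_
  have h9 : z ∈ K := (hK z).2 ⟨mem_pw.1 h5 z hz, suc n, suc_mem_om hn,
    ((hY _ (suc_mem_om hn)).2 z).2 ⟨n, self_mem_suc n, hz⟩⟩
  refine mem_diff.2 ⟨hX z h9, fun h10 => ?_⟩
  have h11 := mem_inter.2 ⟨h10, h9⟩
  obtain ⟨β, h12, h13⟩ := ((hY _ (hg z h11).1).2 z).1 (hg z h11).2
  rcases h8 z hz (((hY n hn).2 z).2 ⟨β, (od_om.mem hn).trans (h4 z h11) h12, h13⟩) with rfl | rfl
  · exact h2 h10
  · exact h3 h10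

theorem rr_of_closed (hG : Gr V A) {X h : M} (hX : X ⊆ V) (hc : Closed A V X)
    (hr : RR A X X h) : RR A V X h := by
  refine ⟨hr.1, fun u v hu hv h1 e => hr.2 u v hu hv ?_ e⟩
  have hn := hr.1 u hu
  obtain ⟨T, hT⟩ : ∃ T, T = sep X fun x => ¬ (x ∈ X ∧ app h x ∈ app h u) := ⟨_, rfl⟩
  have hT' : ∀ x, x ∈ T ↔ x ∈ X ∧ app h x ∉ app h u := fun x => by
    rw [hT, mem_sep]
    exact ⟨fun h => ⟨h.1, fun h' => h.2 ⟨h.1, h'⟩⟩, fun h => ⟨h.1, fun h' => h.2 h'.2⟩⟩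
  rw [← hT]
  obtain ⟨F, hF⟩ := exists_sep X fun x => app h x ∈ app h u ∧ ∃ p, Conn A T u p ∧ op p x ∈ A
  have hfin : ¬ Inf F := by
    obtain ⟨f, hf⟩ := le_of_inj F (app h u) (fun z => app h z) (fun z hz => ((hF z).1 hz).2.1)
      fun x y hx hy e' => by
        obtain ⟨a1, a2, p, a3, a4⟩ := (hF x).1 hx
        obtain ⟨b1, b2, q, b3, b4⟩ := (hF y).1 hy
        refine hr.2 x y a1 b1 ?_ e'
        have hs : T ⊆ sep X fun z => ¬ (z ∈ X ∧ app h z ∈ app h x) := fun z hz =>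
          mem_sep.2 ⟨((hT' z).1 hz).1, fun h2 =>
            ((hT' z).1 hz).2 ((od_om.mem hn).trans a2 h2.2)⟩
        have h2 := ((a3.symm hG.sym).trans b3).mono hs
        refine (((Conn.refl (mem_sep.2 ⟨a1, fun h3 => mem_irrefl _ h3.2⟩)).step h2.left_mem
          (hG.sym _ _ a4)).trans h2).step (mem_sep.2 ⟨b1, fun h3 => ?_⟩) b4
        have h4 := h3.2
        rw [e'] at h4
        exact mem_irrefl _ h4
    exact not_inf_img (not_inf_nat hn) (fun a => app f a)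
      fun z hz => let ⟨a, h2, h3⟩ := hf z hz; ⟨a, h2, h3.symm⟩
  refine (h1.ind (fun y => (y ∈ X → Conn A T u y) ∧
    (y ∉ X → ∃ p, Conn A T u p ∧ Conn A ((V \ X) ∪ {p}) p y))
    ⟨fun _ => Conn.refl ((hT' u).2 ⟨hu, mem_irrefl _⟩), fun h2 => absurd hu h2⟩ ?_).1 hv
  rintro y y' - hy' e' ⟨ih1, ih2⟩
  obtain ⟨h2, h3⟩ := mem_sep.1 hy'
  by_cases h4 : y ∈ X
  · refine ⟨fun h5 => (ih1 h4).step ((hT' y').2 ⟨h5, fun h6 => h3 ⟨h5, h6⟩⟩) e', fun h5 =>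
      ⟨y, ih1 h4, (Conn.refl (by simp)).step (by simp [h2, h5]) e'⟩⟩
  obtain ⟨p, h5, h6⟩ := ih2 h4
  refine ⟨fun h7 => ?_, fun h7 => ⟨p, h5, h6.step (by simp [h2, h7]) e'⟩⟩
  have h8 := (hT' p).1 h5.right_mem
  have h9 := hc p y' h8.1 h7 ((h6.mono fun z hz => by
      simp only [mem_union, mem_single, mem_upair] at hz ⊢
      exact hz.imp id Or.inl).step (by simp) e') F hfin
    (fun h => h8.2 ((hF p).1 h).2.1) fun h => h3 ⟨h7, ((hF y').1 h).2.1⟩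
  refine h9.ind (fun w => Conn A T u w) h5 fun w w' _ hw e'' ih => ih.step ?_ e''
  exact (hT' w').2 ⟨(mem_diff.1 hw).1, fun h10 =>
    (mem_diff.1 hw).2 ((hF w').2 ⟨(mem_diff.1 hw).1, h10, w, ih, e''⟩)⟩

theorem RR.restrict {Y X W h : M} (hr : RR A Y X h) (hX : X ⊆ Y) (hW : W ⊆ X) : RR A W W h := by
  refine ⟨fun v hv => hr.1 v (hW v hv), fun u v hu hv h1 e =>
    hr.2 u v (hW u hu) (hW v hv) (h1.mono fun z hz => ?_) e⟩
  obtain ⟨h2, h3⟩ := mem_sep.1 hz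
  exact mem_sep.2 ⟨hX z (hW z h2), fun h4 => h3 ⟨h2, h4.2⟩⟩

theorem rr_of_ctbl {X : M} (hX : Ctbl X) : ∃ h, RR A X X h := by
  obtain ⟨e, h1, h2⟩ := hX.exists_inj
  exact ⟨e, h1, fun u v hu hv _ h3 => h2 u v hu hv h3⟩

theorem hasNST_of_rr (hG : Gr V A) {h : M} (hr : RR A V V h) : HasNST (EE M) (om M) V A := by
  refine hasNST_of_rank (h := h) hG ⟨hr.1, fun D u v hD h1 e h2 => ?_⟩
  exact hr.2 u v (hD u h1.left_mem) (hD v h1.right_mem)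
    (h1.restrict fun x hx => mem_sep.2 ⟨hD x hx.right_mem, fun h3 => h2 x hx h3.2⟩) e

theorem good_of_local {X : M} (hX : X ⊆ V)
    (h : ∀ B, B ⊆ X → Ctbl B → ∃ X', B ⊆ X' ∧ X' ⊆ X ∧ Good A V X') : Good A V X := by
  refine ⟨hX, fun u v hu hv h1 F h2 h3 h4 => ?_, fun hb => ?_⟩
  · obtain ⟨X', h5, h6, -, h7, -⟩ := h (upair u v)
      (fun z hz => by rcases mem_upair.1 hz with rfl | rfl <;> assumption) (ctbl_upair u v)
    refine (h7 u v (h5 u (by simp)) (h5 v (by simp)) (h1.mono fun z hz => ?_) F h2 h3 h4).mono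
      fun z hz => mem_diff.2 ⟨h6 z (mem_diff.1 hz).1, (mem_diff.1 hz).2⟩
    exact mem_union.2 ((mem_union.1 hz).imp (diff_anti h6 z) id)
  · obtain ⟨-, a, h1, h2⟩ := mem_bad.1 hb
    obtain ⟨B, h3, h4, h5⟩ := h2.exists_ctbl
    obtain ⟨X', h6, h7, h8, -, h9⟩ := h B (fun z hz => (mem_bd.1 (h3 z hz)).1) h4
    exact h9 (mem_bad.2 ⟨h8, a, diff_anti h7 a h1,
      h5.mono fun z hz => bd_mono h7 (h3 z hz) (h6 z hz)⟩)

theorem good_empty : Good A V ∅ := by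
  refine ⟨empty_sub V, fun u _ hu => absurd hu (not_mem_empty u), fun hb => ?_⟩
  obtain ⟨-, a, -, h⟩ := mem_bad.1 hb
  exact not_inf_empty (h.mono fun z hz => (mem_bd.1 hz).1)

theorem exists_wit (hG : Gr V A) {y : M} (hy : y ∈ bad A V) : ∃ C, Wit A V y C := by
  obtain ⟨-, b, h1, h2⟩ := mem_bad.1 hy
  obtain ⟨B0, h3, h4, h5⟩ := h2.exists_ctbl
  obtain ⟨k, hk⟩ := choice B0 V (fun u v => Conn A (V \ y) b v ∧ op u v ∈ A)
    fun u hu => let ⟨_, v, h8, h9⟩ := mem_bd.1 (h3 u hu); ⟨v, (hG.mem _ _ h9).2, h8, h9⟩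
  obtain ⟨B, hB⟩ := exists_img B0 fun u => app k u
  obtain ⟨C, h8, h9, h10, h11, h12⟩ := hull (A := A) (B := B) h1
    (h4.img (fun u => app k u) fun z hz => (hB z).1 hz)
    fun v hv => by obtain ⟨u, hu, rfl⟩ := (hB v).1 hv; exact (hk u hu).2.1
  exact ⟨C, fun t ht => (mem_diff.1 (h8 t ht)).1, h9, fun u hu => (mem_diff.1 (h8 u hu)).2,
    ⟨b, h10, h12⟩, h5.mono fun u hu => mem_nb.2 ⟨(mem_bd.1 (h3 u hu)).1, _,
      h11 _ ((hB _).2 ⟨u, hu, rfl⟩), (hk u hu).2.2⟩⟩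

end Pool.Agent.Lib.MP_783f50_lc
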