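import Pool.Agent.Lib.MP_783f50_lc.FR.Core

/-! Gluing ranks along a family of sets of finite adhesion. -/

namespace Pool.Agent.Lib.MP_783f50_lc

open Pool.Agent.Lib.MP_2739cb_lc

set_option synthInstance.maxSize 100000

universe v

variable {M : Type v} [ZM M] {V A : M}

/-- Partial ranks whose domain belongs to the family. -/
def glue_Inv (V A K h : M) : Prop :=
  (∀ x n n' : M, op x n ∈ h → op x n' ∈ h → n' = n) ∧ dm V h ∈ K ∧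
  ∀ u v n : M, op u n ∈ h → op v n ∈ h →
    Conn A (sep V fun x => ¬ ∃ m, m ∈ n ∧ op x m ∈ h) u v → u = v

instance glue_dp {K : M} : DP M fun h => glue_Inv V A K h := by unfold glue_Inv; infer_instance

theorem glue_union {K : M}
    (h2 : ∀ C, C ⊆ K → (∀ a b, a ∈ C → b ∈ C → a ⊆ b ∨ b ⊆ a) → sU C ∈ K) (C : M)
    (hC : ∀ a, a ∈ C → a ⊆ prd V (om M) ∧ glue_Inv V A K a)
    (hc : ∀ a b, a ∈ C → b ∈ C → a ⊆ b ∨ b ⊆ a) : glue_Inv V A K (sU C) := by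
  have hsub : ∀ h, h ∈ C → h ⊆ sU C := fun h hh z hz => mem_sU.2 ⟨h, hh, hz⟩
  have two : ∀ p q, p ∈ sU C → q ∈ sU C → ∃ h, h ∈ C ∧ p ∈ h ∧ q ∈ h := by
    intro p q hp hq
    obtain ⟨y, hy, h1⟩ := mem_sU.1 hp
    obtain ⟨y', hy', h2⟩ := mem_sU.1 hq
    rcases hc y y' hy hy' with h | h
    · exact ⟨y', hy', h _ h1, h2⟩
    · exact ⟨y, hy, h1, h _ h2⟩
  refine ⟨fun x n n' h1 h2 => ?_, ?_, fun u v n h1 h2 h3 => ?_⟩
  · obtain ⟨h, hh, h3, h4⟩ := two _ _ h1 h2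
    exact (hC h hh).2.1 _ _ _ h3 h4
  · obtain ⟨F, hF⟩ := exists_img C fun h => dm V h
    have e : dm V (sU C) = sU F := zext fun z => by
      constructor
      · intro hz
        obtain ⟨h3, n, h4⟩ := mem_dm.1 hz
        obtain ⟨h, hh, h5⟩ := mem_sU.1 h4
        exact mem_sU.2 ⟨_, (hF _).2 ⟨h, hh, rfl⟩, mem_dm.2 ⟨h3, n, h5⟩⟩
      · intro hz
        obtain ⟨y, hy, h3⟩ := mem_sU.1 hz
        obtain ⟨h, hh, rfl⟩ := (hF y).1 hy
        exact dm_mono (hsub h hh) z h3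
    rw [e]
    refine h2 F (fun y hy => ?_) fun a b ha hb => ?_
    · obtain ⟨h, hh, rfl⟩ := (hF y).1 hy
      exact (hC h hh).2.2.1
    · obtain ⟨h, hh, rfl⟩ := (hF a).1 ha
      obtain ⟨h', hh', rfl⟩ := (hF b).1 hb
      exact (hc h h' hh hh').imp dm_mono dm_mono
  · obtain ⟨h, hh, h4, h5⟩ := two _ _ h1 h2
    exact (hC h hh).2.2.2 u v n h4 h5 (h3.mono fun z hz => mem_sep.2 ⟨(mem_sep.1 hz).1,
      fun ⟨m, h6, h7⟩ => (mem_sep.1 hz).2 ⟨m, h6, hsub h hh _ h7⟩⟩)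

theorem glue_bd (hG : Gr V A) {X a b : M} (h : Conn A (V \ X) a b) : bd A V X a = bd A V X b :=
  zext fun _ => ⟨fun hz => let ⟨h1, v, h2, e⟩ := mem_bd.1 hz
      mem_bd.2 ⟨h1, v, (h.symm hG.sym).trans h2, e⟩,
    fun hz => let ⟨h1, v, h2, e⟩ := mem_bd.1 hz; mem_bd.2 ⟨h1, v, h.trans h2, e⟩⟩

theorem glue_enum : ∃ P : M, ∀ n, n ∈ om M → (∀ ξ, ξ ∈ om M → app (app P n) ξ ∈ om M \ n) ∧
    ∀ ξ ξ', ξ ∈ om M → ξ' ∈ om M → ξ ∈ ξ' → app (app P n) ξ ∈ app (app P n) ξ' := by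
  obtain ⟨P, hP⟩ := choice (om M) (pw (prd (om M) (om M))) (fun n π =>
    (∀ ξ, ξ ∈ om M → app π ξ ∈ om M \ n) ∧
      ∀ ξ ξ', ξ ∈ om M → ξ' ∈ om M → ξ ∈ ξ' → app π ξ ∈ app π ξ') fun n hn => by
    obtain ⟨π, hπ1, hπ2, -⟩ := enum (L := om M \ n) reg_om (fun z hz => (mem_diff.1 hz).1)
      fun m hm => ⟨suc m ∪ n, mem_diff.2 ⟨od_om.union_mem (suc_mem_om hm) hn, fun h =>
        mem_irrefl _ (mem_union.2 (Or.inr h))⟩, by simp⟩
    obtain ⟨f, h1, h2⟩ := exists_fn (om M) (om M) (fun a => app π a)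
      fun a ha => (mem_diff.1 (hπ1 a ha)).1
    exact ⟨f, mem_pw.2 h1, fun ξ hξ => by rw [h2 ξ hξ]; exact hπ1 ξ hξ,
      fun ξ ξ' hξ hξ' h => by rw [h2 ξ hξ, h2 ξ' hξ']; exact hπ2 ξ ξ' hξ' h⟩
  exact ⟨P, fun n hn => (hP n hn).2⟩

theorem glue_step (hG : Gr V A) {K h X' g : M} (hh : h ⊆ prd V (om M)) (hI : glue_Inv V A K h)
    (hb : dm V h ∉ bad A V) (hK : X' ∈ K) (hV : X' ⊆ V) (hX : dm V h ⊆ X') (hg : RR A V X' g) :
    ∃ h', h' ⊆ prd V (om M) ∧ glue_Inv V A K h' ∧ h ⊆ h' ∧ X' ⊆ dm V h' := by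
  obtain ⟨h1, -, h3⟩ := hI
  have happ : ∀ x n, op x n ∈ h → app h x = n := fun x n e => app_eq e fun n' e' => h1 _ _ _ e e'
  have hom : ∀ x, x ∈ dm V h → app h x ∈ om M := fun x hx => by
    obtain ⟨-, n, e⟩ := mem_dm.1 hx
    rw [happ x n e]; exact (op_mem_prd.1 (hh _ e)).2
  obtain ⟨N, -, hN⟩ := exists_lam V fun v =>
    sep (om M) fun m => ∃ x, x ∈ bd A V (dm V h) v ∧ m ∈ suc (app h x)
  have hN1 : ∀ v, v ∈ V → ∀ m, m ∈ app N v ↔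
      m ∈ om M ∧ ∃ x, x ∈ bd A V (dm V h) v ∧ m ∈ suc (app h x) := fun v hv m => by
    rw [hN v hv]; exact mem_sep
  have hN2 : ∀ v, v ∈ V \ dm V h → app N v ∈ om M := fun v hv => by
    have hv' := (mem_diff.1 hv).1
    obtain ⟨n, hn, h7⟩ := bdd_of_not_inf (X := bd A V (dm V h) v)
      (fun hi => hb (mem_bad.2 ⟨fun z hz => (mem_dm.1 hz).1, v, hv, hi⟩)) (fun x => app h x)
      fun x hx => hom x (mem_bd.1 hx).1
    refine (od_of_sub od_om (fun z hz => ((hN1 v hv' z).1 hz).1) fun a b ha hab => ?_).mem_of_sub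
      od_om (fun z hz => ?_) hn
    · obtain ⟨h8, x, hx, h9⟩ := (hN1 v hv' a).1 ha
      exact (hN1 v hv' b).2 ⟨od_om.trans h8 hab, x, hx,
        (od_om.mem (hom x (mem_bd.1 hx).1)).suc.trans h9 hab⟩
    · obtain ⟨-, x, hx, h9⟩ := (hN1 v hv' z).1 hz
      rcases mem_suc.1 h9 with h10 | rfl
      · exact (od_om.mem hn).trans (h7 x hx) h10
      · exact h7 x hx
  have hN3 : ∀ u v, Conn A (V \ dm V h) u v → app N u = app N v := fun u v hc => zext fun m => by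
    rw [hN1 u (mem_diff.1 hc.left_mem).1, hN1 v (mem_diff.1 hc.right_mem).1, glue_bd hG hc]
  obtain ⟨P, hP⟩ := glue_enum (M := M)
  obtain ⟨k, hk1, hk⟩ := exists_rel V (om M) fun x n =>
    x ∈ X' ∧ x ∉ dm V h ∧ n = app (app P (app N x)) (app g x)
  have hkm : ∀ x, x ∈ X' → x ∉ dm V h → app (app P (app N x)) (app g x) ∈ om M \ app N x :=
    fun x hx hx' => (hP _ (hN2 x (mem_diff.2 ⟨hV x hx, hx'⟩))).1 _ (hg.1 x hx)
  have hki : ∀ x, x ∈ X' → x ∉ dm V h → op x (app (app P (app N x)) (app g x)) ∈ k :=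
    fun x hx hx' => (hk _ _).2 ⟨hV x hx, (mem_diff.1 (hkm x hx hx')).1, hx, hx', rfl⟩
  have hs : h ⊆ h ∪ k := fun z hz => by simp [hz]
  have hs' : k ⊆ h ∪ k := fun z hz => by simp [hz]
  have hd : dm V (h ∪ k) = X' := zext fun x => by
    constructor
    · intro hx
      obtain ⟨h10, n, h11⟩ := mem_dm.1 hx
      rcases mem_union.1 h11 with h12 | h12
      · exact hX x (mem_dm.2 ⟨h10, n, h12⟩)
      · exact ((hk _ _).1 h12).2.2.1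
    · intro hx
      by_cases hc : x ∈ dm V h
      · exact dm_mono hs x hc
      · exact mem_dm.2 ⟨hV x hx, _, hs' _ (hki x hx hc)⟩
  have hnew : ∀ u v n, op u n ∈ k →
      Conn A (sep V fun x => ¬ ∃ m, m ∈ n ∧ op x m ∈ h ∪ k) u v → Conn A (V \ dm V h) u v := by
    intro u v n hu hc
    obtain ⟨h9, -, h10, h11, rfl⟩ := (hk _ _).1 hu
    have hu' : u ∈ V \ dm V h := mem_diff.2 ⟨h9, h11⟩
    refine hc.ind (fun x => Conn A (V \ dm V h) u x) (Conn.refl hu')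
      fun x y _ hy e' ih => ih.step ?_ e'
    refine mem_diff.2 ⟨(mem_sep.1 hy).1, fun h12 => (mem_sep.1 hy).2 ?_⟩
    obtain ⟨-, m, h13⟩ := mem_dm.1 h12
    have h14 := (hN1 u h9 _).2 ⟨hom y h12, y, mem_bd.2 ⟨h12, x, ih, hG.sym _ _ e'⟩,
      self_mem_suc _⟩
    rw [happ y m h13] at h14
    have h15 := mem_diff.1 (hkm u h10 h11)
    refine ⟨m, ?_, hs _ h13⟩
    rcases od_om.tri h15.1 (hN2 u hu') with h16 | h16 | h16
    · exact absurd h16 h15.2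
    · rw [h16]; exact h14
    · exact (od_om.mem h15.1).trans h16 h14
  refine ⟨h ∪ k, fun z hz => (mem_union.1 hz).elim (hh z) (hk1 z), ⟨?_, hd ▸ hK, ?_⟩, hs,
    hd ▸ sub_refl _⟩
  · intro x n n' e1 e2
    have : ∀ n n', op x n ∈ h → op x n' ∈ k → False := fun n n' e1 e2 =>
      ((hk _ _).1 e2).2.2.2.1 (mem_dm.2 ⟨((hk _ _).1 e2).1, n, e1⟩)
    rcases mem_union.1 e1 with e1 | e1 <;> rcases mem_union.1 e2 with e2 | e2
    · exact h1 _ _ _ e1 e2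
    · exact (this _ _ e1 e2).elim
    · exact (this _ _ e2 e1).elim
    · exact ((hk _ _).1 e2).2.2.2.2.trans ((hk _ _).1 e1).2.2.2.2.symm
  · intro u v n e1 e2 hc
    rcases mem_union.1 e1 with e1 | e1 <;> rcases mem_union.1 e2 with e2 | e2
    · exact h3 u v n e1 e2 (hc.mono fun z hz => mem_sep.2 ⟨(mem_sep.1 hz).1,
        fun ⟨m, h6, h7⟩ => (mem_sep.1 hz).2 ⟨m, h6, hs _ h7⟩⟩)
    · exact absurd (mem_dm.2 ⟨(op_mem_prd.1 (hh _ e1)).1, _, e1⟩)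
        (mem_diff.1 (hnew _ _ _ e2 (hc.symm hG.sym)).right_mem).2
    · exact absurd (mem_dm.2 ⟨(op_mem_prd.1 (hh _ e2)).1, _, e2⟩)
        (mem_diff.1 (hnew _ _ _ e1 hc).right_mem).2
    · obtain ⟨h8, -, h10, h10', h11⟩ := (hk _ _).1 e1
      obtain ⟨-, -, h12, -, h13⟩ := (hk _ _).1 e2
      have hm := (hP _ (hN2 u (mem_diff.2 ⟨h8, h10'⟩))).2
      rw [← hN3 u v (hnew _ _ _ e1 hc)] at h13
      refine hg.2 u v h10 h12 (hc.restrict fun x hx => mem_sep.2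
        ⟨(mem_sep.1 hx.right_mem).1, fun ⟨h14, h15⟩ => (mem_sep.1 hx.right_mem).2 ?_⟩) ?_
      · have h16 := hnew _ _ _ e1 hx
        refine ⟨_, ?_, hs' _ (hki x h14 (mem_diff.1 h16.right_mem).2)⟩
        rw [← hN3 u x h16, h11]
        exact hm _ _ (hg.1 x h14) (hg.1 u h10) h15
      · rcases od_om.tri (hg.1 u h10) (hg.1 v h12) with h14 | h14 | h14
        · have := hm _ _ (hg.1 u h10) (hg.1 v h12) h14
          rw [← h11, ← h13] at this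
          exact absurd this (mem_irrefl _)
        · exact h14
        · have := hm _ _ (hg.1 v h12) (hg.1 u h10) h14
          rw [← h11, ← h13] at this
          exact absurd this (mem_irrefl _)

theorem glue (hG : Gr V A) {K W : M} (h1 : ∀ X, X ∈ K → X ⊆ V)
    (h2 : ∀ C, C ⊆ K → (∀ a b, a ∈ C → b ∈ C → a ⊆ b ∨ b ⊆ a) → sU C ∈ K)
    (h3 : ∀ X, X ∈ K → ¬ W ⊆ X → X ∉ bad A V ∧
      ∃ X', X' ∈ K ∧ X ⊆ X' ∧ ¬ X' ⊆ X ∧ ∃ h, RR A V X' h) :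
    ∃ X h, X ∈ K ∧ W ⊆ X ∧ RR A V X h := by
  obtain ⟨h, h4, h5, h6⟩ := zorn' (prd V (om M)) (fun h => glue_Inv V A K h) (glue_union h2)
  have h7 : ∀ v, v ∈ dm V h → op v (app h v) ∈ h := fun v hv => by
    obtain ⟨-, n, e⟩ := mem_dm.1 hv
    rwa [app_eq e fun n' e' => h5.1 _ _ _ e e']
  refine ⟨dm V h, h, h5.2.1, by_contra fun hc => ?_,
    fun v hv => (op_mem_prd.1 (h4 _ (h7 v hv))).2, fun u v hu hv hc e => ?_⟩
  · obtain ⟨hb, X', hK, hX, hn, g, hg⟩ := h3 _ h5.2.1 hc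
    obtain ⟨h', a1, a2, a3, a4⟩ := glue_step hG h4 h5 hb hK (h1 _ hK) hX hg
    exact hn (sub_trans a4 (dm_mono (h6 h' a1 a2 a3)))
  · refine h5.2.2 u v (app h u) (h7 u hu) (e ▸ h7 v hv) (hc.mono fun x hx =>
      mem_sep.2 ⟨(mem_sep.1 hx).1, fun ⟨m, h8, h9⟩ => (mem_sep.1 hx).2 ?_⟩)
    have h10 : x ∈ dm V h := mem_dm.2 ⟨(mem_sep.1 hx).1, m, h9⟩
    exact ⟨h10, h5.1 _ _ _ h9 (h7 x h10) ▸ h8⟩

end Pool.Agent.Lib.MP_783f50_lc
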