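import Pool.Agent.Lib.MP_783f50_lc.FR.Reg
import Pool.Agent.Lib.MP_783f50_lc.FR.Clo
import Pool.Agent.Lib.MP_783f50_lc.FR.Glue

/-! Chains of closed sets of finite adhesion. -/

namespace Pool.Agent.Lib.MP_783f50_lc

open Pool.Agent.Lib.MP_2739cb_lc

set_option synthInstance.maxSize 100000

universe v

variable {M : Type v} [ZM M] {V A : M}

theorem le_single {θ : M} (hω : om M ⊆ θ) (a : M) : Le ({a} : M) θ :=
  Le.mono' (ctbl_single a) hω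

def ClP (A V u v X : M) : Prop :=
  Conn A ((V \ X) ∪ upair u v) u v → ∀ F, ¬ Inf F → u ∉ F → v ∉ F → Conn A (X \ F) u v

instance DP.clP {α : Type v} [Ctx M α] (A V : M) (r s t : α → M) [DF M r] [DF M s] [DF M t] :
    DP M (no_index fun x => ClP A V (r x) (s x) (t x)) :=
  have : DP M fun z : (M × M) × M => ClP A V z.1.1 z.1.2 z.2 := by unfold ClP; infer_instance
  DP.comp (fun z : (M × M) × M => ClP A V z.1.1 z.1.2 z.2) fun x => ((r x, s x), t x)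

/-- One step of closure: a superset of the same size that holds a witness and the pair hulls. -/
theorem exists_step (hG : Gr V A) : ∃ s : M, ∀ y, y ⊆ V → app s y ⊆ V ∧ y ⊆ app s y ∧
    (∀ θ, Od θ → om M ⊆ θ → Le y θ → Le (app s y) θ) ∧
    (y ∈ bad A V → ∃ C, Wit A (app s y) y C) ∧
    ∀ u v X, u ∈ y → v ∈ y → app s y ⊆ X → ClP A V u v X := by
  obtain ⟨c, hc⟩ := choice (prd V V) (pw V) (fun p K => Ctbl K ∧ ∀ X, K ⊆ X → p1 p ∈ X →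
      p2 p ∈ X → ClP A V (p1 p) (p2 p) X) fun p hp => by
    obtain ⟨u, v, hu, hv, rfl⟩ := mem_prd.1 hp
    obtain ⟨K, h1, h2⟩ := exists_cl hG hu hv
    exact ⟨K, mem_pw.2 h1, by simpa only [p1_op, p2_op, ClP] using h2⟩
  obtain ⟨w, hw⟩ := choice (bad A V) (pw V) (fun y C => Wit A V y C) fun y hy =>
    let ⟨C, h⟩ := exists_wit hG hy; ⟨C, mem_pw.2 h.1, h⟩
  obtain ⟨s, -, hs⟩ := exists_lam (pw V) fun y => sep V fun z =>
    z ∈ y ∨ (y ∈ bad A V ∧ z ∈ app w y) ∨ ∃ p, p ∈ prd y y ∧ z ∈ app c p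
  refine ⟨s, fun y hy => ?_⟩
  have h1 : ∀ z, z ∈ app s y ↔ z ∈ V ∧
      (z ∈ y ∨ (y ∈ bad A V ∧ z ∈ app w y) ∨ ∃ p, p ∈ prd y y ∧ z ∈ app c p) := fun z => by
    rw [hs y (mem_pw.2 hy), mem_sep]
  have h2 : prd y y ⊆ prd V V := fun p hp => by
    obtain ⟨u, v, hu, hv, rfl⟩ := mem_prd.1 hp
    exact op_mem_prd.2 ⟨hy u hu, hy v hv⟩
  have h3 : y ⊆ app s y := fun z hz => (h1 z).2 ⟨hy z hz, Or.inl hz⟩
  refine ⟨fun z hz => ((h1 z).1 hz).1, h3, fun θ h4 h5 h6 => ?_, fun hb => ?_,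
    fun u v X hu hv hX => ?_⟩
  · obtain ⟨U, hU⟩ := exists_sep V fun z => ∃ p, p ∈ prd y y ∧ z ∈ app c p
    obtain ⟨U', hU'⟩ := exists_sep V fun z => y ∈ bad A V ∧ z ∈ app w y
    have h7 : Le U θ := (h6.prd h4 h5 h6).cover h4 h5 (fun p => app c p)
      (fun p hp => Le.mono' (hc p (h2 p hp)).2.1 h5) fun z hz => ((hU z).1 hz).2
    have h8 : Le U' θ := by
      by_cases hb : y ∈ bad A V
      · exact (Le.mono' (hw y hb).2.2.1 h5).mono fun z hz => ((hU' z).1 hz).2.2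
      · exact h6.mono fun z hz => absurd ((hU' z).1 hz).2.1 hb
    refine (h6.union h4 h5 (h8.union h4 h5 h7)).mono fun z hz => ?_
    obtain ⟨h9, h10⟩ := (h1 z).1 hz
    simp only [mem_union, hU, hU']
    exact h10.imp id (Or.imp (fun h => ⟨h9, h⟩) fun h => ⟨h9, h⟩)
  · exact ⟨_, fun z hz => (h1 z).2 ⟨(hw y hb).2.1 z hz, Or.inr (Or.inl ⟨hb, hz⟩)⟩, (hw y hb).2.2⟩
  · have h4 : op u v ∈ prd y y := op_mem_prd.2 ⟨hu, hv⟩
    obtain ⟨h5, -, h6⟩ := hc _ (h2 _ h4)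
    simp only [p1_op, p2_op] at h6
    exact h6 X (fun z hz => hX z ((h1 z).2 ⟨mem_pw.1 h5 z hz, Or.inr (Or.inr ⟨_, h4, hz⟩)⟩))
      (hX u (h3 u hu)) (hX v (h3 v hv))

theorem chain (hF : FRPi M) (hG : Gr V A) (hB : ¬ BadMinor V A) {κ W : M} (hκ : Reg κ)
    (hω : om M ∈ κ) (hW : W ⊆ V) (hle : Le W κ) :
    ∃ e k : M, (∀ a, a ∈ κ → app e a ∈ V) ∧ (∀ a, a ∈ κ → app k a ∈ κ) ∧ W ⊆ yy V e κ ∧
      ∀ δ, δ ∈ κ → (∃ a, a ∈ δ) → Cl k δ → Good A V (yy V e δ) := by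
  have hO := hκ.1
  have hω' := hO.sub_of_mem hω
  obtain ⟨a0, ha0⟩ := hG.ne
  obtain ⟨w, hw1, hw2⟩ := (hle.union hO hω' (le_single hω' a0)).total (x := a0) (by simp)
  have hwV : ∀ a, a ∈ κ → app w a ∈ V := fun a ha => (mem_union.1 (hw1 a ha)).elim (hW _)
    fun h => mem_single.1 h ▸ ha0
  obtain ⟨s, hs⟩ := exists_step hG
  obtain ⟨Y, hY⟩ := exists_rec hO.suc V (fun β y => app s y ∪ ({app w β} ∩ V)) fun β y _ hy z hz =>
    (mem_union.1 hz).elim ((hs y hy).1 z) fun h => (mem_inter.1 h).2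
  have hκs : ∀ a, a ∈ κ → a ∈ suc κ := fun a ha => mem_suc.2 (Or.inl ha)
  have hs' := fun a (ha : a ∈ κ) => hs _ (hY a (hκs a ha)).1
  obtain ⟨Z, -, hZ⟩ := exists_lam κ fun β => app s (app Y β) ∪ ({app w β} ∩ V)
  have hYm : ∀ α, α ∈ suc κ → ∀ z, z ∈ app Y α ↔ ∃ β, β ∈ α ∧ z ∈ app Z β :=
    fun α hα z => by
      rw [(hY α hα).2]
      exact exists_congr fun β => and_congr_right fun hβ => by
        rw [hZ β (sub_of_mem_suc hO hα β hβ)]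
  have hYZ : ∀ β, β ∈ κ → app s (app Y β) ⊆ app Z β := fun β hβ z hz => by
    rw [hZ β hβ]; simp [hz]
  have small : ∀ α, α ∈ κ → ∃ ξ, ξ ∈ κ ∧ om M ⊆ ξ ∧ Le (app Z α) ξ := by
    refine mem_induction _ _ fun α hα ih => ?_
    obtain ⟨r, hr⟩ := choice α κ (fun β ξ => om M ⊆ ξ ∧ Le (app Z β) ξ)
      fun β hβ => ih β hβ (hO.trans hα hβ)
    obtain ⟨b, h1, h2⟩ := hκ.2 α hα r fun β hβ => (hr β hβ).1
    have h3 := hO.union_mem h1 (hO.union_mem hα hω)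
    have h4 : om M ⊆ b ∪ (α ∪ om M) := fun z hz => by simp [hz]
    refine ⟨_, h3, h4, ?_⟩
    rw [hZ α hα]
    refine Le.union (hO.mem h3) h4 ((hs' α hα).2.2.1 _ (hO.mem h3) h4 ?_)
      ((le_single h4 _).mono fun z hz => (mem_inter.1 hz).1)
    refine Le.cover (hO.mem h3) h4 (I := α) (le_of_sub fun z hz => by simp [hz])
      (fun β => app Z β) (fun β hβ => (hr β hβ).2.2.mono' fun z hz => ?_)
      fun z hz => (hYm α (hκs α hα) z).1 hz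
    exact mem_union.2 (Or.inl ((hO.mem h1).trans (h2 β hβ) hz))
  have hX : Le (app Y κ) κ := Le.cover hO hω' (le_of_sub (sub_refl κ)) (fun β => app Z β)
    (fun β hβ => let ⟨ξ, h1, _, h2⟩ := small β hβ; h2.mono' (hO.sub_of_mem h1))
    fun z hz => (hYm κ (self_mem_suc κ) z).1 hz
  have hZX : ∀ a, a ∈ κ → app Z a ⊆ app Y κ := fun a ha z hz =>
    (hYm κ (self_mem_suc κ) z).2 ⟨a, ha, hz⟩
  have hwX : ∀ a, a ∈ κ → app w a ∈ app Y κ := fun a ha =>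
    hZX a ha _ (by rw [hZ a ha]; simp [hwV a ha])
  obtain ⟨e, he1, he2⟩ := hX.total (hwX _ hω)
  have hXV := (hY κ (self_mem_suc κ)).1
  have eV : ∀ a, a ∈ κ → app e a ∈ V := fun a ha => hXV _ (he1 a ha)
  have hXe : app Y κ ⊆ yy V e κ := fun z hz => mem_yy.2 ⟨hXV z hz, he2 z hz⟩
  obtain ⟨k0, hk0, hk0'⟩ : ∃ k0 : M, (∀ a, a ∈ κ → app k0 a ∈ κ) ∧ ∀ δ, δ ∈ κ → (∃ a, a ∈ δ) →
      Cl k0 δ → ¬ ∃ C, Wit A (yy V e κ) (yy V e δ) C := by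
    by_contra hc
    refine hB (reg_lemma hF hG hκ hω eV ⟨fun z hz => (mem_sep.1 hz).1, fun k hk => ?_⟩)
    by_contra h1
    exact hc ⟨k, hk, fun δ h2 h3 h4 h5 => h1 ⟨δ, mem_sep.2 ⟨h2, h5⟩, h3, h4⟩⟩
  obtain ⟨k, hk⟩ := choice κ κ (fun a b => a ∈ b ∧ app k0 a ∈ b ∧
      (∃ β, β ∈ b ∧ app e a ∈ app Z β) ∧ app Z a ⊆ yy V e b) fun a ha => by
    obtain ⟨β, h1, h2⟩ := (hYm κ (self_mem_suc κ) _).1 (he1 a ha)
    obtain ⟨ξ, h3, -, h4⟩ := small a ha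
    obtain ⟨j, hj⟩ := choice (app Z a) κ (fun z c => app e c = z) fun z hz => he2 z (hZX a ha z hz)
    obtain ⟨b, h5, h6⟩ := hκ.bdd h3 h4 (fun z => app j z) fun z hz => (hj z hz).1
    refine ⟨b ∪ (suc a ∪ (suc (app k0 a) ∪ suc β)), hO.union_mem h5 (hO.union_mem
      (hκ.suc_mem hω ha) (hO.union_mem (hκ.suc_mem hω (hk0 a ha)) (hκ.suc_mem hω h1))),
      by simp, by simp, ⟨β, by simp, h2⟩, fun z hz => mem_yy.2
        ⟨hXV z (hZX a ha z hz), _, mem_union.2 (Or.inl (h6 z hz)), (hj z hz).2⟩⟩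
  refine ⟨e, k, eV, fun a ha => (hk a ha).1, fun z hz => ?_, fun δ hδ hne hcl => ?_⟩
  · obtain ⟨a, ha, rfl⟩ := hw2 z (by simp [hz])
    exact hXe _ (hwX a ha)
  have hD := hO.mem hδ
  have hk' := fun a (ha : a ∈ δ) => hk a (hO.trans hδ ha)
  have heq : yy V e δ = app Y δ := by
    refine sub_antisymm (fun z hz => ?_) fun z hz => ?_
    · obtain ⟨-, a, ha, rfl⟩ := mem_yy.1 hz
      obtain ⟨β, h1, h2⟩ := (hk' a ha).2.2.2.1
      exact (hYm δ (hκs δ hδ) _).2 ⟨β, hD.trans (hcl a ha) h1, h2⟩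
    · obtain ⟨β, h1, h2⟩ := (hYm δ (hκs δ hδ) z).1 hz
      exact yy_mono (hD.sub_of_mem (hcl β h1)) z ((hk' β h1).2.2.2.2 z h2)
  refine ⟨fun z hz => (mem_yy.1 hz).1, fun u v hu hv => ?_, fun hb => ?_⟩
  · rw [heq] at hu hv ⊢
    obtain ⟨β, h1, h2⟩ := (hYm δ (hκs δ hδ) u).1 hu
    obtain ⟨β', h3, h4⟩ := (hYm δ (hκs δ hδ) v).1 hv
    have h5 := hD.union_mem h1 h3
    have h6 := hcl _ h5
    have h7 := hO.trans hδ h6
    have h8 := (hk' _ h5).2.1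
    exact (hs' _ h7).2.2.2.2 u v _
      ((hYm _ (hκs _ h7) u).2
        ⟨β, (hD.mem h1).mem_of_sub (hD.mem h6) (fun z hz => by simp [hz]) h8, h2⟩)
      ((hYm _ (hκs _ h7) v).2
        ⟨β', (hD.mem h3).mem_of_sub (hD.mem h6) (fun z hz => by simp [hz]) h8, h4⟩)
      fun z hz => (hYm δ (hκs δ hδ) z).2 ⟨_, h6, hYZ _ h7 z hz⟩
  · obtain ⟨C, h1, h2⟩ := (hs' δ hδ).2.2.2.1 (heq ▸ hb)
    exact hk0' δ hδ hne (fun a ha => hD.trans (hcl a ha) (hk' a ha).2.2.1)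
      ⟨C, sub_trans h1 (sub_trans (hYZ δ hδ) (sub_trans (hZX δ hδ) hXe)), heq ▸ h2⟩

/-- Every set of size at most `l` has a good superset of size at most `l`. -/
theorem exists_good (hF : FRPi M) (hG : Gr V A) (hB : ¬ BadMinor V A) {κ l W : M} (hκ : Od κ)
    (hl : Od l) (hω : om M ⊆ l) (hn : ¬ Le κ l) (hW : W ⊆ V) (hle : Le W l) :
    ∃ X, W ⊆ X ∧ Good A V X ∧ Le X l := by
  obtain ⟨μ, h1, h2, h3⟩ := exists_min (suc κ) (fun μ => ¬ Le μ l) ⟨κ, self_mem_suc κ, hn⟩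
  have hO := hκ.suc.mem h1
  have h4 : ∀ δ, δ ∈ μ → Le δ l := fun δ hδ => not_not.1 (h3 δ hδ (hκ.suc.trans h1 hδ))
  have h5 : l ∈ μ := (od_tri hO hl).resolve_left fun h => h2 (le_of_sub h)
  have h6 : om M ∈ μ := od_om.mem_of_sub hO hω h5
  have h7 : Reg μ := by
    refine ⟨hO, fun ξ hξ f hf => ?_⟩
    by_contra hc
    push Not at hc
    refine h2 ((h4 ξ hξ).cover hl hω (fun a => suc (app f a))
      (fun a ha => (h4 _ (hf a ha)).union hl hω (le_single hω _)) fun z hz => ?_)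
    obtain ⟨a, h7, h8⟩ := hc z hz
    exact ⟨a, h7, hO.mem_suc_of_not hz (hf a h7) h8⟩
  obtain ⟨e, k, -, h8, h9, h10⟩ := chain hF hG hB h7 h6 hW (hle.mono' (hO.sub_of_mem h5))
  obtain ⟨j, hj⟩ := choice W μ (fun z c => app e c = z) fun z hz => (mem_yy.1 (h9 z hz)).2
  obtain ⟨b, h11, h12⟩ := h7.bdd h5 hle (fun z => app j z) fun z hz => (hj z hz).1
  obtain ⟨δ, h13, h14, h15, -⟩ := exists_closed h7 h6 h8 h11
  refine ⟨yy V e δ, fun z hz => mem_yy.2 ⟨hW z hz, _, (hO.mem h13).trans h14 (h12 z hz),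
    (hj z hz).2⟩, h10 δ h13 ⟨b, h14⟩ h15, (h4 δ h13).img (fun a => app e a) fun z hz => ?_⟩
  obtain ⟨-, a, h16, h17⟩ := mem_yy.1 hz
  exact ⟨a, h16, h17.symm⟩

/-- The vertices born before `l`. -/
noncomputable def zz (V r l : M) : M := sep V fun x => ∃ a, a ∈ l ∧ op a x ∈ r

theorem mem_zz {V r l x : M} : x ∈ zz V r l ↔ x ∈ V ∧ ∃ a, a ∈ l ∧ op a x ∈ r := mem_sep

instance DF.zz {α : Type v} [Ctx M α] (V : M) (s t : α → M) [DF M s] [DF M t] :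
    DF M (no_index fun x => zz V (s x) (t x)) :=
  have : DF M fun z : M × M => MP_783f50_lc.zz V z.1 z.2 := by
    unfold MP_783f50_lc.zz; infer_instance
  DF.comp (fun z : M × M => MP_783f50_lc.zz V z.1 z.2) fun x => (s x, t x)

theorem zz_mono {r r' l l' : M} (h : r ⊆ r') (h' : l ⊆ l') : zz V r l ⊆ zz V r' l' := fun _ hz =>
  let ⟨h1, a, h2, h3⟩ := mem_zz.1 hz; mem_zz.2 ⟨h1, a, h' a h2, h _ h3⟩

theorem filt (hG : Gr V A) {κ r L : M} (hκ : Od κ) (hL : L ⊆ suc κ)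
    (hU : ∀ B, B ⊆ L → sU B ∈ L) (hun : ∀ a, a ∈ κ → ∃ l, l ∈ L ∧ l ∈ κ ∧ a ∈ l)
    (hg : ∀ l, l ∈ L → l ∈ κ → Good A V (zz V r l) ∧ ∃ h, RR A (zz V r l) (zz V r l) h) :
    ∃ h, RR A (zz V r κ) (zz V r κ) h := by
  obtain ⟨K, hK⟩ := exists_img L fun l => zz V r l
  have h1 : ∀ X, X ∈ K → X ⊆ V := fun X hX z hz => by
    obtain ⟨l, -, rfl⟩ := (hK X).1 hX
    exact (mem_zz.1 hz).1
  obtain ⟨X, h, h2, h3, h4⟩ := glue hG (W := zz V r κ) h1 (fun C hC _ => by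
      obtain ⟨B, hB⟩ := exists_sep L fun l => zz V r l ∈ C
      refine (hK _).2 ⟨sU B, hU B fun l hl => ((hB l).1 hl).1, zext fun z => ?_⟩
      simp only [mem_sU, mem_zz]
      constructor
      · rintro ⟨y, h2, h3⟩
        obtain ⟨l, h4, rfl⟩ := (hK y).1 (hC y h2)
        obtain ⟨h5, a, h6, h7⟩ := mem_zz.1 h3
        exact ⟨h5, a, ⟨l, (hB l).2 ⟨h4, h2⟩, h6⟩, h7⟩
      · rintro ⟨h5, a, ⟨l, h2, h6⟩, h7⟩
        exact ⟨_, ((hB l).1 h2).2, mem_zz.2 ⟨h5, a, h6, h7⟩⟩) fun X hX hn => by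
    obtain ⟨l, h2, rfl⟩ := (hK X).1 hX
    have h3 : l ∈ κ := (mem_suc.1 (hL l h2)).resolve_right fun e => hn (e ▸ sub_refl _)
    obtain ⟨x, h4, h5⟩ : ∃ x, x ∈ zz V r κ ∧ x ∉ zz V r l := by
      by_contra hc
      exact hn fun x hx => not_not.1 fun h => hc ⟨x, hx, h⟩
    obtain ⟨h6, a, h7, h8⟩ := mem_zz.1 h4
    obtain ⟨l', h9, h10, h11⟩ := hun _ (hκ.union_mem h7 h3)
    obtain ⟨h12, h, h13⟩ := hg l' h9 h10
    have h14 := hκ.mem h10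
    exact ⟨(hg l h2 h3).1.2.2, _, (hK _).2 ⟨l', h9, rfl⟩,
      zz_mono (sub_refl r) fun z hz => h14.trans h11 (by simp [hz]),
      fun hs => h5 (hs x (mem_zz.2
        ⟨h6, a, (hκ.mem h7).mem_of_sub h14 (fun z hz => by simp [hz]) h11, h8⟩)),
      h, rr_of_closed hG h12.1 h12.2.1 h13⟩
  exact ⟨h, h4.restrict (h1 X h2) h3⟩

theorem reg_step (hF : FRPi M) (hG : Gr V A) (hB : ¬ BadMinor V A) {κ W : M} (hκ : Reg κ)
    (hω : om M ∈ κ) (ih : ∀ l, l ∈ κ → ∀ X, X ⊆ V → Le X l → ∃ h, RR A X X h) (hW : W ⊆ V)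
    (hle : Le W κ) : ∃ h, RR A W W h := by
  have hO := hκ.1
  obtain ⟨e, k, h1, h2, h3, h4⟩ := chain hF hG hB hκ hω hW hle
  obtain ⟨r, -, hr⟩ := exists_rel κ V fun a x => app e a = x
  have h5 : ∀ l, l ⊆ κ → zz V r l = yy V e l := fun l hl => zext fun z => by
    rw [mem_zz, mem_yy]
    exact and_congr_right fun hz => exists_congr fun a => and_congr_right fun ha => by
      rw [hr]; exact ⟨fun h => h.2.2, fun h => ⟨hl a ha, hz, h⟩⟩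
  obtain ⟨L, hL⟩ := exists_sep (suc κ) fun l => Cl k l
  obtain ⟨h, h6⟩ := filt hG (r := r) (L := L) hO (fun l hl => ((hL l).1 hl).1) (fun B hB' => by
      have h6 : B ⊆ suc κ := fun l hl => ((hL l).1 (hB' l hl)).1
      refine (hL _).2 ⟨(od_sU hO.suc h6).mem_of_sub hO.suc (fun z hz => ?_) (self_mem_suc κ),
        fun a ha => ?_⟩
      · obtain ⟨l, h7, h8⟩ := mem_sU.1 hz
        exact sub_of_mem_suc hO (h6 l h7) z h8
      · obtain ⟨l, h7, h8⟩ := mem_sU.1 ha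
        exact mem_sU.2 ⟨l, h7, ((hL l).1 (hB' l h7)).2 a h8⟩)
    (fun a ha => let ⟨γ, h6, h7, h8, _⟩ := exists_closed hκ hω h2 ha
      ⟨γ, (hL γ).2 ⟨mem_suc.2 (Or.inl h6), h8⟩, h6, h7⟩) fun l h6 h7 => by
    rw [h5 l (hO.sub_of_mem h7)]
    refine ⟨?_, ih l h7 _ (fun z hz => (mem_yy.1 hz).1) ⟨e, fun z hz => (mem_yy.1 hz).2⟩⟩
    rcases empty_or l with rfl | h8
    · rw [eq_empty (a := yy V e ∅) fun z hz => by simpa using (mem_yy.1 hz).2]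
      exact good_empty
    · exact h4 l h7 h8 ((hL l).1 h6).2
  rw [h5 κ (sub_refl κ)] at h6
  exact ⟨h, h6.restrict (sub_refl _) h3⟩

end Pool.Agent.Lib.MP_783f50_lc
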