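import Pool.Agent.Lib.MP_783f50_lc.FR.Lad

/-! A set of tops without a finite-to-one choice gives a reflecting set. -/

namespace Pool.Agent.Lib.MP_783f50_lc

open Pool.Agent.Lib.MP_2739cb_lc

set_option synthInstance.maxSize 100000

universe v

variable {M : Type v} [ZM M]

/-- The ladder of `α` lies in the first `δ` values of `i` and `α` does not. -/
def Bq (κ s i δ α : M) : Prop :=
  α ∉ yy κ i δ ∧ ∀ n, n ∈ om M → app (app s α) n ∈ yy κ i δ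

instance DP.bq {α : Type v} [Ctx M α] (κ s i : M) (r t : α → M) [DF M r] [DF M t] :
    DP M (no_index fun x => Bq κ s i (r x) (t x)) :=
  have : DP M fun z : M × M => Bq κ s i z.1 z.2 := by unfold Bq; infer_instance
  DP.comp (fun z : M × M => Bq κ s i z.1 z.2) fun x => (r x, t x)

theorem yy_bound {κ i B : M} (hB : B ⊆ yy κ i (om1 M)) (hc : Ctbl B) :
    ∃ η, η ∈ om1 M ∧ B ⊆ yy κ i η := by
  obtain ⟨j, hj⟩ := choice B (om1 M) (fun z a => app i a = z) fun z hz => (mem_yy.1 (hB z hz)).2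
  obtain ⟨η, h1, h2⟩ := hc.bdd (fun z => app j z) fun z hz => (hj z hz).1
  exact ⟨η, h1, fun z hz => mem_yy.2 ⟨(mem_yy.1 (hB z hz)).1, _, h2 z hz, (hj z hz).2⟩⟩

theorem stat_of_notr {κ s i Z : M} (h1 : Z ⊆ yy κ i (om1 M))
    (h2 : ∀ α n, α ∈ Z → n ∈ om M → app (app s α) n ∈ yy κ i (om1 M))
    (hZ : ∀ c, ¬ Tr κ s Z c) : GStat (om1 M) (sep (om1 M) fun δ => ∃ α, α ∈ Z ∧ Bq κ s i δ α) := by
  refine ⟨fun z hz => (mem_sep.1 hz).1, fun k hk => ?_⟩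
  by_contra hc
  have hv : ∀ α, α ∈ Z → ∀ n, n ∈ om M → app (app s α) n ∈ κ := fun α hα n hn =>
    (mem_yy.1 (h2 α n hα hn)).1
  obtain ⟨k', hk'⟩ := choice (om1 M) (om1 M) (fun ζ η => app k ζ ∈ η ∧
      (app i ζ ∈ Z → ∀ n, n ∈ om M → app (app s (app i ζ)) n ∈ yy κ i η)) fun ζ hζ => by
    obtain ⟨B, hB⟩ := exists_sep κ fun x =>
      app i ζ ∈ Z ∧ ∃ n, n ∈ om M ∧ x = app (app s (app i ζ)) n
    obtain ⟨η, h3, h4⟩ := yy_bound (κ := κ) (i := i) (B := B) (fun x hx => by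
        obtain ⟨-, h3, n, h4, rfl⟩ := (hB x).1 hx
        exact h2 _ n h3 h4)
      (ctbl_om.img (fun n => app (app s (app i ζ)) n) fun x hx => ((hB x).1 hx).2.2)
    exact ⟨η ∪ suc (app k ζ), od_om1.union_mem h3 (suc_mem_om1 (hk ζ hζ)), by simp,
      fun h5 n hn => yy_mono (fun z hz => by simp [hz]) _
        (h4 _ ((hB _).2 ⟨hv _ h5 n hn, h5, n, hn, rfl⟩))⟩
  obtain ⟨d, -, hd⟩ := exists_lam Z fun α =>
    sU (sep (om1 M) fun δ => Cl k' δ ∧ α ∉ yy κ i δ)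
  have hd1 : ∀ α ζ, α ∈ Z → (ζ ∈ app d α ↔
      ∃ δ, (δ ∈ om1 M ∧ Cl k' δ ∧ α ∉ yy κ i δ) ∧ ζ ∈ δ) := fun α ζ hα => by
    rw [hd α hα]; simp only [mem_sU, mem_sep]
  have hd2 : ∀ α, α ∈ Z → α ∉ yy κ i (app d α) := fun α hα h => by
    obtain ⟨h3, ζ, h4, h5⟩ := mem_yy.1 h
    obtain ⟨δ, h6, h7⟩ := (hd1 α ζ hα).1 h4
    exact h6.2.2 (mem_yy.2 ⟨h3, ζ, h7, h5⟩)
  have hd3 : ∀ α, α ∈ Z → app d α ∈ om1 M := fun α hα =>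
    (od_tri od_om1 (by rw [hd α hα]; exact od_sU od_om1 fun z hz => (mem_sep.1 hz).1)).resolve_left
      fun h => hd2 α hα (yy_mono h α (h1 α hα))
  have hd4 : ∀ α, α ∈ Z → Cl k' (app d α) := fun α hα ζ hζ =>
    let ⟨δ, h3, h4⟩ := (hd1 α ζ hα).1 hζ; (hd1 α _ hα).2 ⟨δ, h3, h3.2.1 ζ h4⟩
  have hd5 : ∀ α δ, α ∈ Z → δ ∈ om1 M → Cl k' δ → app d α ∈ δ → α ∈ yy κ i δ :=
    fun α δ hα h3 h4 h5 => not_not.1 fun h => mem_irrefl _ ((hd1 α _ hα).2 ⟨δ, ⟨h3, h4, h⟩, h5⟩)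
  obtain ⟨m, hm⟩ := choice Z (om M) (fun α n => app (app s α) n ∉ yy κ i (app d α)) fun α hα => by
    by_contra h3
    have h4 : ∀ n, n ∈ om M → app (app s α) n ∈ yy κ i (app d α) := fun n hn =>
      not_not.1 fun h => h3 ⟨n, hn, h⟩
    obtain ⟨-, ζ, h5, -⟩ := mem_yy.1 (h4 ∅ empty_mem_om)
    exact hc ⟨_, mem_sep.2 ⟨hd3 α hα, α, hα, hd2 α hα, h4⟩, ⟨ζ, h5⟩, fun a ha =>
      (od_om1.mem (hd3 α hα)).trans (hd4 α hα a ha) (hk' a (od_om1.trans (hd3 α hα) ha)).2.1⟩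
  obtain ⟨e, he⟩ := choice (om1 M) (pw (prd (om M) Z)) (fun δ f =>
      ∀ α, α ∈ Z → app d α = δ → ∃ n, n ∈ om M ∧ app f n = α) fun δ hδ => by
    obtain ⟨δ', h3, h4, h5, -⟩ := exists_closed reg_om1 om_mem_om1 (fun a ha => (hk' a ha).1) hδ
    obtain ⟨f, h6, h7⟩ := Le.bdd (X := sep Z fun α => app d α = δ) (U := Z)
      ((ctbl_yy (V := κ) (g := i) h3).mono fun α hα =>
        hd5 α δ' (mem_sep.1 hα).1 h3 h5 ((mem_sep.1 hα).2 ▸ h4)) fun α hα => (mem_sep.1 hα).1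
    exact ⟨f, mem_pw.2 h6, fun α h8 h9 => h7 α (mem_sep.2 ⟨h8, h9⟩)⟩
  obtain ⟨q, hq⟩ := choice Z (om M) (fun α n => app (app e (app d α)) n = α)
    fun α hα => (he _ (hd3 α hα)).2 α hα rfl
  obtain ⟨c, -, hc'⟩ := exists_lam Z fun α => suc (app m α) ∪ suc (app q α)
  have h3 : ∀ α, α ∈ Z → app c α ∈ om M := fun α hα => by
    rw [hc' α hα]; exact od_om.union_mem (suc_mem_om (hm α hα).1) (suc_mem_om (hq α hα).1)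
  have h4 : ∀ α α', α ∈ Z → α' ∈ Z → nd κ (app s α) (app c α) = nd κ (app s α') (app c α') →
      app d α ∉ app d α' := fun α α' hα hα' e' h => by
    obtain ⟨-, ζ, h4, rfl⟩ := mem_yy.1 (hd5 α _ hα (hd3 α' hα') (hd4 α' hα') h)
    refine (hm α' hα').2 ?_
    rw [(nd_inj (hv α' hα') (hv _ hα) (h3 α' hα') (h3 _ hα) e'.symm).2 _
      (by rw [hc' α' hα']; simp)]
    exact yy_mono (sub1 (hd3 α' hα') (hd4 α' hα' ζ h4)) _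
      ((hk' ζ (od_om1.trans (hd3 α' hα') h4)).2.2 hα _ (hm α' hα').1)
  refine hZ c ⟨h3, fun t hi => ?_⟩
  obtain ⟨α0, h5⟩ := hi.nonempty
  obtain ⟨h6, rfl⟩ := mem_sep.1 h5
  refine not_inf_img (not_inf_nat (h3 α0 h6)) (fun n => app (app e (app d α0)) n)
    (fun α hα => ?_) hi
  obtain ⟨h7, h8⟩ := mem_sep.1 hα
  have h9 : app d α = app d α0 := ((od_om1.tri (hd3 α h7) (hd3 α0 h6)).resolve_left
    (h4 α α0 h7 h6 h8)).resolve_right (h4 α0 α h6 h7 h8.symm)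
  refine ⟨app q α, ?_, by rw [← h9, (hq α h7).2]⟩
  rw [← (nd_inj (hv α h7) (hv α0 h6) (h3 α h7) (h3 α0 h6) h8).1, hc' α h7]
  simp

theorem exists_hull {κ S g B : M} (hg : ∀ α, α ∈ S → app g α ⊆ κ ∧ Ctbl (app g α)) (h1 : B ⊆ κ)
    (h2 : Le B (om1 M)) :
    ∃ I, I ⊆ κ ∧ B ⊆ I ∧ Le I (om1 M) ∧ ∀ α, α ∈ S → α ∈ I → app g α ⊆ I := by
  obtain ⟨Y, hY⟩ := exists_rec od_om.suc κ
    (fun _ y => sep κ fun x => x ∈ B ∨ ∃ α, α ∈ y ∩ S ∧ x ∈ app g α)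
    fun _ _ _ _ z hz => (mem_sep.1 hz).1
  have h0 := self_mem_suc (om M)
  have hY' : ∀ n z, n ∈ suc (om M) → (z ∈ app Y n ↔
      ∃ m, m ∈ n ∧ z ∈ κ ∧ (z ∈ B ∨ ∃ α, α ∈ app Y m ∩ S ∧ z ∈ app g α)) := fun n z hn => by
    rw [(hY n hn).2]; simp only [mem_sep]
  have h3 : ∀ n, n ∈ suc (om M) → Le (app Y n) (om1 M) := by
    refine mem_induction _ _ fun n hn ih => ?_
    refine Le.cover od_om1 om_sub_om1
      (le_of_sub (sub_trans (sub_of_mem_suc od_om hn) om_sub_om1))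
      (fun m => sep κ fun x => x ∈ B ∨ ∃ α, α ∈ app Y m ∩ S ∧ x ∈ app g α) (fun m hm => ?_)
      fun z hz => ((hY n hn).2 z).1 hz
    obtain ⟨U, hU⟩ := exists_sep κ fun x => ∃ α, α ∈ app Y m ∩ S ∧ x ∈ app g α
    refine (h2.union od_om1 om_sub_om1 (Le.cover (U := U) (I := app Y m ∩ S) od_om1 om_sub_om1
      ((ih m hm (od_om.suc.trans hn hm)).mono fun z hz => (mem_inter.1 hz).1) (fun α => app g α)
      (fun α hα => Le.mono' (hg α (mem_inter.1 hα).2).2 om_sub_om1)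
      fun z hz => ((hU z).1 hz).2)).mono fun z hz => ?_
    exact mem_union.2 ((mem_sep.1 hz).2.imp id fun h => (hU z).2 ⟨(mem_sep.1 hz).1, h⟩)
  refine ⟨_, (hY _ h0).1, fun z hz => (hY' _ z h0).2 ⟨∅, empty_mem_om, h1 z hz, Or.inl hz⟩,
    h3 _ h0, fun α h4 h5 z hz => ?_⟩
  obtain ⟨m, h6, h7⟩ := (hY' _ α h0).1 h5
  have h8 := suc_mem_om h6
  exact (hY' _ z h0).2 ⟨_, h8, (hg α h4).1 z hz, Or.inr ⟨α, mem_inter.2
    ⟨(hY' _ α (mem_suc.2 (Or.inl h8))).2 ⟨m, self_mem_suc m, h7⟩, h4⟩, hz⟩⟩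

theorem frpi_of_minors (hS : ∀ V A : M, IsGraph (EE M) V A → Connected (EE M) (om M) A V →
    ¬ HasNST (EE M) (om M) V A → BadMinor V A) : FRPi M := by
  intro κ S g hκ hω1 hst hcof hg
  have hO := hκ.1
  have hω := hO.trans hω1 om_mem_om1
  obtain ⟨k0, hk0⟩ := choice κ κ (fun a b => a ∈ S → ∀ x, x ∈ app g a → x ∈ b) fun a ha => by
    by_cases h : a ∈ S
    · obtain ⟨b, h1, h2⟩ := hκ.bdd hω (hg a h).2 (fun x => x) (hg a h).1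
      exact ⟨b, h1, fun _ => h2⟩
    · exact ⟨a, ha, fun h1 => absurd h1 h⟩
  have hst0 := hst.inter hO fun a ha => (hk0 a ha).1
  obtain ⟨S0, hS0⟩ : ∃ S0, S0 = sep S fun δ => (∃ a, a ∈ δ) ∧ Cl k0 δ := ⟨_, rfl⟩
  have hS0' : ∀ δ, δ ∈ S0 → δ ∈ S ∧ (∃ a, a ∈ δ) ∧ Cl k0 δ := fun δ hδ => mem_sep.1 (hS0 ▸ hδ)
  rw [← hS0] at hst0
  obtain ⟨s, hs⟩ := choice S0 (pw (prd (om M) κ)) (fun α t => (∀ n, n ∈ om M → app t n ∈ α) ∧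
      (∀ x, x ∈ α → ∃ n, n ∈ om M ∧ x ∈ app t n) ∧
      ∀ x, x ∈ app g α → x ∈ α → ∃ n, n ∈ om M ∧ app t n = x) fun α hα => by
    obtain ⟨h1, ⟨a, h2⟩, -⟩ := hS0' α hα
    obtain ⟨B, h3, h4, h5⟩ := (hcof α h1).2
    obtain ⟨b, h6, -⟩ := h5 a h2
    obtain ⟨t, h7, h8⟩ := Le.total (X := B ∪ app g α ∩ α) (x := b)
      (h4.union ((hg α h1).2.mono fun z hz => (mem_inter.1 hz).1)) (by simp [h6])
    have h9 : ∀ n, n ∈ om M → app t n ∈ α := fun n hn =>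
      (mem_union.1 (h7 n hn)).elim (h3 _) fun h => (mem_inter.1 h).2
    obtain ⟨t', h10, h11⟩ := exists_fn (om M) κ (fun n => app t n)
      fun n hn => hO.trans (hst.1 α h1) (h9 n hn)
    refine ⟨t', mem_pw.2 h10, fun n hn => by rw [h11 n hn]; exact h9 n hn, fun x hx => ?_,
      fun x h12 h13 => ?_⟩
    · obtain ⟨y, h12, h13⟩ := h5 x hx
      obtain ⟨n, h14, rfl⟩ := h8 y (by simp [h12])
      exact ⟨n, h14, by rwa [h11 n h14]⟩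
    · obtain ⟨n, h14, rfl⟩ := h8 x (by simp [h12, h13])
      exact ⟨n, h14, h11 n h14⟩
  obtain ⟨V, A, hL⟩ := exists_lad (s := s) hO hst0.1
    (fun α hα => let ⟨_, ⟨_, h⟩, _⟩ := hS0' α hα; (hO.mem (hst0.1 α hα)).empty_mem h)
    fun α n hα hn => (hs α hα).2.1 n hn
  obtain ⟨Z, hZ1, hZ2, hZ3⟩ := hL.exists_notr hst0.nonempty
    (hS V A hL.graph (hL.conn hst0.nonempty) (hL.no_nst hκ hω hst0))
  have hZκ : Z ⊆ κ := sub_trans hZ1 hst0.1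
  obtain ⟨U, hU⟩ := exists_sep κ fun x => ∃ α, α ∈ Z ∧ ∃ n, n ∈ om M ∧ x = app (app s α) n
  obtain ⟨I, hI1, hI2, hI3, hI4⟩ := exists_hull (B := {∅} ∪ (Z ∪ U)) hg
    (fun z hz => by
      simp only [mem_union, mem_single] at hz
      rcases hz with rfl | h | h
      · exact hO.empty_mem hω
      · exact hZκ z h
      · exact ((hU z).1 h).1)
    (Le.union od_om1 om_sub_om1 (Le.mono' (ctbl_single _) om_sub_om1)
      (hZ2.union od_om1 om_sub_om1 ((hZ2.prd od_om1 om_sub_om1 (le_of_sub om_sub_om1)).img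
        (fun p => app (app s (p1 p)) (p2 p)) fun z hz =>
          let ⟨_, α, h1, n, h2, h3⟩ := (hU z).1 hz; ⟨op α n, by simp [h1, h2], by simp [h3]⟩)))
  obtain ⟨i, hi1, hi2⟩ := hI3.total (hI2 ∅ (by simp))
  have hIy : I ⊆ yy κ i (om1 M) := fun z hz => mem_yy.2 ⟨hI1 z hz, hi2 z hz⟩
  have hZI : Z ⊆ I := fun z hz => hI2 z (by simp [hz])
  obtain ⟨β, hβ1, hβ2, hβ3⟩ := exists_min (suc κ) (fun β => GStat (om1 M)
      (sep (om1 M) fun δ => ∃ α, α ∈ Z ∧ α ∈ β ∧ Bq κ s i δ α))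
    ⟨κ, self_mem_suc κ, (stat_of_notr (sub_trans hZI hIy) (fun α n h1 h2 => hIy _ (hI2 _ (by
        simp only [mem_union, hU]
        exact Or.inr (Or.inr ⟨hL.val' (hZ1 α h1) n h2, α, h1, n, h2, rfl⟩)))) hZ3).mono
      (fun δ hδ => let ⟨h1, α, h2, h3⟩ := mem_sep.1 hδ; mem_sep.2 ⟨h1, α, h2, hZκ α h2, h3⟩)
      fun δ hδ => (mem_sep.1 hδ).1⟩
  have hβO := hO.suc.mem hβ1
  have hmin : ∀ S1 f : M, GStat (om1 M) S1 → ¬ ∀ δ, δ ∈ S1 → ∃ a, a ∈ δ ∧ app f a ∈ β ∧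
      ∃ α, α ∈ Z ∧ α ∈ app f a ∧ Bq κ s i δ α := fun S1 f h1 h2 => by
    obtain ⟨a, -, S2, h3, h4⟩ := fodor reg_om1 om_mem_om1 h1
      (fun δ a => app f a ∈ β ∧ ∃ α, α ∈ Z ∧ α ∈ app f a ∧ Bq κ s i δ α) h2
    obtain ⟨δ0, h5⟩ := h3.nonempty
    have h6 := (h4 δ0 h5).2.1
    exact hβ3 _ h6 (hO.suc.trans hβ1 h6) (h3.mono
      (fun δ hδ => mem_sep.2 ⟨h3.1 δ hδ, (h4 δ hδ).2.2⟩) fun δ hδ => (mem_sep.1 hδ).1)
  have hcf : ∀ B, B ⊆ β → Ctbl B → ∃ α, α ∈ Z ∧ α ∈ β ∧ ∀ b, b ∈ B → b ∈ α := fun B h1 h2 => by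
    by_contra hc
    obtain ⟨η, h3, h4⟩ := yy_bound (κ := κ) (i := i) (B := B ∩ I)
      (fun z hz => hIy z (mem_inter.1 hz).2) (h2.mono fun z hz => (mem_inter.1 hz).1)
    obtain ⟨f, hf⟩ := h2
    refine hmin _ f (hβ2.above od_om1 (od_om1.union_mem h3 om_mem_om1)) fun δ hδ => ?_
    obtain ⟨h5, h6⟩ := mem_sep.1 hδ
    obtain ⟨h7, α, h8, h9, h10⟩ := mem_sep.1 h5
    obtain ⟨b, h11, h12⟩ : ∃ b, b ∈ B ∧ b ∉ α := by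
      by_contra h
      exact hc ⟨α, h8, h9, fun b hb => not_not.1 fun h11 => h ⟨b, hb, h11⟩⟩
    obtain ⟨n, h13, rfl⟩ := hf b h11
    refine ⟨n, sub1 h7 h6 n (by simp [h13]), h1 _ h11, α, h8,
      (mem_suc.1 (hβO.mem_suc_of_not h9 (h1 _ h11) h12)).resolve_right fun e => h10.1 ?_, h10⟩
    exact yy_mono (fun z hz => sub1 h7 h6 z (by simp [hz])) α
      (h4 α (mem_inter.2 ⟨e ▸ h11, hZI α h8⟩))
  have hcf' : ∀ x, x ∈ β → ∃ α, α ∈ Z ∧ α ∈ β ∧ x ∈ α := fun x hx =>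
    let ⟨α, h1, h2, h3⟩ := hcf {x} (fun z hz => mem_single.1 hz ▸ hx) (ctbl_single x)
    ⟨α, h1, h2, h3 x (by simp)⟩
  have hE : GStat (om1 M) (sep (om1 M) fun δ => ∃ α, α ∈ Z ∧ α ∈ β ∧ Bq κ s i δ α ∧
      ∀ ζ, ζ ∈ δ → app i ζ ∈ β → app i ζ ∈ α) := by
    refine ⟨fun z hz => (mem_sep.1 hz).1, fun k hk => ?_⟩
    by_contra hc
    refine hmin _ i (hβ2.inter od_om1 hk) fun δ hδ => ?_
    obtain ⟨h1, h2⟩ := mem_sep.1 hδ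
    obtain ⟨h3, α, h4, h5, h6⟩ := mem_sep.1 h1
    by_contra h7
    refine hc ⟨δ, mem_sep.2 ⟨h3, α, h4, h5, h6, fun ζ h8 h9 => ?_⟩, h2⟩
    by_contra h10
    exact h7 ⟨ζ, h8, h9, α, h4, (mem_suc.1 (hβO.mem_suc_of_not h5 h9 h10)).resolve_right
      fun e => h6.1 (mem_yy.2 ⟨hZκ α h4, ζ, h8, e.symm⟩), h6⟩
  have hsup : sU (I ∩ β) = β := zext fun z => by
    rw [mem_sU]
    exact ⟨fun ⟨y, h1, h2⟩ => hβO.trans (mem_inter.1 h1).2 h2, fun hz =>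
      let ⟨α, h1, h2, h3⟩ := hcf' z hz; ⟨α, mem_inter.2 ⟨hZI α h1, h2⟩, h3⟩⟩
  refine ⟨I ∩ β, fun z hz => hI1 z (mem_inter.1 hz).1, hI3.mono fun z hz => (mem_inter.1 hz).1,
    fun B h1 h2 => ?_, fun α h1 h2 z hz => ?_, fun f hf => ?_⟩
  · obtain ⟨α, h3, h4, h5⟩ := hcf B (fun z hz => (mem_inter.1 (h1 z hz)).2) h2
    exact ⟨α, mem_inter.2 ⟨hZI α h3, h4⟩, h5⟩
  · obtain ⟨h3, h4⟩ := mem_inter.1 h2
    obtain ⟨α', h5, h6, h7⟩ := hcf' α h4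
    exact mem_inter.2 ⟨hI4 α h1 h3 z hz, hβO.trans h6 ((hβO.mem h6).trans
      ((hS0' α' (hZ1 α' h5)).2.2 α h7) ((hk0 α (hI1 α h3)).2 h1 z hz))⟩
  obtain ⟨ζ0, -, S', h1, h2⟩ := fodor reg_om1 om_mem_om1 hE (fun δ ζ => ∃ α, α ∈ Z ∧ α ∈ β ∧
      Bq κ s i δ α ∧ (∀ ζ, ζ ∈ δ → app i ζ ∈ β → app i ζ ∈ α) ∧ app f α = app i ζ) fun δ hδ => by
    obtain ⟨-, α, h1, h2, h3, h4⟩ := mem_sep.1 hδ
    obtain ⟨h5, h6⟩ := hf α (hS0' α (hZ1 α h1)).1 (mem_inter.2 ⟨hZI α h1, h2⟩)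
    obtain ⟨n, h7, h8⟩ := (hs α (hZ1 α h1)).2.2.2 _ h6 h5
    obtain ⟨-, ζ, h9, h10⟩ := mem_yy.1 (h3.2 n h7)
    exact ⟨ζ, h9, α, h1, h2, h3, h4, (h10.trans h8).symm⟩
  rw [hsup]
  refine ⟨app i ζ0, fun z hz => (mem_inter.1 (mem_sep.1 hz).1).2, fun C hC => ?_⟩
  obtain ⟨k, hk⟩ := choice (om1 M) (om1 M) (fun ζ ζ' => app i ζ ∈ β → app i ζ' ∈ β ∧
      ∃ c, c ∈ C ∧ app i ζ ∈ c ∧ c ∈ app i ζ') fun ζ hζ => by
    by_cases h : app i ζ ∈ β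
    · obtain ⟨c, h3, h4⟩ := hC.2.1 _ h
      obtain ⟨α, h5, h6, h7⟩ := hcf' c (hC.1 c h3)
      obtain ⟨ζ', h8, rfl⟩ := hi2 α (hZI α h5)
      exact ⟨ζ', h8, fun _ => ⟨h6, c, h3, h4, h7⟩⟩
    · exact ⟨ζ, hζ, fun h3 => absurd h3 h⟩
  obtain ⟨δ, h3, -, h4⟩ := h1.2 k fun a ha => (hk a ha).1
  obtain ⟨α, h5, h6, h7, h8, h9⟩ := (h2 δ h3).2
  have h10 := hβO.mem h6
  refine ⟨α, mem_sep.2 ⟨mem_inter.2 ⟨hZI α h5, h6⟩, (hS0' α (hZ1 α h5)).1, h9⟩,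
    hC.2.2 α h6 (hS0' α (hZ1 α h5)).2.1 fun a ha => ?_⟩
  obtain ⟨n, h11, h12⟩ := (hs α (hZ1 α h5)).2.2.1 a ha
  obtain ⟨-, ζ, h13, h14⟩ := mem_yy.1 (h7.2 n h11)
  obtain ⟨h15, c, h16, h17, h18⟩ := (hk ζ (od_om1.trans (h1.1 δ h3) h13)).2
    (h14 ▸ hβO.trans h6 ((hs α (hZ1 α h5)).2.1 n h11))
  exact ⟨c, h16, (hβO.mem (hC.1 c h16)).trans h17 (h14 ▸ h12),
    h10.trans (h8 _ (h4 ζ h13) h15) h18⟩

end Pool.Agent.Lib.MP_783f50_lc
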