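import Pool.Agent.Lib.MP_783f50_lc.FR.Card

/-! Working definitions for the equivalence with the Fodor-type Reflection Principle. -/

namespace Pool.Agent.Lib.MP_783f50_lc

open Pool.Agent.Lib.MP_2739cb_lc

set_option synthInstance.maxSize 100000

universe v

variable {M : Type v} [ZM M]

/-- `(V, A)` has one of the two forbidden minors of size aleph one. -/
def BadMinor (V A : M) : Prop :=
  (∃ U B, IsGraph (EE M) U B ∧ Connected (EE M) (om M) B U ∧
    IsAleph01 (EE M) (om M) (om1 M) U B ∧ IsMinor (EE M) (om M) U B V A) ∨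
  ∃ B S, IsGraph (EE M) (om1 M) B ∧ Connected (EE M) (om M) B (om1 M) ∧
    IsStationary (EE M) (om1 M) S ∧ IsSGraph (EE M) (om M) B S ∧
      IsMinor (EE M) (om M) (om1 M) B V A

/-- `h` ranks `X` inside the ambient vertex set `Y`. -/
def RR (A Y X h : M) : Prop :=
  (∀ v, v ∈ X → app h v ∈ om M) ∧ ∀ u v, u ∈ X → v ∈ X →
    Conn A (sep Y fun x => ¬ (x ∈ X ∧ app h x ∈ app h u)) u v → app h u = app h v → u = v

instance DP.rr {α : Type v} [Ctx M α] (A : M) (r s t : α → M) [DF M r] [DF M s] [DF M t] :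
    DP M (no_index fun x => RR A (r x) (s x) (t x)) :=
  have : DP M fun z : (M × M) × M => RR A z.1.1 z.1.2 z.2 := by unfold RR; infer_instance
  DP.comp (fun z : (M × M) × M => RR A z.1.1 z.1.2 z.2) fun x => ((r x, s x), t x)

/-- Two vertices of `X` joined outside `X` are not separated in `X` by a finite set. -/
def Closed (A V X : M) : Prop :=
  ∀ u v, u ∈ X → v ∈ X → Conn A ((V \ X) ∪ upair u v) u v →
    ∀ F, ¬ Inf F → u ∉ F → v ∉ F → Conn A (X \ F) u v

instance DP.closed {α : Type v} [Ctx M α] (A V : M) (s : α → M) [DF M s] :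
    DP M (no_index fun x => Closed A V (s x)) :=
  have : DP M fun z : M => Closed A V z := by unfold Closed; infer_instance
  DP.comp (fun z : M => Closed A V z) s

def Good (A V X : M) : Prop := X ⊆ V ∧ Closed A V X ∧ X ∉ bad A V

instance DP.good {α : Type v} [Ctx M α] (A V : M) (s : α → M) [DF M s] :
    DP M (no_index fun x => Good A V (s x)) :=
  have : DP M fun z : M => Good A V z := by unfold Good; infer_instance
  DP.comp (fun z : M => Good A V z) s

/-- A weak rank: finitely many vertices of least rank in each piece. -/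
def WR (A Y h : M) : Prop :=
  (∀ v, v ∈ Y → app h v ∈ om M) ∧ ∀ u, u ∈ Y →
    ¬ Inf (sep Y fun v => app h v = app h u ∧ Conn A (sep Y fun x => app h x ∉ app h u) u v)

/-- `C ⊆ W` is a countable connected set outside `y` with infinitely many neighbours in `y`. -/
def Wit (A W y C : M) : Prop :=
  C ⊆ W ∧ Ctbl C ∧ (∀ u, u ∈ C → u ∉ y) ∧ (∃ a, a ∈ C ∧ ∀ u, u ∈ C → Conn A C a u) ∧
    Inf (nb A y C)

instance DP.wit {α : Type v} [Ctx M α] (A : M) (r s t : α → M) [DF M r] [DF M s] [DF M t] :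
    DP M (no_index fun x => Wit A (r x) (s x) (t x)) :=
  have : DP M fun z : (M × M) × M => Wit A z.1.1 z.1.2 z.2 := by unfold Wit; infer_instance
  DP.comp (fun z : (M × M) × M => Wit A z.1.1 z.1.2 z.2) fun x => ((r x, s x), t x)

/-- The working form of the reflection principle. -/
def FRPi (M : Type v) [ZM M] : Prop :=
  ∀ κ S g : M, Reg κ → om1 M ∈ κ → GStat κ S → (∀ α, α ∈ S → (∃ a, a ∈ α) ∧ CofW α) →
    (∀ α, α ∈ S → app g α ⊆ κ ∧ Ctbl (app g α)) →
    ∃ I, I ⊆ κ ∧ Le I (om1 M) ∧ (∀ B, B ⊆ I → Ctbl B → ∃ a, a ∈ I ∧ ∀ b, b ∈ B → b ∈ a) ∧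
      (∀ α, α ∈ S → α ∈ I → app g α ⊆ I) ∧
      ∀ f : M, (∀ α, α ∈ S → α ∈ I → app f α ∈ α ∧ app f α ∈ app g α) →
        ∃ ξ, IsStationary (EE M) (sU I) (sep I fun α => α ∈ S ∧ app f α = ξ)

end Pool.Agent.Lib.MP_783f50_lc
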