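import Pool.Agent.Lib.MP_783f50_lc.FR.Card

/-! Every set is covered by an ordinal. -/

namespace Pool.Agent.Lib.MP_783f50_lc

open Pool.Agent.Lib.MP_2739cb_lc

set_option synthInstance.maxSize 100000

universe v

variable {M : Type v} [ZM M]

/-- The relation `r` is a copy of the order of the ordinal `a`. -/
def hart_C (r a : M) : Prop :=
  Od a ∧ ∃ f : M, (∀ x y, x ∈ a → y ∈ a → app f x = app f y → x = y) ∧
    ∀ s t, op s t ∈ r ↔ ∃ x y, y ∈ a ∧ x ∈ suc y ∧ s = app f x ∧ t = app f y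

theorem hart_mem {c x y : M} (hc : Od c) (hy : y ∈ c) (hx : x ∈ suc y) : x ∈ c := by
  rcases mem_suc.1 hx with h | rfl
  · exact hc.trans hy h
  · exact hy

theorem hart_sub {r a b : M} (ha : hart_C r a) (hb : hart_C r b) : a ⊆ b := by
  obtain ⟨oa, f, fi, fr⟩ := ha
  obtain ⟨ob, g, gi, gr⟩ := hb
  have key := mem_induction a (fun x => x ∈ b ∧ app f x = app g x) fun x hx ih => by
    obtain ⟨-, u, hu, -, -, e⟩ := (gr _ _).1 ((fr _ _).2 ⟨x, x, hx, self_mem_suc x, rfl, rfl⟩)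
    have h1 : x ⊆ u := fun y hy => by
      have hy' := oa.trans hx hy
      obtain ⟨h2, h3⟩ := ih y hy hy'
      obtain ⟨s, t, ht, hst, e1, e2⟩ :=
        (gr _ _).1 ((fr _ _).2 ⟨y, x, hx, mem_suc.2 (Or.inl hy), rfl, rfl⟩)
      have e3 : s = y := gi _ _ (hart_mem ob ht hst) h2 (e1.symm.trans h3)
      have e4 : t = u := gi _ _ ht hu (e2.symm.trans e)
      rw [e3, e4] at hst
      rcases mem_suc.1 hst with h | h
      · exact h
      · have e5 : y = x := fi _ _ hy' hx (by rw [h3, e, h])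
        rw [e5] at hy
        exact absurd hy (mem_irrefl _)
    rcases (oa.mem hx).sub (ob.mem hu) h1 with h | h
    · rw [← h] at hu e
      exact ⟨hu, e⟩
    · have hxb := ob.trans hu h
      obtain ⟨s, t, ht, hst, e1, e2⟩ :=
        (fr _ _).1 ((gr _ _).2 ⟨x, u, hu, mem_suc.2 (Or.inl h), rfl, rfl⟩)
      have e3 : t = x := fi _ _ ht hx (e2.symm.trans e.symm)
      rw [e3] at hst
      rcases mem_suc.1 hst with h' | h'
      · have h4 := ih s h' (oa.trans hx h')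
        have e5 : s = x := gi _ _ h4.1 hxb (h4.2.symm.trans e1.symm)
        rw [e5] at h'
        exact absurd h' (mem_irrefl _)
      · rw [h'] at e1
        exact ⟨hxb, e1.symm⟩
  exact fun x hx => (key x hx).1

/-- The order type of `r`. -/
noncomputable def hart_F (r : M) : M := mkS fun z => ∃ a, hart_C r a ∧ z ∈ a

theorem hart_mem_F (r z : M) : z ∈ hart_F r ↔ ∃ a, hart_C r a ∧ z ∈ a := by
  refine mem_mkS ?_ z
  by_cases h : ∃ a, hart_C r a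
  · obtain ⟨a, ha⟩ := h
    exact ⟨a, fun z => ⟨fun h => ⟨a, ha, h⟩, fun ⟨b, hb, h⟩ => hart_sub hb ha z h⟩⟩
  · exact ⟨∅, fun z => ⟨fun h => absurd h (not_mem_empty z), fun ⟨b, hb, _⟩ => absurd ⟨b, hb⟩ h⟩⟩

theorem hart_DF : DF M fun r : M => hart_F r :=
  have : DP M fun z : M × M => ∃ a, hart_C z.1 a ∧ z.2 ∈ a := by unfold hart_C; infer_instance
  DF.of_mem _ (fun r z => ∃ a, hart_C r a ∧ z ∈ a) hart_mem_F

theorem hart_cmp (a V : M) : Le V a ∨ ∃ f : M, (∀ x, x ∈ a → app f x ∈ V) ∧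
    ∀ x y, x ∈ a → y ∈ a → app f x = app f y → x = y := by
  obtain ⟨C, h1, h2, h3⟩ := exists_clique (prd a V)
    fun p q => ∀ a b a' b', p = op a b → q = op a' b' → (a = a' ↔ b = b')
  have happ : ∀ x b, op x b ∈ C → app C x = b := fun x b hx =>
    app_eq hx fun b' hb => (h2 _ _ hb hx _ _ _ _ rfl rfl).1 rfl
  by_cases h4 : ∀ n, n ∈ V → ∃ x, op x n ∈ C
  · refine Or.inl ⟨C, fun z hz => ?_⟩
    obtain ⟨x, hx⟩ := h4 z hz
    exact ⟨x, (op_mem_prd.1 (h1 _ hx)).1, happ _ _ hx⟩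
  push Not at h4
  obtain ⟨n, hn, h4⟩ := h4
  have h5 : ∀ z, z ∈ a → op z (app C z) ∈ C := fun z hz => by
    have : ∃ m, op z m ∈ C := by
      by_contra hc
      refine h4 z (h3 _ (op_mem_prd.2 ⟨hz, hn⟩) (fun a b a' b' e1 e2 => ?_) fun q hq =>
        ⟨fun a b a' b' e1 e2 => ?_, fun a b a' b' e1 e2 => ?_⟩)
      · exact iff_of_true (op_inj.1 (e1.symm.trans e2)).1 (op_inj.1 (e1.symm.trans e2)).2
      · obtain ⟨rfl, rfl⟩ := op_inj.1 e1
        exact iff_of_false (fun e => hc ⟨b', e ▸ e2 ▸ hq⟩) fun e => h4 a' (e ▸ e2 ▸ hq)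
      · obtain ⟨rfl, rfl⟩ := op_inj.1 e2
        exact iff_of_false (fun e => hc ⟨b, e ▸ e1 ▸ hq⟩) fun e => h4 a (e ▸ e1 ▸ hq)
    obtain ⟨m, hm⟩ := this
    rwa [happ _ _ hm]
  exact Or.inr ⟨C, fun x hx => (op_mem_prd.1 (h1 _ (h5 x hx))).2, fun x y hx hy e =>
    (h2 _ _ (h5 x hx) (h5 y hy) _ _ _ _ rfl rfl).2 e⟩

theorem exists_le_ord (V : M) : ∃ θ, Od θ ∧ Le V θ := by
  by_contra hc
  have := hart_DF (M := M)
  obtain ⟨H, hH⟩ := exists_img (pw (prd V V)) fun r => hart_F r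
  have h1 : ∀ a, Od a → a ∈ H := fun a ha => by
    rcases hart_cmp a V with h | ⟨f, f1, f2⟩
    · exact absurd ⟨a, ha, h⟩ hc
    obtain ⟨r, r1, r2⟩ := exists_rel V V
      fun s t => ∃ x y, y ∈ a ∧ x ∈ suc y ∧ s = app f x ∧ t = app f y
    have hr : hart_C r a := ⟨ha, f, f2, fun s t => (r2 s t).trans ⟨fun h => h.2.2, fun h => by
      obtain ⟨x, y, hy, hx, e1, e2⟩ := h
      exact ⟨e1 ▸ f1 x (hart_mem ha hy hx), e2 ▸ f1 y hy, x, y, hy, hx, e1, e2⟩⟩⟩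
    refine (hH a).2 ⟨r, mem_pw.2 r1, zext fun z => ?_⟩
    rw [hart_mem_F]
    exact ⟨fun h => ⟨a, hr, h⟩, fun ⟨b, hb, h⟩ => hart_sub hb hr z h⟩
  have h2 : ∀ a, a ∈ sep H (fun a => Od a) ↔ Od a := fun a =>
    mem_sep.trans ⟨fun h => h.2, fun h => ⟨h1 a h, h⟩⟩
  refine mem_irrefl (sep H fun a => Od a) ((h2 _).2 ⟨fun x hx y hy => ?_, fun x y hx hy => ?_⟩)
  · exact (h2 y).2 (((h2 x).1 hx).mem hy)
  · rcases od_tri ((h2 x).1 hx) ((h2 y).1 hy) with h | h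
    · rcases ((h2 x).1 hx).sub ((h2 y).1 hy) h with h | h
      · exact Or.inr (Or.inl h)
      · exact Or.inl h
    · exact Or.inr (Or.inr h)

end Pool.Agent.Lib.MP_783f50_lc
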