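import Pool.Agent.Lib.MP_783f50_lc.FR.Chain
import Pool.Agent.Lib.MP_783f50_lc.FR.Hart

/-! The singular step and the induction on sizes. -/

namespace Pool.Agent.Lib.MP_783f50_lc

open Pool.Agent.Lib.MP_2739cb_lc

set_option synthInstance.maxSize 100000

universe v

variable {M : Type v} [ZM M] {V A : M}

/-- The fibres of `r` have size at most `μ`. -/
def Fib (V κ μ r : M) : Prop := ∀ a, a ∈ κ → Le (sep V fun x => op a x ∈ r) μ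

instance DP.fib {α : Type v} [Ctx M α] (V κ μ : M) (s : α → M) [DF M s] :
    DP M (no_index fun x => Fib V κ μ (s x)) :=
  have : DP M fun z : M => Fib V κ μ z := by unfold Fib; infer_instance
  DP.comp (fun z : M => Fib V κ μ z) s

theorem Fib.le {κ μ r l : M} (h : Fib V κ μ r) (hl : Od l) (h1 : l ⊆ κ) (hω : om M ⊆ μ)
    (h2 : μ ⊆ l) : Le (zz V r l) l :=
  Le.cover hl (sub_trans hω h2) (le_of_sub (sub_refl l)) (fun a => sep V fun x => op a x ∈ r)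
    (fun a ha => (h a (h1 a ha)).mono' h2) fun _ hz =>
      let ⟨h3, a, h4, h5⟩ := mem_zz.1 hz; ⟨a, h4, mem_sep.2 ⟨h3, h5⟩⟩

theorem sing_one (hF : FRPi M) (hG : Gr V A) (hB : ¬ BadMinor V A) {κ μ L w r : M} (hκ : Od κ)
    (hc : ∀ l, l ∈ κ → ¬ Le κ l) (hμ : Od μ) (hω : om M ⊆ μ) (hL : Le L μ)
    (hL' : ∀ l, l ∈ L → l ∈ κ ∧ μ ⊆ l) (h2 : Fib V κ μ r) :
    ∃ r', r' ⊆ prd κ V ∧ Fib V κ μ r' ∧ (∀ a, a ∈ κ → app w a ∈ V → op a (app w a) ∈ r') ∧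
      ∀ l, l ∈ L → ∃ X, zz V r l ⊆ X ∧ X ⊆ zz V r' l ∧ Good A V X := by
  obtain ⟨e, he⟩ := choice L (pw (prd κ V)) (fun l f => ∃ X, zz V r l ⊆ X ∧ Good A V X ∧
      ∀ z, z ∈ X → ∃ a, a ∈ l ∧ app f a = z) fun l hl => by
    obtain ⟨h3, h4⟩ := hL' l hl
    obtain ⟨X, h5, h6, h7⟩ := exists_good hF hG hB hκ (hκ.mem h3) (sub_trans hω h4) (hc l h3)
      (W := zz V r l) (fun z hz => (mem_zz.1 hz).1)
      (h2.le (hκ.mem h3) (hκ.sub_of_mem h3) hω h4)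
    obtain ⟨f, h8, h9⟩ := h7.bdd h6.1
    refine ⟨f, mem_pw.2 fun p hp => ?_, X, h5, h6, h9⟩
    obtain ⟨a, b, ha, hb, rfl⟩ := mem_prd.1 (h8 p hp)
    exact op_mem_prd.2 ⟨hκ.trans h3 ha, hb⟩
  obtain ⟨r', h3, h4⟩ := exists_rel κ V fun a x =>
    x = app w a ∨ ∃ l, l ∈ L ∧ x = app (app e l) a
  refine ⟨r', h3, fun a ha => ?_, fun a ha h => (h4 _ _).2 ⟨ha, h, Or.inl rfl⟩, fun l hl => ?_⟩
  · obtain ⟨U, hU⟩ := exists_img L fun l => app (app e l) a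
    refine ((le_single hω (app w a)).union hμ hω (hL.img (fun l => app (app e l) a)
      fun z hz => (hU z).1 hz)).mono fun z hz => ?_
    simpa [hU] using ((h4 _ _).1 (mem_sep.1 hz).2).2.2
  · obtain ⟨-, X, h5, h6, h7⟩ := he l hl
    refine ⟨X, h5, fun z hz => ?_, h6⟩
    obtain ⟨a, h8, h9⟩ := h7 z hz
    exact mem_zz.2 ⟨h6.1 z hz, a, h8,
      (h4 _ _).2 ⟨hκ.trans (hL' l hl).1 h8, h6.1 z hz, Or.inr ⟨l, hl, h9.symm⟩⟩⟩

theorem sing_step (hF : FRPi M) (hG : Gr V A) (hB : ¬ BadMinor V A) {κ W : M} (hκ : Od κ)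
    (hc : ∀ l, l ∈ κ → ¬ Le κ l) (hω : om M ∈ κ) (hn : ¬ Reg κ)
    (ih : ∀ l, l ∈ κ → ∀ X, X ⊆ V → Le X l → ∃ h, RR A X X h) (hW : W ⊆ V)
    (hle : Le W κ) : ∃ h, RR A W W h := by
  have hsuc : ∀ x, x ∈ κ → suc x ∈ κ := fun x hx => by
    have h1 := hκ.union_mem hx hω
    have h2 : om M ⊆ x ∪ om M := fun z hz => by simp [hz]
    refine ((hκ.mem hx).suc.sub hκ fun z hz => ?_).resolve_left fun e => hc _ h1 ?_
    · exact (mem_suc.1 hz).elim (hκ.trans hx) fun h => h ▸ hx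
    · exact e ▸ Le.union (hκ.mem h1) h2 (le_of_sub fun z hz => by simp [hz]) (le_single h2 x)
  have h1 : om1 M ∈ κ := by
    rcases od_tri od_om1 hκ with h | h
    · exact (od_om1.sub hκ h).resolve_left fun e => hn (e ▸ reg_om1)
    · exact absurd (ctbl_of_mem_om1 h) (hc _ hω)
  obtain ⟨ξ, hξ, f, hf, hf'⟩ : ∃ ξ, ξ ∈ κ ∧ ∃ f : M, (∀ a, a ∈ ξ → app f a ∈ κ) ∧
      ∀ b, b ∈ κ → ∃ a, a ∈ ξ ∧ app f a ∉ b := by
    by_contra h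
    refine hn ⟨hκ, fun ξ hξ f hf => ?_⟩
    by_contra h2
    refine h ⟨ξ, hξ, f, hf, fun b hb => ?_⟩
    by_contra h3
    exact h2 ⟨b, hb, fun a ha => not_not.1 fun h4 => h3 ⟨a, ha, h4⟩⟩
  obtain ⟨μ, hμ⟩ : ∃ μ, μ = ξ ∪ om1 M := ⟨_, rfl⟩
  have hμκ : μ ∈ κ := hμ ▸ hκ.union_mem hξ h1
  have hμO := hκ.mem hμκ
  have hμ1 : om1 M ⊆ μ := fun z hz => by simp [hμ, hz]
  have hμω := sub_trans om_sub_om1 hμ1
  have hcof : ∀ x, x ∈ κ → ∃ a, a ∈ ξ ∧ x ∈ app f a := fun x hx => by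
    obtain ⟨a, h2, h3⟩ := hf' _ (hsuc x hx)
    refine ⟨a, h2, ?_⟩
    by_contra h4
    exact h3 (hκ.mem_suc_of_not (hf a h2) hx h4)
  obtain ⟨L, hL⟩ := exists_sep (suc κ) fun l => l = ∅ ∨
    (μ ⊆ l ∧ ∀ x, x ∈ l → x ∈ μ ∨ ∃ a, a ∈ ξ ∧ x ∈ app f a ∧ app f a ⊆ l)
  obtain ⟨L', hL'⟩ := exists_sep L fun l => l ∈ κ ∧ μ ⊆ l
  have hL'le : Le L' μ := by
    refine Le.mono' (θ := ξ) (le_of _ _ (fun a => sep κ fun x => x ∈ μ ∨
      ∃ a', a' ∈ ξ ∧ x ∈ app f a' ∧ app f a' ∈ app f a) fun l hl => ?_) fun z hz => by simp [hμ, hz]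
    obtain ⟨h2, h3, h4⟩ := (hL' l).1 hl
    obtain ⟨_, h5, ⟨a, h6, rfl, h7⟩, h8⟩ := exists_min κ
      (fun b => ∃ a, a ∈ ξ ∧ app f a = b ∧ l ∈ b) (let ⟨a, h5, h6⟩ := hcof l h3
        ⟨_, hf a h5, a, h5, rfl, h6⟩)
    refine ⟨a, h6, zext fun x => mem_sep.trans ⟨?_, fun hx => ⟨hκ.trans h3 hx, ?_⟩⟩⟩
    · rintro ⟨-, h9 | ⟨a', h9, h10, h11⟩⟩
      · exact h4 x h9
      · exact (od_tri (hκ.mem (hf a' h9)) (hκ.mem h3)).resolve_right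
          (fun h => h8 _ h11 (hf a' h9) ⟨a', h9, rfl, h⟩) x h10
    · rcases ((hL l).1 h2).2 with rfl | ⟨-, h9⟩
      · exact absurd hx (not_mem_empty x)
      · exact (h9 x hx).imp id fun ⟨a', h10, h11, h12⟩ =>
          ⟨a', h10, h11, (hκ.mem (hf a' h10)).mem_of_sub (hκ.mem h5) h12 h7⟩
  obtain ⟨w, hw⟩ := hle
  obtain ⟨s, hs⟩ := choice (sep (pw (prd κ V)) fun r => Fib V κ μ r) (pw (prd κ V))
    (fun r r' => Fib V κ μ r' ∧ (∀ a, a ∈ κ → app w a ∈ V → op a (app w a) ∈ r') ∧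
      ∀ l, l ∈ L' → ∃ X, zz V r l ⊆ X ∧ X ⊆ zz V r' l ∧ Good A V X) fun r hr =>
    let ⟨r', h2, h3⟩ := sing_one (w := w) hF hG hB hκ hc hμO hμω hL'le
      (fun l hl => ((hL' l).1 hl).2) (mem_sep.1 hr).2
    ⟨r', mem_pw.2 h2, h3⟩
  obtain ⟨Y, hY⟩ := exists_rec od_om1.suc (prd κ V) (fun _ y => app s y ∩ prd κ V)
    fun _ _ _ _ z hz => (mem_inter.1 hz).2
  have hfib : ∀ n, n ∈ suc (om1 M) → Fib V κ μ (app Y n) := by
    refine mem_induction _ _ fun n hn ih a ha => ?_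
    refine Le.cover hμO hμω (le_of_sub (sub_trans (sub_of_mem_suc od_om1 hn) hμ1))
      (fun m => sep V fun x => op a x ∈ app s (app Y m)) (fun m hm => ?_) fun z hz => ?_
    · have h2 := od_om1.suc.trans hn hm
      exact (hs _ (mem_sep.2 ⟨mem_pw.2 (hY m h2).1, ih m hm h2⟩)).2.1 a ha
    · obtain ⟨m, h2, h3⟩ := ((hY n hn).2 _).1 (mem_sep.1 hz).2
      exact ⟨m, h2, mem_sep.2 ⟨(mem_sep.1 hz).1, (mem_inter.1 h3).1⟩⟩
  have hs' := fun n (hn : n ∈ suc (om1 M)) => hs _ (mem_sep.2 ⟨mem_pw.2 (hY n hn).1, hfib n hn⟩)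
  have hsY : ∀ m n, n ∈ suc (om1 M) → m ∈ n → app s (app Y m) ⊆ app Y n := fun m n hn hm z hz =>
    ((hY n hn).2 z).2 ⟨m, hm, mem_inter.2 ⟨hz, mem_pw.1 (hs' m (od_om1.suc.trans hn hm)).1 z hz⟩⟩
  have h0 := self_mem_suc (om1 M)
  obtain ⟨h, h2⟩ := filt hG (r := app Y (om1 M)) (L := L) hκ (fun l hl => ((hL l).1 hl).1)
    (fun B hB' => by
      have h6 : B ⊆ suc κ := fun l hl => ((hL l).1 (hB' l hl)).1
      refine (hL _).2 ⟨(od_sU hκ.suc h6).mem_of_sub hκ.suc (fun z hz => ?_) (self_mem_suc κ), ?_⟩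
      · obtain ⟨l, h7, h8⟩ := mem_sU.1 hz
        exact sub_of_mem_suc hκ (h6 l h7) z h8
      refine (empty_or (sU B)).imp id fun ⟨x, hx⟩ => ⟨fun z hz => ?_, fun y hy => ?_⟩
      · obtain ⟨l, h7, h8⟩ := mem_sU.1 hx
        rcases ((hL l).1 (hB' l h7)).2 with rfl | h9
        · exact absurd h8 (not_mem_empty x)
        · exact mem_sU.2 ⟨l, h7, h9.1 z hz⟩
      · obtain ⟨l, h7, h8⟩ := mem_sU.1 hy
        rcases ((hL l).1 (hB' l h7)).2 with rfl | h9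
        · exact absurd h8 (not_mem_empty y)
        · exact (h9.2 y h8).imp id fun ⟨a, h10, h11, h12⟩ =>
            ⟨a, h10, h11, fun z hz => mem_sU.2 ⟨l, h7, h12 z hz⟩⟩)
    (fun x hx => by
      obtain ⟨a, h2, h3⟩ := hcof x hx
      have h4 := hκ.union_mem hμκ (hf a h2)
      exact ⟨_, (hL _).2 ⟨mem_suc.2 (Or.inl h4), Or.inr ⟨fun z hz => by simp [hz], fun z hz =>
        (mem_union.1 hz).imp id fun h => ⟨a, h2, h, fun t ht => by simp [ht]⟩⟩⟩, h4, by simp [h3]⟩)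
    fun l h2 h3 => by
    rcases ((hL l).1 h2).2 with rfl | ⟨h4, -⟩
    · rw [eq_empty (a := zz V (app Y (om1 M)) ∅) fun z hz => by simpa using (mem_zz.1 hz).2]
      exact ⟨good_empty, rr_of_ctbl (ctbl_om.mono (empty_sub _))⟩
    refine ⟨good_of_local (fun z hz => (mem_zz.1 hz).1) fun B h5 h6 => ?_,
      ih l h3 _ (fun z hz => (mem_zz.1 hz).1)
        ((hfib _ h0).le (hκ.mem h3) (hκ.sub_of_mem h3) hμω h4)⟩
    obtain ⟨j, hj⟩ := choice B (om1 M) (fun x m => x ∈ zz V (app s (app Y m)) l) fun x hx => by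
      obtain ⟨h7, a, h8, h9⟩ := mem_zz.1 (h5 x hx)
      obtain ⟨m, h10, h11⟩ := ((hY _ h0).2 _).1 h9
      exact ⟨m, h10, mem_zz.2 ⟨h7, a, h8, (mem_inter.1 h11).1⟩⟩
    obtain ⟨n, h7, h8⟩ := h6.bdd (fun x => app j x) fun x hx => (hj x hx).1
    have h9 : n ∈ suc (om1 M) := mem_suc.2 (Or.inl h7)
    obtain ⟨X, h10, h11, h12⟩ := (hs' n h9).2.2.2 l ((hL' l).2 ⟨h2, h3, h4⟩)
    exact ⟨X, fun x hx => h10 x (zz_mono (hsY _ n h9 (h8 x hx)) (sub_refl l) x (hj x hx).2),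
      sub_trans h11 (zz_mono (hsY n _ h0 h7) (sub_refl l)), h12⟩
  refine ⟨h, h2.restrict (sub_refl _) fun z hz => ?_⟩
  obtain ⟨a, h3, rfl⟩ := hw z hz
  exact mem_zz.2 ⟨hW _ hz, a, h3, hsY ∅ _ h0 empty_mem_om1 _
    ((hs' ∅ (mem_suc.2 (Or.inl empty_mem_om1))).2.2.1 a h3 (hW _ hz))⟩

theorem nst_of_frp (hF : FRPi M) (hG : Gr V A) (hB : ¬ BadMinor V A) :
    HasNST (EE M) (om M) V A := by
  obtain ⟨θ, h1, h2⟩ := exists_le_ord V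
  have key : ∀ κ, κ ∈ suc θ → ∀ X, X ⊆ V → Le X κ → ∃ h, RR A X X h := by
    refine mem_induction _ _ fun κ hκ ih X hX hle => ?_
    have hO := h1.suc.mem hκ
    have ih' := fun l (hl : l ∈ κ) => ih l hl (h1.suc.trans hκ hl)
    by_cases h3 : ∃ l, l ∈ κ ∧ Le κ l
    · obtain ⟨l, h4, h5⟩ := h3
      exact ih' l h4 X hX (hle.trans h5)
    rcases od_tri hO od_om with h4 | h4
    · exact rr_of_ctbl (hle.mono' h4)
    by_cases h5 : Reg κ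
    · exact reg_step hF hG hB h5 h4 ih' hX hle
    · exact sing_step hF hG hB hO (fun l hl h => h3 ⟨l, hl, h⟩) h4 h5 ih' hX hle
  obtain ⟨h, h3⟩ := key θ (self_mem_suc θ) V (sub_refl V) h2
  exact hasNST_of_rr hG h3

end Pool.Agent.Lib.MP_783f50_lc
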