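import Pool.Agent.Lib.MP_783f50_lc.FR.Pre
import Pool.Agent.Lib.MP_783f50_lc.FR.Sing
import Pool.Agent.Lib.MP_783f50_lc.FR.Conv
import Pool.Agent.Lib.MP_783f50_lc.FR.Trans

/-! The equivalence inside a working model. -/

namespace Pool.Agent.Lib.MP_783f50_lc

open Pool.Agent.Lib.MP_2739cb_lc

universe v

theorem minors_iff_frp (M : Type v) [ZM M] :
    (∀ V A : M, IsGraph (EE M) V A → Connected (EE M) (om M) A V →
      ¬ HasNST (EE M) (om M) V A → BadMinor V A) ↔ FRP (EE M) (om M) (om1 M) :=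
  ⟨fun h => frp_iff.2 (frpi_of_minors h), fun h _ _ h1 h2 h3 =>
    not_not.1 fun h4 => h3 (nst_of_frp (frp_iff.1 h) (gr_of h1 h2) h4)⟩

/-- A model of ZFC as a working model. -/
@[reducible] def zmOf {M : Type v} (E : M → M → Prop) (hE : IsZFC E) (w w₁ : M)
    (hw : IsOmega E w) (hw₁ : IsOmega1 E w w₁) : ZM M where
  mem y x := E x y
  zfc := hE
  w := w
  w1 := w₁
  hw := hw
  hw1 := (pre_fields E hE w w₁ hw hw₁).1
  clique := (pre_fields E hE w w₁ hw hw₁).2.1
  cunion := (pre_fields E hE w w₁ hw hw₁).2.2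

end Pool.Agent.Lib.MP_783f50_lc
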