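import Pool.Agent.Lib.MP_783f50_lc.FR.Core

/-! A forbidden minor lives in a set of size aleph one that has no weak rank. -/

namespace Pool.Agent.Lib.MP_783f50_lc

open Pool.Agent.Lib.MP_2739cb_lc

set_option synthInstance.maxSize 100000

universe v

variable {M : Type v} [ZM M] {V A : M}

theorem weak_app {f X Y a : M} (h : IsFun (EE M) f X Y) (ha : a ∈ X) :
    App (EE M) f a (app f a) := by
  obtain ⟨b, hb, -⟩ := ZM.zfc.app_total h ha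
  rwa [app_eq (app_iff.1 hb) fun b' hb' => ZM.zfc.app_unique h (app_iff.2 hb') hb]

theorem weak_le {θ X : M} (h : CardEq (EE M) θ X) : Le X θ := by
  obtain ⟨f, h1, h2⟩ := h
  refine ⟨f, fun z hz => ?_⟩
  obtain ⟨a, ha⟩ := h2 z hz
  have h3 := (ZM.zfc.app_mem h1.1 ha).1
  exact ⟨a, h3, ZM.zfc.app_unique h1.1 (weak_app h1.1 h3) ha⟩

theorem weak_le' {θ X : M} (h : CardLe (EE M) X θ) : Le X θ := by
  obtain ⟨f, h1⟩ := h
  exact le_of_inj X θ (fun a => app f a) (fun z hz => (ZM.zfc.app_mem h1.1 (weak_app h1.1 hz)).2)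
    fun z z' hz hz' e => h1.2 z z' _ (weak_app h1.1 hz) (e ▸ weak_app h1.1 hz')

theorem weak_inf {X : M} (h : CardLe (EE M) (om M) X) : Inf X := by
  obtain ⟨f, h1⟩ := h
  exact inf_om.img (fun a => app f a) (fun z hz => (ZM.zfc.app_mem h1.1 (weak_app h1.1 hz)).2)
    fun z z' hz hz' e => h1.2 z z' _ (weak_app h1.1 hz) (e ▸ weak_app h1.1 hz')

/-- The branch sets of a minor. -/
structure WeakBr (U B V A β : M) : Prop where
  sub : ∀ x, x ∈ U → app β x ⊆ V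
  ct : ∀ x, x ∈ U → Ctbl (app β x)
  ne : ∀ x, x ∈ U → ∃ a, a ∈ app β x
  con : ∀ x a b, x ∈ U → a ∈ app β x → b ∈ app β x → Conn A (app β x) a b
  dis : ∀ x y z, x ∈ U → y ∈ U → z ∈ app β x → z ∈ app β y → x = y
  adj : ∀ x y, x ∈ U → y ∈ U → op x y ∈ B → ∃ a b, a ∈ app β x ∧ b ∈ app β y ∧ op a b ∈ A

theorem weak_br {U B : M} (h : IsMinor (EE M) (om M) U B V A) : ∃ β, WeakBr U B V A β := by
  obtain ⟨β, C, h1, h2, h3, h4⟩ := h
  refine ⟨β, fun x hx => (h2 x _ (weak_app h1 hx)).1,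
    fun x hx => ctbl_of_cardLe (h2 x _ (weak_app h1 hx)).2.2,
    fun x hx => (connected_iff.1 (h2 x _ (weak_app h1 hx)).2.1).1,
    fun x a b hx => (connected_iff.1 (h2 x _ (weak_app h1 hx)).2.1).2 a b,
    fun x y z hx hy => h3 x y _ _ z (weak_app h1 hx) (weak_app h1 hy), fun x y hx hy e => ?_⟩
  obtain ⟨a, b, ha, hb, e'⟩ := h4 x y _ _ (app_iff.2 e) (weak_app h1 hx) (weak_app h1 hy)
  exact ⟨a, b, ha, hb, app_iff.1 e'⟩

theorem weak_star (hG : Gr V A) {U B β Y h : M} (hβ : WeakBr U B V A β)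
    (hY : ∀ x, x ∈ U → app β x ⊆ Y) (hW : WR A Y h) :
    ∃ k : M, (∀ x, x ∈ U → app k x ∈ om M) ∧ ∀ y m, y ∈ U → app k y ∉ m →
      ¬ Inf (sep U fun p => op y p ∈ B ∧ app k p = m) := by
  obtain ⟨r, hr⟩ := choice U Y
    (fun x a => a ∈ app β x ∧ ∀ z, z ∈ app β x → app h z ∉ app h a) fun x hx => by
      obtain ⟨a, ha⟩ := hβ.ne x hx
      obtain ⟨_, -, ⟨b, hb, rfl⟩, h2⟩ := exists_min (om M)
        (fun n => ∃ b, b ∈ app β x ∧ app h b = n) ⟨_, hW.1 a (hY x hx a ha), a, ha, rfl⟩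
      exact ⟨b, hY x hx b hb, hb, fun z hz h3 => h2 _ h3 (hW.1 z (hY x hx z hz)) ⟨z, hz, rfl⟩⟩
  obtain ⟨k, -, hk⟩ := exists_lam U fun x => app h (app r x)
  have k0 : ∀ x, x ∈ U → app k x ∈ om M := fun x hx => by rw [hk x hx]; exact hW.1 _ (hr x hx).1
  refine ⟨k, k0, fun y m hy hm hI => ?_⟩
  obtain ⟨p0, hp0⟩ := hI.nonempty
  obtain ⟨h1, h2, h3⟩ := mem_sep.1 hp0
  have hm0 : m ∈ om M := h3 ▸ k0 p0 h1
  have e0 : app h (app r p0) = m := by rw [← hk p0 h1, h3]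
  have hp : ∀ p, p ∈ U → app k p = m → app β p ⊆ sep Y fun x => app h x ∉ app h (app r p0) :=
    fun p hp e z hz => mem_sep.2 ⟨hY p hp z hz, by
      rw [e0, ← e, hk p hp]; exact (hr p hp).2.2 z hz⟩
  have hy' : app β y ⊆ sep Y fun x => app h x ∉ app h (app r p0) :=
    fun z hz => mem_sep.2 ⟨hY y hy z hz, fun h4 => by
      have h5 := (hr y hy).2.2 z hz
      rw [← hk y hy] at h5
      rw [e0] at h4
      rcases od_om.tri hm0 (k0 y hy) with h6 | h6 | h6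
      · exact h5 ((od_om.mem (k0 y hy)).trans h6 h4)
      · exact h5 (h6 ▸ h4)
      · exact hm h6⟩
  refine hW.2 _ (hr p0 h1).1 (hI.img (fun p => app r p) (fun p hq => ?_) fun p q hp' hq e => ?_)
  · obtain ⟨h4, h5, h6⟩ := mem_sep.1 hq
    refine mem_sep.2 ⟨(hr p h4).1, by rw [← hk p h4, h6, e0], ?_⟩
    obtain ⟨b0, a0, hb0, ha0, e1⟩ := hβ.adj y p0 hy h1 h2
    obtain ⟨b, a, hb, ha, e2⟩ := hβ.adj y p hy h4 h5
    exact (((((hβ.con p0 _ a0 h1 (hr p0 h1).2.1 ha0).mono (hp p0 h1 h3)).step (hy' b0 hb0)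
      (hG.sym _ _ e1)).trans ((hβ.con y b0 b hy hb0 hb).mono hy')).step (hp p h4 h6 a ha) e2).trans
      ((hβ.con p a _ h4 ha (hr p h4).2.1).mono (hp p h4 h6))
  · have h4 := (mem_sep.1 hp').1
    have h5 := (mem_sep.1 hq).1
    exact hβ.dis p q _ h4 h5 (hr p h4).2.1 (e ▸ (hr q h5).2.1)

theorem weak_core (hG : Gr V A) {U B β Y h : M} (hβ : WeakBr U B V A β)
    (hY : ∀ x, x ∈ U → app β x ⊆ Y) (hW : WR A Y h) :
    ∃ k : M, (∀ y N : M, y ∈ U → Inf N → (∀ x, x ∈ N → x ∈ U ∧ op y x ∈ B) →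
      ∃ p, p ∈ N ∧ app k p ∉ app k y) ∧
      ∀ p, p ∈ U → Ctbl (sep U fun y => op p y ∈ B ∧ app k p ∉ app k y) := by
  obtain ⟨k, k0, hk⟩ := weak_star hG hβ hY hW
  refine ⟨k, fun y N hy hN h1 => ?_, fun p hp => ?_⟩
  · by_contra hc
    push Not at hc
    exact not_inf_cover (k0 y hy) (fun m => sep U fun p => op y p ∈ B ∧ app k p = m)
      (fun m hm => hk y m hy fun h2 => mem_asymm' hm h2)
      (fun z hz => ⟨_, hc z hz, mem_sep.2 ⟨(h1 z hz).1, (h1 z hz).2, rfl⟩⟩) hN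
  · refine ctbl_om.cover' (fun m => sep U fun y => (op p y ∈ B ∧ app k y = m) ∧ app k p ∉ m)
      (fun m _ => ctbl_of_not_inf fun hI => ?_) fun z hz => ?_
    · obtain ⟨y, hy⟩ := hI.nonempty
      exact hk p m hp (mem_sep.1 hy).2.2
        (hI.mono fun z hz => mem_sep.2 ⟨(mem_sep.1 hz).1, (mem_sep.1 hz).2.1⟩)
    · obtain ⟨h1, h2, h3⟩ := mem_sep.1 hz
      exact ⟨_, k0 z h1, mem_sep.2 ⟨h1, ⟨h2, rfl⟩, h3⟩⟩

/-- A finite subset of a limit ordinal is bounded. -/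
theorem weak_bdd {δ N : M} (hδ : Od δ) (h0 : ∃ a, a ∈ δ) (hs : ∀ a, a ∈ δ → suc a ∈ δ)
    (hN : N ⊆ δ) (hf : ¬ Inf N) : ∃ b, b ∈ δ ∧ ∀ x, x ∈ N → x ∈ b := by
  obtain ⟨e, h1, h2⟩ := (ctbl_of_not_inf hf).exists_inj
  obtain ⟨n, hn, h3⟩ := bdd_of_not_inf hf (fun x => app e x) h1
  have key : ∀ n, n ∈ om M → ∃ b, b ∈ δ ∧ ∀ x, x ∈ N → app e x ∈ n → x ∈ b := by
    refine nat_induction _ ?_ ?_
    · obtain ⟨a, ha⟩ := h0
      exact ⟨a, ha, fun x _ h => absurd h (not_mem_empty _)⟩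
    · rintro n - ⟨b, hb, h4⟩
      by_cases hc : ∃ x0, x0 ∈ N ∧ app e x0 = n
      · obtain ⟨x0, h5, h6⟩ := hc
        refine ⟨b ∪ suc x0, hδ.union_mem hb (hs x0 (hN x0 h5)), fun x hx h7 => ?_⟩
        rcases mem_suc.1 h7 with h8 | h8
        · exact mem_union.2 (Or.inl (h4 x hx h8))
        · rw [h2 x x0 hx h5 (h8.trans h6.symm)]
          exact mem_union.2 (Or.inr (self_mem_suc x0))
      · exact ⟨b, hb, fun x hx h7 => (mem_suc.1 h7).elim (h4 x hx) fun h8 => absurd ⟨x, hx, h8⟩ hc⟩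
  obtain ⟨b, hb, h4⟩ := key n hn
  exact ⟨b, hb, fun x hx => h4 x hx (h3 x hx)⟩

theorem weak_cover {U B β : M} (hβ : WeakBr U B V A β) (hU : Le U (om1 M)) :
    ∃ Y0, Y0 ⊆ V ∧ Le Y0 (om1 M) ∧ ∀ x, x ∈ U → app β x ⊆ Y0 := by
  obtain ⟨Y0, hY⟩ := exists_sep V fun z => ∃ x, x ∈ U ∧ z ∈ app β x
  exact ⟨Y0, fun z hz => ((hY z).1 hz).1, Le.cover od_om1 om_sub_om1 hU (fun x => app β x)
    (fun x hx => (ctbl_iff_le.1 (hβ.ct x hx)).mono' om_sub_om1) fun z hz => ((hY z).1 hz).2,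
    fun x hx z hz => (hY z).2 ⟨hβ.sub x hx z hz, x, hx, hz⟩⟩

theorem exists_no_wr (hG : Gr V A) (hB : BadMinor V A) :
    ∃ Y0, Y0 ⊆ V ∧ Le Y0 (om1 M) ∧ ∀ Y h, Y0 ⊆ Y → ¬ WR A Y h := by
  rcases hB with ⟨U, B, h1, -, ⟨P, Q, h2, h3, h4, h5, h6, h7⟩, h8⟩ | ⟨B, S, h1, -, h2, h3, h8⟩
  · obtain ⟨β, hβ⟩ := weak_br h8
    have hP : Ctbl P := ctbl_iff_le.2 (weak_le h4)
    obtain ⟨Y0, a1, a2, a3⟩ := weak_cover hβ
      ((Le.union od_om1 om_sub_om1 ((weak_le h4).mono' om_sub_om1) (weak_le h5)).mono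
        fun z hz => mem_union.2 ((h2 z).1 hz))
    refine ⟨Y0, a1, a2, fun Y h hY hW => ?_⟩
    obtain ⟨k, k1, k2⟩ := weak_core hG hβ (fun x hx => sub_trans (a3 x hx) hY) hW
    have hQ : Ctbl Q := hP.cover' (fun p => sep U fun y => op p y ∈ B ∧ app k p ∉ app k y)
      (fun p hp => k2 p ((h2 p).2 (Or.inl hp))) fun y hy => by
        obtain ⟨N, b1, b2⟩ := h7 y hy
        have b3 : ∀ x, x ∈ N → x ∈ P := fun x hx =>
          (h6 y x (b2 x hx)).elim (fun h => absurd hy (h3 y h.1)) fun h => h.2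
        obtain ⟨p, b4, b5⟩ := k1 y N ((h2 y).2 (Or.inr hy)) (weak_inf b1)
          fun x hx => ⟨(h2 x).2 (Or.inl (b3 x hx)), app_iff.1 (b2 x hx)⟩
        exact ⟨p, b3 p b4, mem_sep.2 ⟨(h2 y).2 (Or.inr hy),
          app_iff.1 (h1.2.1 _ _ (b2 p b4)), b5⟩⟩
    obtain ⟨f, hf, -⟩ := h5
    exact not_ctbl_om1 (ctbl_iff_le.2 ((weak_le' ⟨f, hf⟩).trans (ctbl_iff_le.1 hQ)))
  · obtain ⟨β, hβ⟩ := weak_br h8
    obtain ⟨Y0, a1, a2, a3⟩ := weak_cover hβ (le_of_sub (sub_refl _))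
    refine ⟨Y0, a1, a2, fun Y h hY hW => ?_⟩
    obtain ⟨k, k1, k2⟩ := weak_core hG hβ (fun x hx => sub_trans (a3 x hx) hY) hW
    obtain ⟨f, -, hf⟩ := exists_lam (om1 M) fun a => suc a
    have h4 := gstat_of_stationary reg_om1 om_mem_om1 h2
    have h5 := h4.inter od_om1 (f := f) fun a ha => by rw [hf a ha]; exact suc_mem_om1 ha
    obtain ⟨a, ha, S', h6, h7⟩ := fodor reg_om1 om_mem_om1 h5
      (fun δ a => op δ a ∈ B ∧ app k a ∉ app k δ) fun δ hδ => by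
        obtain ⟨b1, b2, b3⟩ := mem_sep.1 hδ
        have b4 := h4.1 δ b1
        have b5 : Inf (sep δ fun x => op δ x ∈ B) := by
          by_contra hc
          obtain ⟨b, hb, b6⟩ := weak_bdd (od_om1.mem b4) b2 (fun a ha => by
            rw [← hf a (od_om1.trans b4 ha)]; exact b3 a ha) (fun z hz => (mem_sep.1 hz).1) hc
          obtain ⟨c, c1, c2, c3⟩ := (h3 δ b1).2 b hb
          have c4 := b6 c (mem_sep.2 ⟨c1, app_iff.1 c2⟩)
          rcases c3 with c3 | rfl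
          · exact mem_asymm' c3 c4
          · exact mem_irrefl _ c4
        obtain ⟨p, b6, b7⟩ := k1 δ _ b4 b5
          fun x hx => ⟨od_om1.trans b4 (mem_sep.1 hx).1, (mem_sep.1 hx).2⟩
        exact ⟨p, (mem_sep.1 b6).1, (mem_sep.1 b6).2, b7⟩
    have h9 : Ctbl S' := (k2 a ha).mono fun δ hδ => mem_sep.2 ⟨h6.1 δ hδ,
      app_iff.1 (h1.2.1 _ _ (app_iff.2 (h7 δ hδ).2.1)), (h7 δ hδ).2.2⟩
    obtain ⟨b, hb, h10⟩ := h9.bdd (fun x => x) h6.1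
    obtain ⟨l, h11, h12⟩ := (fstat_iff.2 h6).unbdd b hb
    exact mem_asymm' h12 (h10 l h11)

end Pool.Agent.Lib.MP_783f50_lc
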