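import Pool.Agent.Lib.MP_783f50_lc.FR.Anc
import Pool.Agent.Lib.MP_783f50_lc.FR.Weak

/-! The graph of a ladder system: initial segments of the ladders together with their tops. -/

namespace Pool.Agent.Lib.MP_783f50_lc

open Pool.Agent.Lib.MP_2739cb_lc

set_option synthInstance.maxSize 100000

universe v

variable {M : Type v} [ZM M]

/-- The restriction of `t` to `n`. -/
noncomputable def nd (κ t n : M) : M :=
  sep (prd (om M) κ) fun p => p1 p ∈ n ∧ p2 p = app t (p1 p)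

instance DF.nd {α : Type v} [Ctx M α] (κ : M) (s t : α → M) [DF M s] [DF M t] :
    DF M (no_index fun x => nd κ (s x) (t x)) :=
  have : DF M fun z : M × M => MP_783f50_lc.nd κ z.1 z.2 := by
    unfold MP_783f50_lc.nd; infer_instance
  DF.comp (fun z : M × M => MP_783f50_lc.nd κ z.1 z.2) fun x => (s x, t x)

theorem op_mem_nd {κ t n m x : M} :
    op m x ∈ nd κ t n ↔ (m ∈ om M ∧ x ∈ κ) ∧ m ∈ n ∧ x = app t m := by
  rw [nd, mem_sep, op_mem_prd, p1_op, p2_op]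

theorem nd_sub {κ t n : M} : nd κ t n ⊆ prd (om M) κ := fun _ hp => (mem_sep.1 hp).1

theorem nd_congr {κ t t' n : M} (h : ∀ m, m ∈ n → app t m = app t' m) : nd κ t n = nd κ t' n :=
  zext fun p => by
    rw [nd, nd, mem_sep, mem_sep]
    exact and_congr_right fun _ => and_congr_right fun h1 => by rw [h _ h1]

theorem empty_not_mem_nd {κ t n : M} : ∅ ∉ nd κ t n := fun h => by
  obtain ⟨a, b, -, -, e⟩ := mem_prd.1 (nd_sub _ h)
  exact not_mem_empty ({a} : M) (by rw [e]; simp [op])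

theorem dm_nd {κ t n : M} (ht : ∀ m, m ∈ om M → app t m ∈ κ) (hn : n ∈ om M) :
    dm (om M) (nd κ t n) = n := zext fun m => by
  rw [mem_dm]
  exact ⟨fun ⟨_, _, h⟩ => (op_mem_nd.1 h).2.1, fun h => have h1 := od_om.trans hn h
    ⟨h1, _, op_mem_nd.2 ⟨⟨h1, ht m h1⟩, h, rfl⟩⟩⟩

theorem nd_inj {κ t t' n n' : M} (ht : ∀ m, m ∈ om M → app t m ∈ κ)
    (ht' : ∀ m, m ∈ om M → app t' m ∈ κ) (hn : n ∈ om M) (hn' : n' ∈ om M)
    (h : nd κ t n = nd κ t' n') : n = n' ∧ ∀ m, m ∈ n → app t m = app t' m :=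
  ⟨by rw [← dm_nd ht hn, h, dm_nd ht' hn'], fun m hm => have h1 := od_om.trans hn hm
    (op_mem_nd.1 (h ▸ op_mem_nd.2 ⟨⟨h1, ht m h1⟩, hm, rfl⟩)).2.2⟩

/-- `v` is the top `α` or an initial segment of its ladder. -/
def St (κ s α v : M) : Prop := v = α ∨ ∃ n, n ∈ om M ∧ v = nd κ (app s α) n

instance DP.st {α : Type v} [Ctx M α] (κ s : M) (r t : α → M) [DF M r] [DF M t] :
    DP M (no_index fun x => St κ s (r x) (t x)) :=
  have : DP M fun z : M × M => St κ s z.1 z.2 := by unfold St; infer_instance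
  DP.comp (fun z : M × M => St κ s z.1 z.2) fun x => (r x, t x)

structure Lad (κ S s V A : M) : Prop where
  od : Od κ
  sub : S ⊆ κ
  ne : ∀ α, α ∈ S → ∅ ∈ α
  val : ∀ α n, α ∈ S → n ∈ om M → app (app s α) n ∈ α
  hV : ∀ v, v ∈ V ↔ ∃ α, α ∈ S ∧ St κ s α v
  hA1 : A ⊆ prd V V
  hA : ∀ u v, op u v ∈ A ↔ u ≠ v ∧ ∃ α, α ∈ S ∧ St κ s α u ∧ St κ s α v

theorem exists_lad {κ S s : M} (h1 : Od κ) (h2 : S ⊆ κ) (h3 : ∀ α, α ∈ S → ∅ ∈ α)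
    (h4 : ∀ α n, α ∈ S → n ∈ om M → app (app s α) n ∈ α) : ∃ V A, Lad κ S s V A := by
  obtain ⟨V, hV⟩ := exists_sep (κ ∪ pw (prd (om M) κ)) fun v => ∃ α, α ∈ S ∧ St κ s α v
  have hV' : ∀ v, v ∈ V ↔ ∃ α, α ∈ S ∧ St κ s α v := fun v => (hV v).trans ⟨And.right, fun h =>
    ⟨by
      obtain ⟨α, h5, rfl | ⟨n, -, rfl⟩⟩ := h
      · exact mem_union.2 (Or.inl (h2 _ h5))
      · exact mem_union.2 (Or.inr (mem_pw.2 nd_sub)), h⟩⟩
  obtain ⟨A, hA1, hA⟩ := exists_rel V V fun u v => u ≠ v ∧ ∃ α, α ∈ S ∧ St κ s α u ∧ St κ s α v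
  exact ⟨V, A, h1, h2, h3, h4, hV', hA1, fun u v => (hA u v).trans ⟨fun h => h.2.2, fun h =>
    let ⟨α, h5, h6, h7⟩ := h.2; ⟨(hV' u).2 ⟨α, h5, h6⟩, (hV' v).2 ⟨α, h5, h7⟩, h⟩⟩⟩

variable {κ S s V A : M}

theorem Lad.val' (h : Lad κ S s V A) {α : M} (hα : α ∈ S) :
    ∀ m, m ∈ om M → app (app s α) m ∈ κ := fun m hm => h.od.trans (h.sub α hα) (h.val α m hα hm)

theorem Lad.sym (h : Lad κ S s V A) : Sym A := fun u v e =>
  let ⟨h1, α, h2, h3, h4⟩ := (h.hA u v).1 e; (h.hA v u).2 ⟨h1.symm, α, h2, h4, h3⟩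

theorem Lad.graph (h : Lad κ S s V A) : IsGraph (EE M) V A :=
  isGraph_of h.hA1 h.sym fun a e => ((h.hA a a).1 e).1 rfl

theorem Lad.conn (h : Lad κ S s V A) (hS : ∃ α, α ∈ S) : Connected (EE M) (om M) A V := by
  have h1 : ∀ α, St κ s α ∅ := fun α => Or.inr ⟨∅, empty_mem_om,
    (eq_empty fun p hp => not_mem_empty _ (mem_sep.1 hp).2.1).symm⟩
  obtain ⟨α, hα⟩ := hS
  have h2 : ∅ ∈ V := (h.hV _).2 ⟨α, hα, h1 α⟩
  refine connected_of h.sym h2 fun u hu => ?_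
  by_cases e : ∅ = u
  · exact e ▸ Conn.refl h2
  · obtain ⟨β, h3, h4⟩ := (h.hV u).1 hu
    exact (Conn.refl h2).step hu ((h.hA _ _).2 ⟨e, β, h3, h1 β, h4⟩)

theorem Lad.no_nst (h : Lad κ S s V A) (hκ : Reg κ) (hω : om M ∈ κ) (hS : GStat κ S) :
    ¬ HasNST (EE M) (om M) V A := by
  intro hN
  obtain ⟨R, h1, h2⟩ := nst_anc (gr_of h.graph (h.conn hS.nonempty)) hN
  have key : ∀ m, m ∈ om M → ∀ S', S' ⊆ S → GStat κ S' → ∃ S'', S'' ⊆ S' ∧ GStat κ S'' ∧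
      ∀ α α' j, α ∈ S'' → α' ∈ S'' → j ∈ m → app (app s α) j = app (app s α') j := by
    refine nat_induction _ (fun S' _ h3 => ⟨S', sub_refl _, h3, fun _ _ j _ _ hj =>
      absurd hj (not_mem_empty j)⟩) fun m hm ih S' h3 h4 => ?_
    obtain ⟨S1, h5, h6, h7⟩ := ih S' h3 h4
    obtain ⟨a, -, S2, h8, h9⟩ := fodor hκ hω h6 (fun δ a => app (app s δ) m = a)
      fun δ hδ => ⟨_, h.val δ m (h3 δ (h5 δ hδ)) hm, rfl⟩
    refine ⟨S2, fun δ hδ => h5 δ (h9 δ hδ).1, h8, fun α α' j h10 h11 hj => ?_⟩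
    rcases mem_suc.1 hj with h12 | rfl
    · exact h7 α α' j (h9 α h10).1 (h9 α' h11).1 h12
    · exact (h9 α h10).2.trans (h9 α' h11).2.symm
  obtain ⟨n, -, S1, h3, h4⟩ := fodor hκ hω (hS.above h.od hω)
    (fun δ n => n ∈ om M ∧ op δ (nd κ (app s δ) n) ∈ R) fun δ hδ => by
      obtain ⟨h3, h4⟩ := mem_sep.1 hδ
      by_contra hc
      refine h1 δ ((h.hV δ).2 ⟨δ, h3, Or.inl rfl⟩) (inf_om.img (fun n => nd κ (app s δ) n)
        (fun n hn => mem_sep.2 ⟨(h.hV _).2 ⟨δ, h3, Or.inr ⟨n, hn, rfl⟩⟩, ?_⟩)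
        fun n n' hn hn' e => (nd_inj (h.val' h3) (h.val' h3) hn hn' e).1)
      exact (h2 δ _ ((h.hA _ _).2 ⟨fun e => empty_not_mem_nd (e ▸ h.ne δ h3), δ, h3, Or.inl rfl,
        Or.inr ⟨n, hn, rfl⟩⟩)).resolve_left fun e =>
          hc ⟨n, (h.od.mem (h.sub δ h3)).trans h4 hn, hn, e⟩
  obtain ⟨α0, h5⟩ := h3.nonempty
  have h6 : S1 ⊆ S := fun δ hδ => (mem_sep.1 (h4 δ hδ).1).1
  have hn := (h4 α0 h5).2.1
  obtain ⟨S2, h7, h8, h9⟩ := key n hn S1 h6 h3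
  obtain ⟨α, h10⟩ := h8.nonempty
  have h11 : Ctbl S2 := (ctbl_of_not_inf (h1 (nd κ (app s α) n)
    ((h.hV _).2 ⟨α, h6 α (h7 α h10), Or.inr ⟨n, hn, rfl⟩⟩))).mono fun δ hδ =>
      mem_sep.2 ⟨(h.hV δ).2 ⟨δ, h6 δ (h7 δ hδ), Or.inl rfl⟩,
        nd_congr (fun j hj => h9 δ α j hδ h10 hj) ▸ (h4 δ (h7 δ hδ)).2.2⟩
  obtain ⟨b, h12, h13⟩ := hκ.bdd hω h11 (fun x => x) h8.1
  obtain ⟨δ, h14⟩ := (h8.above h.od h12).nonempty
  exact mem_asymm' (mem_sep.1 h14).2 (h13 δ (mem_sep.1 h14).1)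

/-- A finite-to-one choice of initial segments for the tops in `Z`. -/
def Tr (κ s Z c : M) : Prop :=
  (∀ α, α ∈ Z → app c α ∈ om M) ∧ ∀ t, ¬ Inf (sep Z fun α => nd κ (app s α) (app c α) = t)

theorem Lad.wr (h : Lad κ S s V A) {Z c : M} (hc : Tr κ s Z c) :
    ∃ r, WR A (sep V fun v => v ∈ S → v ∈ Z) r := by
  obtain ⟨Y, hY⟩ : ∃ Y, Y = sep V fun v => v ∈ S → v ∈ Z := ⟨_, rfl⟩
  have hY' : ∀ v, v ∈ Y ↔ v ∈ V ∧ (v ∈ S → v ∈ Z) := fun v => hY ▸ mem_sep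
  rw [← hY]
  obtain ⟨r, -, hr⟩ := exists_lam Y fun v => zite (v ∈ S) (app c v) (dm (om M) v)
  have h1 : ∀ v α, v ∈ Y → α ∈ S → St κ s α v → (v = α ∧ α ∈ Z ∧ app r v = app c α) ∨
      (app r v ∈ om M ∧ v = nd κ (app s α) (app r v)) := by
    rintro v α hv hα (rfl | ⟨n, hn, rfl⟩)
    · exact Or.inl ⟨rfl, ((hY' v).1 hv).2 hα, by rw [hr v hv, zite_pos hα]⟩
    · right
      rw [hr _ hv, zite_neg fun e => empty_not_mem_nd (h.ne _ e), dm_nd (h.val' hα) hn]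
      exact ⟨hn, rfl⟩
  have h2 : ∀ v, v ∈ Y → app r v ∈ om M := fun v hv => by
    obtain ⟨α, h2, h3⟩ := (h.hV v).1 ((hY' v).1 hv).1
    rcases h1 v α hv h2 h3 with h4 | h4
    · exact h4.2.2 ▸ hc.1 α h4.2.1
    · exact h4.1
  have h3 : ∀ v n α α', v ∈ Y → n ∈ om M → app r v ∉ n → α ∈ S → α' ∈ S → St κ s α v →
      St κ s α' v → nd κ (app s α) n = nd κ (app s α') n := by
    intro v n α α' hv hn h3 hα hα' h4 h5
    rcases h1 v α hv hα h4 with h6 | h6 <;> rcases h1 v α' hv hα' h5 with h7 | h7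
    · rw [← h6.1, ← h7.1]
    · exact absurd (h7.2 ▸ h6.1 ▸ h.ne α hα) empty_not_mem_nd
    · exact absurd (h6.2 ▸ h7.1 ▸ h.ne α' hα') empty_not_mem_nd
    · exact nd_congr fun m hm => (nd_inj (h.val' hα) (h.val' hα') h6.1 h6.1
        (h6.2.symm.trans h7.2)).2 m
        ((od_tri (od_om.mem hn) (od_om.mem h6.1)).resolve_right h3 m hm)
  refine ⟨r, h2, fun u hu hi => ?_⟩
  obtain ⟨α0, h4, h5⟩ := (h.hV u).1 ((hY' u).1 hu).1
  refine not_inf_union (not_inf_single (nd κ (app s α0) (app r u)))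
    (hc.2 (nd κ (app s α0) (app r u))) (hi.mono fun v hv => ?_)
  obtain ⟨h6, h7, h8⟩ := mem_sep.1 hv
  have h9 : ∀ α, α ∈ S → St κ s α v →
      nd κ (app s α) (app r u) = nd κ (app s α0) (app r u) := by
    refine h8.ind (fun v => ∀ α, α ∈ S → St κ s α v →
      nd κ (app s α) (app r u) = nd κ (app s α0) (app r u))
      (fun α h9 h10 => h3 u _ α α0 hu (h2 u hu) (mem_irrefl _) h9 h4 h10 h5)
      fun x y _ hy e ih α h9 h10 => ?_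
    obtain ⟨-, β, h11, h12, h13⟩ := (h.hA _ _).1 e
    exact (h3 y _ α β (mem_sep.1 hy).1 (h2 u hu) (mem_sep.1 hy).2 h9 h11 h10 h13).trans
      (ih β h11 h12)
  obtain ⟨α, h10, h11⟩ := (h.hV v).1 ((hY' v).1 h6).1
  rcases h1 v α h6 h10 h11 with ⟨rfl, h12, h13⟩ | h12
  · exact mem_union.2 (Or.inr (mem_sep.2 ⟨h12, by rw [← h13, h7]; exact h9 v h10 h11⟩))
  · exact mem_union.2 (Or.inl (mem_single.2 (by rw [h12.2, h7]; exact h9 α h10 h11)))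

theorem Lad.exists_notr (h : Lad κ S s V A) (hS : ∃ α, α ∈ S) (hB : BadMinor V A) :
    ∃ Z, Z ⊆ S ∧ Le Z (om1 M) ∧ ∀ c, ¬ Tr κ s Z c := by
  obtain ⟨Y0, h1, h2, h3⟩ := exists_no_wr (gr_of h.graph (h.conn hS)) hB
  refine ⟨Y0 ∩ S, fun z hz => (mem_inter.1 hz).2, h2.mono fun z hz => (mem_inter.1 hz).1,
    fun c hc => ?_⟩
  obtain ⟨r, hr⟩ := h.wr hc
  exact h3 _ r (fun z hz => mem_sep.2 ⟨h1 z hz, fun h4 => mem_inter.2 ⟨hz, h4⟩⟩) hr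

end Pool.Agent.Lib.MP_783f50_lc
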