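import Pool.Agent.Lib.MP_783f50_lc.FR.Core

/-! A stationary set of witnesses along an enumeration of length omega one gives a minor. -/

namespace Pool.Agent.Lib.MP_783f50_lc

open Pool.Agent.Lib.MP_2739cb_lc

set_option synthInstance.maxSize 100000

universe v

variable {M : Type v} [ZM M] {V A : M}

theorem one_of_setup (hG : Gr V A) {g C S f : M} (h : Setup V A g C S f) : BadMinor V A := by
  by_cases h5 : ∃ β, β ∈ om1 M ∧
    ∀ γ, γ ∈ om1 M → ∃ α, α ∈ S ∧ γ ∈ α ∧ Inf (nb A (yy V g β) (app C α))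
  · obtain ⟨β, h6, h7⟩ := h5
    exact Or.inl (case1 hG h h6 h7)
  push Not at h5
  obtain ⟨k, hk⟩ := choice (om1 M) (om1 M)
    (fun β γ => ∀ α, α ∈ S → γ ∈ α → ¬ Inf (nb A (yy V g β) (app C α))) h5
  refine Or.inr (case2 (g := g) (C := C) (S := sep S fun δ => Cl k δ) (f := f) hG
    ⟨h.gV, h.st.inter fun a ha => (hk a ha).1, fun α hα => h.sub α (mem_sep.1 hα).1,
      fun α hα => h.ct α (mem_sep.1 hα).1, fun α u hα => h.dis α u (mem_sep.1 hα).1,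
      fun α hα => h.con α (mem_sep.1 hα).1, fun α hα => h.inf α (mem_sep.1 hα).1, h.f1, h.f2,
      fun η α hη hα => h.f3 η α hη (mem_sep.1 hα).1, fun α hα => h.cl α (mem_sep.1 hα).1, h.yc⟩
    fun δ β hδ hβ => ?_)
  obtain ⟨h6, h7⟩ := mem_sep.1 hδ
  exact (hk β (od_om1.trans (h.st.1 δ h6) hβ)).2 δ h6 (h7 β hβ)

/-- A countable part of the range of an enumeration appears at a countable stage. -/
theorem one_stage {g U : M} (hU : Ctbl U) (h : U ⊆ yy V g (om1 M)) :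
    ∃ b, b ∈ om1 M ∧ U ⊆ yy V g b := by
  obtain ⟨i, hi⟩ := choice U (om1 M) (fun t a => app g a = t) fun t ht => (mem_yy.1 (h t ht)).2
  obtain ⟨b, h1, h2⟩ := hU.bdd (fun t => app i t) fun t ht => (hi t ht).1
  exact ⟨b, h1, fun t ht => mem_yy.2 ⟨(mem_yy.1 (h t ht)).1, _, h2 t ht, (hi t ht).2⟩⟩

/-- An enumeration of a connected set that contains the range of `g`. -/
theorem one_enum (hG : Gr V A) {g : M} (gV : ∀ a, a ∈ om1 M → app g a ∈ V) :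
    ∃ g' : M, (∀ a, a ∈ om1 M → app g' a ∈ V) ∧ yy V g (om1 M) ⊆ yy V g' (om1 M) ∧
      ∀ u v, u ∈ yy V g' (om1 M) → v ∈ yy V g' (om1 M) → Conn A (yy V g' (om1 M)) u v := by
  obtain ⟨a, ha⟩ := hG.ne
  obtain ⟨K, hK⟩ := choice (om1 M) (pw V)
    (fun ξ K => Ctbl K ∧ app g ξ ∈ K ∧ ∀ u, u ∈ K → Conn A K a u) fun ξ hξ =>
      let ⟨K, h1, h2⟩ := (hG.conn a _ ha (gV ξ hξ)).hull1; ⟨K, mem_pw.2 h1, h2⟩
  obtain ⟨W, hW⟩ := exists_sep V fun u => ∃ ξ, ξ ∈ om1 M ∧ u ∈ app K ξ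
  have hKW : ∀ ξ, ξ ∈ om1 M → app K ξ ⊆ W := fun ξ hξ u hu =>
    (hW u).2 ⟨mem_pw.1 (hK ξ hξ).1 u hu, ξ, hξ, hu⟩
  have hle : Le W (om1 M) := Le.cover od_om1 om_sub_om1 (le_of_sub (sub_refl _))
    (fun ξ => app K ξ) (fun ξ hξ => (ctbl_iff_le.1 (hK ξ hξ).2.1).mono' om_sub_om1)
    fun u hu => ((hW u).1 hu).2
  have haW : a ∈ W := hKW ∅ empty_mem_om1 a
    ((hK ∅ empty_mem_om1).2.2.2 _ (hK ∅ empty_mem_om1).2.2.1).left_mem
  obtain ⟨g', h1, h2⟩ := hle.total haW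
  have e : yy V g' (om1 M) = W := zext fun u =>
    ⟨fun hu => let ⟨_, b, h3, h4⟩ := mem_yy.1 hu; h4 ▸ h1 b h3,
      fun hu => mem_yy.2 ⟨((hW u).1 hu).1, h2 u hu⟩⟩
  have hc : ∀ u, u ∈ W → Conn A W a u := fun u hu =>
    let ⟨_, ξ, h3, h4⟩ := (hW u).1 hu; ((hK ξ h3).2.2.2 u h4).mono (hKW ξ h3)
  refine ⟨g', fun b hb => ((hW _).1 (h1 b hb)).1, ?_, ?_⟩
  · rw [e]
    intro u hu
    obtain ⟨-, ξ, h3, rfl⟩ := mem_yy.1 hu
    exact hKW ξ h3 _ (hK ξ h3).2.2.1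
  · rw [e]
    exact fun u v hu hv => ((hc u hu).symm hG.sym).trans (hc v hv)

theorem bad_of_stat (hG : Gr V A) {g : M} (gV : ∀ a, a ∈ om1 M → app g a ∈ V)
    (st : GStat (om1 M) (sep (om1 M) fun α => ∃ C, Wit A (yy V g (om1 M)) (yy V g α) C)) :
    BadMinor V A := by
  obtain ⟨g', gV', hsub, hyc⟩ := one_enum hG gV
  obtain ⟨S0, hS0⟩ : ∃ S0 : M, S0 = sep (om1 M) fun α =>
    ∃ C, Wit A (yy V g (om1 M)) (yy V g α) C := ⟨_, rfl⟩
  have hst : FStat S0 := hS0 ▸ fstat_iff.2 st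
  have hyV : yy V g (om1 M) ⊆ V := fun u hu => (mem_yy.1 hu).1
  obtain ⟨C, hC⟩ := choice S0 (pw V) (fun α C => Wit A (yy V g (om1 M)) (yy V g α) C)
    fun α hα => by
      obtain ⟨C, h1⟩ := (mem_sep.1 (hS0 ▸ hα)).2
      exact ⟨C, mem_pw.2 (sub_trans h1.1 hyV), h1⟩
  obtain ⟨f, hf⟩ := choice (om1 M) (om1 M)
    (fun η b => η ∈ b ∧ (∀ α, α ∈ S0 → α ∈ suc η → app C α ⊆ yy V g' b) ∧
      app g η ∈ yy V g' b ∧ (app g' η ∈ yy V g (om1 M) → app g' η ∈ yy V g b)) fun η hη => by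
      have h5 := suc_mem_om1 hη
      obtain ⟨I, hI⟩ := exists_sep (suc η) fun α => α ∈ S0
      obtain ⟨U, hU⟩ := exists_sep V fun t => ∃ α, α ∈ I ∧ t ∈ app C α
      have h6 : Ctbl U := ((ctbl_of_mem_om1 h5).mono fun α hα => ((hI α).1 hα).1).cover'
        (fun α => app C α) (fun α hα => (hC α ((hI α).1 hα).2).2.2.1) fun t ht => ((hU t).1 ht).2
      obtain ⟨b1, h7, h8⟩ := one_stage (V := V) (g := g') (h6.union (ctbl_single (app g η)))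
        fun t ht => hsub t (by
          rcases mem_union.1 ht with h | h
          · obtain ⟨-, α, h9, h10⟩ := (hU t).1 h
            exact (hC α ((hI α).1 h9).2).2.1 t h10
          · exact mem_yy.2 ⟨mem_single.1 h ▸ gV η hη, η, hη, (mem_single.1 h).symm⟩)
      obtain ⟨b2, h9, h10⟩ := one_stage (V := V) (g := g) (U := {app g' η} ∩ yy V g (om1 M))
        ((ctbl_single (app g' η)).mono fun t ht => (mem_inter.1 ht).1)
        fun t ht => (mem_inter.1 ht).2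
      have s1 : b1 ⊆ (b1 ∪ b2) ∪ suc η := fun z hz => by simp [hz]
      have s2 : b2 ⊆ (b1 ∪ b2) ∪ suc η := fun z hz => by simp [hz]
      refine ⟨(b1 ∪ b2) ∪ suc η, od_om1.union_mem (od_om1.union_mem h7 h9) h5, by simp,
        fun α h11 h12 t ht => yy_mono s1 t (h8 t (mem_union.2 (Or.inl ((hU t).2
          ⟨mem_pw.1 (hC α h11).1 t ht, α, (hI α).2 ⟨h12, h11⟩, ht⟩)))),
        yy_mono s1 _ (h8 _ (by simp)), fun h => yy_mono s2 _ (h10 _ (by simp [h]))⟩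
  have hf1 : ∀ a, a ∈ om1 M → app f a ∈ om1 M := fun a ha => (hf a ha).1
  refine one_of_setup hG (g := g') (C := C) (S := sep S0 fun δ => Cl f δ) (f := f)
    ⟨gV', hst.inter hf1, fun α hα => mem_pw.1 (hC α (mem_sep.1 hα).1).1,
      fun α hα => (hC α (mem_sep.1 hα).1).2.2.1, fun α u hα hu hy => ?_,
      fun α hα => (hC α (mem_sep.1 hα).1).2.2.2.2.1, fun α hα => ?_, hf1,
      fun η hη => (hf η hη).2.1, fun η α hη hα h5 => (hf η hη).2.2.1 α (mem_sep.1 hα).1 h5,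
      fun δ hδ => (mem_sep.1 hδ).2, hyc⟩
  · obtain ⟨h1, h2⟩ := mem_sep.1 hα
    have h3 := hst.1 α h1
    obtain ⟨-, a, h4, rfl⟩ := mem_yy.1 hy
    exact (hC α h1).2.2.2.1 _ hu (yy_mono (sub1 h3 (h2 a h4)) _
      ((hf a (od_om1.trans h3 h4)).2.2.2.2 ((hC α h1).2.1 _ hu)))
  · obtain ⟨h1, h2⟩ := mem_sep.1 hα
    have h3 := hst.1 α h1
    refine (hC α h1).2.2.2.2.2.mono fun u hu => ?_
    obtain ⟨h4, h5⟩ := mem_nb.1 hu
    obtain ⟨-, a, h6, rfl⟩ := mem_yy.1 h4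
    exact mem_nb.2 ⟨yy_mono (sub1 h3 (h2 a h6)) _ (hf a (od_om1.trans h3 h6)).2.2.2.1, h5⟩

end Pool.Agent.Lib.MP_783f50_lc
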