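import Pool.Agent.Lib.MP_783f50_lc.FR.Pre0

/-! Every model of ZFC satisfies the extra fields of the class of working models. -/

namespace Pool.Agent.Lib.MP_783f50_lc

open Pool.Agent.Lib.MP_2739cb_lc

set_option synthInstance.maxSize 100000

universe v

namespace P0

variable {M : Type v} [Z0 M]

theorem pre_choiceFn (X : M) : ∃ φ : M, ∀ y, y ⊆ X → (∃ z, z ∈ y) → app φ y ∈ y := by
  obtain ⟨x, hx⟩ := exists_img (sep (pw X) fun y => ∃ z, z ∈ y)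
    fun y => sep (prd (pw X) X) fun p => ∃ b, b ∈ y ∧ p = op y b
  obtain ⟨c, hc⟩ := Z0.zfc.choice x (by
    intro s hs
    obtain ⟨y, hy, rfl⟩ := (hx s).1 hs
    obtain ⟨h1, z, hz⟩ := mem_sep.1 hy
    exact ⟨op y z, mem_sep.2 ⟨op_mem_prd.2 ⟨h1, mem_pw.1 h1 z hz⟩, z, hz, rfl⟩⟩) (by
    rintro s s' hs hs' ⟨p, h1, h2⟩
    obtain ⟨y, -, rfl⟩ := (hx s).1 hs
    obtain ⟨y', -, rfl⟩ := (hx s').1 hs'
    obtain ⟨-, b, -, rfl⟩ := mem_sep.1 h1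
    obtain ⟨-, b', -, e⟩ := mem_sep.1 h2
    obtain ⟨rfl, rfl⟩ := op_inj.1 e
    rfl)
  refine ⟨sep c fun p => ∃ a b, p = op a b ∧ b ∈ a, fun y hy hne => ?_⟩
  obtain ⟨p, ⟨h1, h2⟩, h3⟩ := hc _ ((hx _).2 ⟨y, mem_sep.2 ⟨mem_pw.2 hy, hne⟩, rfl⟩)
  obtain ⟨-, b, hb, rfl⟩ := mem_sep.1 h1
  rw [app_eq (b := b) (mem_sep.2 ⟨h2, y, b, rfl, hb⟩) fun b' hb' => ?_]
  · exact hb
  obtain ⟨h4, a, b'', e, h5⟩ := mem_sep.1 hb'
  obtain ⟨rfl, rfl⟩ := op_inj.1 e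
  exact (op_inj.1 (h3 _ ⟨mem_sep.2 ⟨op_mem_prd.2 ⟨mem_pw.2 hy, hy _ h5⟩, _, h5, rfl⟩, h4⟩)).2

theorem pre_choice (A B : M) (R : M → M → Prop) [DP M fun z : M × M => R z.1 z.2]
    (h : ∀ a, a ∈ A → ∃ b, b ∈ B ∧ R a b) :
    ∃ f : M, ∀ a, a ∈ A → app f a ∈ B ∧ R a (app f a) := by
  obtain ⟨φ, hφ⟩ := pre_choiceFn B
  obtain ⟨f, -, hf⟩ := exists_lam A fun a => app φ (sep B (R a))
  refine ⟨f, fun a ha => ?_⟩
  have : DP M (R a) := DP.comp (fun z : M × M => R z.1 z.2) fun t : M => (a, t)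
  rw [hf a ha]
  exact mem_sep.1 (hφ _ (fun z hz => (mem_sep.1 hz).1)
    (let ⟨b, hb⟩ := h a ha; ⟨b, mem_sep.2 hb⟩))

theorem pre_tower (X : M) (g : M → M) [DF M g] (P : M → Prop) [DP M P]
    (h1 : ∀ C, C ⊆ X → C ⊆ g C ∧ g C ⊆ X ∧ ∀ a b, a ∈ g C → b ∈ g C → a ∉ C → b ∉ C → a = b)
    (h2 : ∀ C, C ⊆ X → P C → P (g C))
    (h3 : ∀ F, (∀ C, C ∈ F → P C) → (∀ a b, a ∈ F → b ∈ F → a ⊆ b ∨ b ⊆ a) → P (sU F)) :
    ∃ C, C ⊆ X ∧ P C ∧ g C ⊆ C := by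
  have i1 : DF M fun z : (M × M) × M => g z.2 := DF.comp g _
  obtain ⟨T, hT⟩ := exists_sep (pw X) fun C =>
    ∀ U : M, (∀ A, A ∈ U → g A ∈ U) → (∀ F, F ⊆ U → sU F ∈ U) → C ∈ U
  have hX : ∀ C, C ∈ T → C ⊆ X := fun C h => mem_pw.1 ((hT C).1 h).1
  have hg : ∀ C, C ∈ T → g C ∈ T := fun C h => (hT _).2 ⟨mem_pw.2 (h1 C (hX C h)).2.1,
    fun U a b => a C (((hT C).1 h).2 U a b)⟩
  have hU : ∀ F, F ⊆ T → sU F ∈ T := fun F h => (hT _).2 ⟨mem_pw.2 fun z hz =>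
    let ⟨y, hy, hz⟩ := mem_sU.1 hz; hX y (h y hy) z hz,
    fun U a b => b F fun C hC => ((hT C).1 (h C hC)).2 U a b⟩
  have ind : ∀ U : M, (∀ A, A ∈ T → A ∈ U → g A ∈ U) → (∀ F, F ⊆ T → F ⊆ U → sU F ∈ U) →
      ∀ C, C ∈ T → C ∈ U := fun U a b C hC =>
    (mem_inter.1 (((hT C).1 hC).2 (T ∩ U) (fun A hA =>
      mem_inter.2 ⟨hg A (mem_inter.1 hA).1, a A (mem_inter.1 hA).1 (mem_inter.1 hA).2⟩)
      fun F hF => mem_inter.2 ⟨hU F fun z hz => (mem_inter.1 (hF z hz)).1,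
        b F (fun z hz => (mem_inter.1 (hF z hz)).1) fun z hz => (mem_inter.1 (hF z hz)).2⟩)).2
  have step : ∀ C, C ∈ T → (∀ A, A ∈ T → A ⊆ C ∨ C ⊆ A) → ∀ A, A ∈ T → A ⊆ C ∨ g C ⊆ A := by
    intro C hC hc A hA
    refine (mem_sep.1 (ind (sep T fun A => A ⊆ C ∨ g C ⊆ A) (fun A hA h => ?_)
      (fun F hF h => ?_) A hA)).2
    · refine mem_sep.2 ⟨hg A hA, ?_⟩
      rcases (mem_sep.1 h).2 with h4 | h4
      · rcases hc _ (hg A hA) with h5 | h5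
        · exact Or.inl h5
        by_cases h6 : C ⊆ A
        · rw [sub_antisymm h4 h6]; exact Or.inr (sub_refl _)
        · rw [sub_def] at h6
          push Not at h6
          obtain ⟨a, ha, h7⟩ := h6
          refine Or.inl fun b hb => ?_
          by_cases h8 : b ∈ A
          · exact h4 b h8
          · rwa [(h1 A (hX A hA)).2.2 b a hb (h5 a ha) h8 h7]
      · exact Or.inr (sub_trans h4 (h1 A (hX A hA)).1)
    · refine mem_sep.2 ⟨hU F hF, ?_⟩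
      by_cases h4 : ∃ A, A ∈ F ∧ g C ⊆ A
      · obtain ⟨A, h5, h6⟩ := h4
        exact Or.inr fun z hz => mem_sU.2 ⟨A, h5, h6 z hz⟩
      · refine Or.inl fun z hz => ?_
        obtain ⟨A, h5, h6⟩ := mem_sU.1 hz
        exact ((mem_sep.1 (h A h5)).2.resolve_right fun h7 => h4 ⟨A, h5, h7⟩) z h6
  have chain : ∀ C, C ∈ T → ∀ A, A ∈ T → A ⊆ C ∨ C ⊆ A := by
    intro C hC
    refine (mem_sep.1 (ind (sep T fun C => ∀ A, A ∈ T → A ⊆ C ∨ C ⊆ A) (fun C hC h => ?_)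
      (fun F hF h => ?_) C hC)).2
    · refine mem_sep.2 ⟨hg C hC, fun A hA => ?_⟩
      exact (step C hC (mem_sep.1 h).2 A hA).imp_left fun h4 => sub_trans h4 (h1 C (hX C hC)).1
    · refine mem_sep.2 ⟨hU F hF, fun A hA => ?_⟩
      by_cases h4 : ∃ C, C ∈ F ∧ A ⊆ C
      · obtain ⟨C, h5, h6⟩ := h4
        exact Or.inl fun z hz => mem_sU.2 ⟨C, h5, h6 z hz⟩
      · refine Or.inr fun z hz => ?_
        obtain ⟨C, h5, h6⟩ := mem_sU.1 hz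
        exact (((mem_sep.1 (h C h5)).2 A hA).resolve_left fun h7 => h4 ⟨C, h5, h7⟩) z h6
  have hP : ∀ C, C ∈ T → P C := fun C hC =>
    (mem_sep.1 (ind (sep T P) (fun A hA h => mem_sep.2 ⟨hg A hA, h2 A (hX A hA) (mem_sep.1 h).2⟩)
      (fun F hF h => mem_sep.2 ⟨hU F hF, h3 F (fun C hC => (mem_sep.1 (h C hC)).2)
        fun a b ha hb => chain b (hF b hb) a (hF a ha)⟩) C hC)).2
  have hm := hU T (sub_refl T)
  exact ⟨sU T, hX _ hm, hP _ hm, fun z hz => mem_sU.2 ⟨_, hg _ hm, hz⟩⟩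

/-- A maximal member of a definable family closed under unions of chains. -/
theorem pre_max (X : M) (P : M → Prop) [DP M P]
    (h3 : ∀ F, (∀ C, C ∈ F → P C) → (∀ a b, a ∈ F → b ∈ F → a ⊆ b ∨ b ⊆ a) → P (sU F)) :
    ∃ C, C ⊆ X ∧ P C ∧ ∀ a, a ∈ X → P (C ∪ {a}) → a ∈ C := by
  obtain ⟨φ, hφ⟩ := pre_choiceFn X
  have i1 : DP M fun z : M × M => P (z.1 ∪ {z.2}) := DP.comp P _
  have i2 : DP M fun z : (M × M) × M => P (z.1.1 ∪ {z.2}) := DP.comp P _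
  have i3 : ∀ C : M, DP M fun z : M => P (C ∪ {z}) := fun C => DP.comp P _
  have key : ∀ C a : M, a ∈ (sep X fun a => a ∈ C ∨ (P (C ∪ {a}) ∧
      a = app φ (sep X fun a => a ∉ C ∧ P (C ∪ {a})))) ↔ a ∈ X ∧ (a ∈ C ∨ (P (C ∪ {a}) ∧
      a = app φ (sep X fun a => a ∉ C ∧ P (C ∪ {a})))) := fun C a => mem_sep
  obtain ⟨C, h4, h5, h6⟩ := pre_tower X (fun C => sep X fun a => a ∈ C ∨ (P (C ∪ {a}) ∧
      a = app φ (sep X fun a => a ∉ C ∧ P (C ∪ {a})))) P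
    (fun C hC => ⟨fun z hz => (key C z).2 ⟨hC z hz, Or.inl hz⟩, fun z hz => ((key C z).1 hz).1,
      fun a b ha hb h1 h2 => (((key C a).1 ha).2.resolve_left h1).2.trans
        (((key C b).1 hb).2.resolve_left h2).2.symm⟩)
    (fun C hC hP => by
      by_cases h : ∃ a, a ∈ X ∧ P (C ∪ {a}) ∧ a = app φ (sep X fun a => a ∉ C ∧ P (C ∪ {a}))
      · obtain ⟨a, h1, h2, h7⟩ := h
        convert h2 using 1
        refine zext fun z => (key C z).trans ?_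
        simp only [mem_union, mem_single]
        refine ⟨fun h => h.2.imp_right fun h => h.2.trans h7.symm, ?_⟩
        rintro (h | rfl)
        · exact ⟨hC z h, Or.inl h⟩
        · exact ⟨h1, Or.inr ⟨h2, h7⟩⟩
      · convert hP using 1
        refine zext fun z => (key C z).trans
          ⟨fun h1 => h1.2.resolve_right fun h2 => h ⟨z, h1.1, h2⟩, fun h1 => ⟨hC z h1, Or.inl h1⟩⟩)
    h3
  refine ⟨C, h4, h5, fun a ha hP => ?_⟩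
  by_contra hc
  have h7 := mem_sep.1 (hφ (sep X fun a => a ∉ C ∧ P (C ∪ {a})) (fun z hz => (mem_sep.1 hz).1)
    ⟨a, mem_sep.2 ⟨ha, hc, hP⟩⟩)
  exact h7.2.1 (h6 _ ((key C _).2 ⟨h7.1, Or.inr ⟨h7.2.2, rfl⟩⟩))

theorem pre_clique (X R : M) : ∃ C, C ⊆ X ∧ (∀ a b, a ∈ C → b ∈ C → op a b ∈ R) ∧
    ∀ a, a ∈ X → op a a ∈ R → (∀ b, b ∈ C → op a b ∈ R ∧ op b a ∈ R) → a ∈ C := by
  obtain ⟨C, h1, h2, h3⟩ := pre_max X (fun C => ∀ a b, a ∈ C → b ∈ C → op a b ∈ R) (by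
    intro F hF hc a b ha hb
    obtain ⟨y, hy, ha⟩ := mem_sU.1 ha
    obtain ⟨y', hy', hb⟩ := mem_sU.1 hb
    rcases hc y y' hy hy' with h | h
    · exact hF y' hy' a b (h a ha) hb
    · exact hF y hy a b ha (h b hb))
  refine ⟨C, h1, h2, fun a ha h4 h5 => h3 a ha fun b c hb hc => ?_⟩
  simp only [mem_union, mem_single] at hb hc
  rcases hb with hb | rfl <;> rcases hc with hc | rfl
  · exact h2 b c hb hc
  · exact (h5 b hb).2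
  · exact (h5 c hc).1
  · exact h4

theorem pre_union_mem {a b : M} (ha : a ∈ om M) (hb : b ∈ om M) : a ∪ b ∈ om M := by
  have key : ∀ a b : M, a ⊆ b → a ∪ b = b ∧ b ∪ a = b := fun a b h =>
    ⟨zext fun z => by simpa using h z, zext fun z => by simpa using h z⟩
  rcases od_om.tri ha hb with h1 | rfl | h1
  · rw [(key a b fun z hz => (od_om.mem hb).trans h1 hz).1]; exact hb
  · rw [(key a a (sub_refl a)).1]; exact hb
  · rw [(key b a fun z hz => (od_om.mem ha).trans h1 hz).2]; exact ha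

theorem pre_bdd (R : M → M → Prop) [DP M fun z : M × M => R z.1 z.2]
    (mono : ∀ a k k', R a k → k ⊆ k' → R a k') :
    ∀ n, n ∈ om M → (∀ a, a ∈ n → ∃ k, k ∈ om M ∧ R a k) → ∃ k, k ∈ om M ∧ ∀ a, a ∈ n → R a k := by
  have i1 : DP M fun z : (M × M) × M => R z.1.2 z.2 :=
    DP.comp (fun z : M × M => R z.1 z.2) fun z : (M × M) × M => (z.1.2, z.2)
  have i2 : DP M fun z : (M × M) × M => R z.2 z.1.2 :=
    DP.comp (fun z : M × M => R z.1 z.2) fun z : (M × M) × M => (z.2, z.1.2)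
  refine nat_induction _ (fun _ => ⟨∅, empty_mem_om, fun a ha => absurd ha (not_mem_empty a)⟩)
    fun n _ ih hf => ?_
  obtain ⟨b, hb, h1⟩ := ih fun a ha => hf a (mem_suc.2 (Or.inl ha))
  obtain ⟨k, hk, h2⟩ := hf n (self_mem_suc n)
  refine ⟨b ∪ k, pre_union_mem hb hk, fun a ha => ?_⟩
  rcases mem_suc.1 ha with h | rfl
  · exact mono _ _ _ (h1 a h) fun z hz => mem_union.2 (Or.inl hz)
  · exact mono _ _ _ h2 fun z hz => mem_union.2 (Or.inr hz)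

theorem pre_pairing : ∃ h : M, (∀ a b a' b' k, op (op a b) k ∈ h → op (op a' b') k ∈ h →
    a = a' ∧ b = b') ∧ ∀ a b, a ∈ om M → b ∈ om M → ∃ k, k ∈ om M ∧ op (op a b) k ∈ h := by
  obtain ⟨h, h1, ⟨h2, h3⟩, h4⟩ := pre_max (prd (prd (om M) (om M)) (om M)) (fun h =>
    (∀ p k p' k' : M, op p k ∈ h → op p' k' ∈ h → (p = p' ↔ k = k')) ∧
    ∀ a b k a' b' : M, op (op a b) k ∈ h → (a' ∈ om M ∧ b' ∈ om M) ∧ a' ∪ b' ∈ a ∪ b →
      ∃ k', op (op a' b') k' ∈ h) (by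
      intro F hF hc
      simp only [mem_sU]
      refine ⟨?_, ?_⟩
      · rintro p k p' k' ⟨y, hy, h1⟩ ⟨y', hy', h2⟩
        rcases hc y y' hy hy' with h | h
        · exact (hF y' hy').1 _ _ _ _ (h _ h1) h2
        · exact (hF y hy).1 _ _ _ _ h1 (h _ h2)
      · rintro a b k a' b' ⟨y, hy, h1⟩ h2
        obtain ⟨k', h3⟩ := (hF y hy).2 _ _ _ _ _ h1 h2
        exact ⟨k', y, hy, h3⟩)
  have hm : ∀ a b k, op (op a b) k ∈ h → (a ∈ om M ∧ b ∈ om M) ∧ k ∈ om M := fun a b k h => by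
    simpa using h1 _ h
  refine ⟨h, fun a b a' b' k h5 h6 => op_inj.1 ((h2 _ _ _ _ h5 h6).2 rfl), fun a b ha hb => ?_⟩
  suffices H : ∀ n, n ∈ om M → ∀ a b : M, a ∪ b = n → a ∈ om M → b ∈ om M →
      ∃ k, op (op a b) k ∈ h by
    obtain ⟨k, hk⟩ := H _ (pre_union_mem ha hb) a b rfl ha hb
    exact ⟨k, (hm _ _ _ hk).2, hk⟩
  refine mem_induction _ _ ?_
  rintro n hn ih a b rfl ha hb
  by_contra hc
  have hs := suc_mem_om hn
  obtain ⟨k, hk, h5⟩ := pre_bdd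
    (fun a' k => ∀ b', b' ∈ suc (a ∪ b) → ∀ t, op (op a' b') t ∈ h → t ∈ k)
    (fun a' k k' h5 h6 b' h7 t h8 => h6 t (h5 b' h7 t h8)) _ hs fun a' _ =>
      pre_bdd (fun b' k => ∀ t, op (op a' b') t ∈ h → t ∈ k)
        (fun b' k k' h5 h6 t h8 => h6 t (h5 t h8)) _ hs fun b' _ => by
          by_cases h5 : ∃ t, op (op a' b') t ∈ h
          · obtain ⟨t, ht⟩ := h5
            exact ⟨suc t, suc_mem_om (hm _ _ _ ht).2, fun t' ht' =>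
              mem_suc.2 (Or.inr ((h2 _ _ _ _ ht' ht).1 rfl))⟩
          · exact ⟨∅, empty_mem_om, fun t ht => absurd ⟨t, ht⟩ h5⟩
  have h6 : ∀ p, op p k ∉ h := fun p hp => by
    obtain ⟨a', b', h7, h8, rfl⟩ := mem_prd.1 (op_mem_prd.1 (h1 _ hp)).1
    have h9 : a' ∪ b' ∈ suc (a ∪ b) := od_om.mem_suc_of_not (pre_union_mem h7 h8) hn
      fun h9 => hc (h3 _ _ _ _ _ hp ⟨⟨ha, hb⟩, h9⟩)
    exact mem_irrefl k (h5 a' ((od_om.mem h7).mem_of_sub (od_om.mem hs)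
      (fun z hz => mem_union.2 (Or.inl hz)) h9) b' ((od_om.mem h8).mem_of_sub (od_om.mem hs)
      (fun z hz => mem_union.2 (Or.inr hz)) h9) k hp)
  refine hc ⟨k, h4 _ (by simp [ha, hb, hk]) ⟨fun p t p' t' h7 h8 => ?_, fun a1 b1 t a' b' h7 h8 => ?_⟩⟩
  · simp only [mem_union, mem_single, op_inj] at h7 h8
    rcases h7 with h7 | ⟨rfl, rfl⟩ <;> rcases h8 with h8 | ⟨rfl, rfl⟩
    · exact h2 _ _ _ _ h7 h8
    · exact iff_of_false (fun e => hc ⟨t, e ▸ h7⟩) fun e => h6 p (e ▸ h7)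
    · exact iff_of_false (fun e => hc ⟨t', e ▸ h8⟩) fun e => h6 p' (e ▸ h8)
    · exact iff_of_true rfl rfl
  · simp only [mem_union (a := h), mem_single, op_inj] at h7 ⊢
    rcases h7 with h7 | ⟨⟨rfl, rfl⟩, rfl⟩
    · obtain ⟨k', h9⟩ := h3 _ _ _ _ _ h7 h8
      exact ⟨k', Or.inl h9⟩
    · obtain ⟨k', h9⟩ := ih _ h8.2 (od_om.trans hn h8.2) a' b' rfl h8.1.1 h8.1.2
      exact ⟨k', Or.inl h9⟩

theorem pre_cov {Z : M} : Cov (EE M) (om M) Z ↔ ∃ f : M,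
    (∀ n b b', op n b ∈ f → op n b' ∈ f → b = b') ∧ ∀ z, z ∈ Z → ∃ n, n ∈ om M ∧ op n z ∈ f := by
  simp only [Cov, app_iff]

theorem pre_cunion (Y U : M) (hY : Cov (EE M) (om M) Y) (h1 : ∀ y, y ∈ Y → Cov (EE M) (om M) y)
    (h2 : ∀ z, z ∈ U → ∃ y, y ∈ Y ∧ z ∈ y) : Cov (EE M) (om M) U := by
  simp only [pre_cov] at hY h1 ⊢
  obtain ⟨f, f1, f2⟩ := hY
  obtain ⟨h, h3, h4⟩ := pre_pairing (M := M)
  obtain ⟨G, hG⟩ := pre_choice Y (pw (prd (om M) (sU Y))) (fun y g : M =>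
    (∀ n b b' : M, op n b ∈ g → op n b' ∈ g → b = b') ∧
      ∀ z : M, z ∈ y → ∃ n : M, n ∈ om M ∧ op n z ∈ g)
    fun y hy => by
      obtain ⟨g, g1, g2⟩ := h1 y hy
      refine ⟨prd (om M) (sU Y) ∩ g, mem_pw.2 fun z hz => (mem_inter.1 hz).1,
        fun n b b' h5 h6 => g1 n b b' (mem_inter.1 h5).2 (mem_inter.1 h6).2, fun z hz => ?_⟩
      obtain ⟨n, h5, h6⟩ := g2 z hz
      exact ⟨n, h5, mem_inter.2 ⟨op_mem_prd.2 ⟨h5, mem_sU.2 ⟨y, hy, hz⟩⟩, h6⟩⟩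
  obtain ⟨F, -, hF⟩ := exists_rel (om M) U fun k z : M =>
    ∃ a b y : M, op (op a b) k ∈ h ∧ op a y ∈ f ∧ y ∈ Y ∧ op b z ∈ app G y
  refine ⟨F, fun k z z' h5 h6 => ?_, fun z hz => ?_⟩
  · obtain ⟨-, -, a, b, y, h5, h7, h8, h9⟩ := (hF _ _).1 h5
    obtain ⟨-, -, a', b', y', h6, h7', -, h9'⟩ := (hF _ _).1 h6
    obtain ⟨rfl, rfl⟩ := h3 _ _ _ _ _ h5 h6
    obtain rfl := f1 _ _ _ h7 h7'
    exact (hG y h8).2.1 _ _ _ h9 h9'
  · obtain ⟨y, hy, h5⟩ := h2 z hz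
    obtain ⟨a, ha, h6⟩ := f2 y hy
    obtain ⟨b, hb, h7⟩ := (hG y hy).2.2 z h5
    obtain ⟨k, hk, h8⟩ := h4 a b ha hb
    exact ⟨k, hk, (hF _ _).2 ⟨hk, hz, a, b, y, h8, h6, hy, h7⟩⟩

theorem pre_cov_iff {Z : M} : Cov (EE M) (om M) Z ↔ CardLe (EE M) Z (om M) := by
  rw [pre_cov]
  constructor
  · rintro ⟨f, f1, f2⟩
    obtain ⟨e, he⟩ := pre_choice Z (om M) (fun z n => op n z ∈ f) f2
    exact cardLe_of _ _ (fun z => app e z) (fun z hz => (he z hz).1) fun z z' hz hz' h =>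
      f1 _ _ _ (he z hz).2 (h ▸ (he z' hz').2)
  · rintro ⟨f, h1, h2⟩
    obtain ⟨g, -, hg⟩ := exists_rel (om M) Z fun n z => op z n ∈ f
    refine ⟨g, fun n b b' h3 h4 => ?_, fun z hz => ?_⟩
    · rw [hg] at h3 h4
      exact h2 b b' n (app_iff.2 h3.2.2) (app_iff.2 h4.2.2)
    · obtain ⟨n, h3, h4⟩ := Z0.zfc.app_total h1 hz
      exact ⟨n, h4, (hg _ _).2 ⟨h4, hz, app_iff.1 h3⟩⟩

end P0

theorem pre_fields {M : Type v} (E : M → M → Prop) (hE : IsZFC E) (w w₁ : M) (hw : IsOmega E w)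
    (hw₁ : IsOmega1 E w w₁) :
    (IsOrd E w₁ ∧ ¬ Cov E w w₁ ∧ ∀ a, E a w₁ → Cov E w a) ∧
    (∀ X R : M, ∃ C, Sub E C X ∧ (∀ a b, E a C → E b C → App E R a b) ∧
      ∀ a, E a X → App E R a a → (∀ b, E b C → App E R a b ∧ App E R b a) → E a C) ∧
    ∀ Y U : M, Cov E w Y → (∀ y, E y Y → Cov E w y) →
      (∀ z, E z U → ∃ y, E y Y ∧ E z y) → Cov E w U := by
  let _ : P0.Z0 M := { mem := fun b a => E a b, zfc := hE, w := w, hw := hw }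
  refine ⟨⟨hw₁.1, fun h => hw₁.2.1 (P0.pre_cov_iff.1 h), fun a h => P0.pre_cov_iff.2 (hw₁.2.2 a h)⟩,
    fun X R => ?_, P0.pre_cunion⟩
  obtain ⟨C, h1, h2, h3⟩ := P0.pre_clique X R
  exact ⟨C, h1, fun a b ha hb => P0.app_iff.2 (h2 a b ha hb), fun a ha h4 h5 =>
    h3 a ha (P0.app_iff.1 h4) fun b hb => ⟨P0.app_iff.1 (h5 b hb).1, P0.app_iff.1 (h5 b hb).2⟩⟩

end Pool.Agent.Lib.MP_783f50_lc
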