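import Pool.Agent.Lib.MP_783f50_lc.Basic

/-! Elementary set theory inside a model of ZFC, without the extra fields of the working class. -/

namespace Pool.Agent.Lib.MP_783f50_lc.P0

open Pool.Agent.Lib.MP_2739cb_lc

set_option synthInstance.maxSize 100000

universe v

/-- A model of ZFC with its first infinite ordinal. -/
class Z0 (M : Type v) extends Membership M M where
  zfc : IsZFC (EE M)
  w : M
  hw : IsOmega (EE M) w

variable {M : Type v} [Z0 M]

open Classical in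
noncomputable def mkS (P : M → Prop) : M :=
  if h : ∃ s : M, ∀ z, z ∈ s ↔ P z then h.choose else Z0.w

theorem mem_mkS {P : M → Prop} (h : ∃ s : M, ∀ z, z ∈ s ↔ P z) (z : M) : z ∈ mkS P ↔ P z := by
  rw [mkS, dif_pos h]; exact h.choose_spec z

theorem zext {a b : M} (h : ∀ z, z ∈ a ↔ z ∈ b) : a = b := Z0.zfc.extensionality a b h

theorem zext_iff {a b : M} : a = b ↔ ∀ z, z ∈ a ↔ z ∈ b := ⟨fun h _ => h ▸ Iff.rfl, zext⟩

instance : HasSubset M := ⟨fun a b => ∀ z, z ∈ a → z ∈ b⟩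

theorem sub_def {a b : M} : a ⊆ b ↔ ∀ z, z ∈ a → z ∈ b := Iff.rfl

theorem sub_refl (a : M) : a ⊆ a := fun _ h => h

theorem sub_trans {a b c : M} (h1 : a ⊆ b) (h2 : b ⊆ c) : a ⊆ c := fun z h => h2 z (h1 z h)

theorem sub_antisymm {a b : M} (h1 : a ⊆ b) (h2 : b ⊆ a) : a = b :=
  zext fun z => ⟨h1 z, h2 z⟩

section Inst

variable {α : Type v} [Ctx M α]

instance DP.sub (s t : α → M) [DF M s] [DF M t] : DP M (no_index fun x => s x ⊆ t x) :=
  have : DP M fun z : M × M => z.1 ⊆ z.2 := by simp only [sub_def]; infer_instance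
  DP.comp (fun z : M × M => z.1 ⊆ z.2) fun x => (s x, t x)

theorem DF.of_mem (f : α → M) (Q : α → M → Prop) [DP M fun z : α × M => Q z.1 z.2]
    (h : ∀ x t, t ∈ f x ↔ Q x t) : DF M f := by
  refine DF.of_graph ?_
  have h1 : DP M fun z : (α × M) × M => Q z.1.1 z.2 :=
    DP.comp (fun z : α × M => Q z.1 z.2) fun z : (α × M) × M => (z.1.1, z.2)
  have h2 : DP M fun z : α × M => ∀ t, t ∈ z.2 ↔ Q z.1 t := inferInstance
  exact h2.congr fun z => by rw [zext_iff]; simp only [h]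

end Inst

/-! ### Operations -/

noncomputable def sep (A : M) (P : M → Prop) : M := mkS fun z => z ∈ A ∧ P z

@[simp] theorem mem_sep {A : M} {P : M → Prop} [DP M P] {z : M} : z ∈ sep A P ↔ z ∈ A ∧ P z := by
  obtain ⟨φ, v, h⟩ := DP.sat₁ A P
  obtain ⟨s, hs⟩ := Z0.zfc.separation φ v A
  exact mem_mkS ⟨s, fun z => by rw [h]; exact hs z⟩ z

theorem exists_sep (A : M) (P : M → Prop) [DP M P] : ∃ s : M, ∀ z, z ∈ s ↔ z ∈ A ∧ P z :=
  ⟨sep A P, fun _ => mem_sep⟩

noncomputable instance : EmptyCollection M := ⟨mkS fun _ => False⟩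

@[simp] theorem not_mem_empty (z : M) : z ∉ (∅ : M) := by
  obtain ⟨s, hs⟩ := exists_sep (Z0.w : M) fun _ => False
  exact (mem_mkS (P := fun _ => False) ⟨s, fun z => by simp [hs]⟩ z).1

theorem eq_empty {a : M} (h : ∀ z, z ∉ a) : a = ∅ := zext fun z => by simp [h z]

theorem empty_or (a : M) : a = ∅ ∨ ∃ z, z ∈ a := by
  by_cases h : ∃ z, z ∈ a
  · exact Or.inr h
  · exact Or.inl (eq_empty fun z hz => h ⟨z, hz⟩)

noncomputable def sU (a : M) : M := mkS fun z => ∃ y, y ∈ a ∧ z ∈ y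

@[simp] theorem mem_sU {a z : M} : z ∈ sU a ↔ ∃ y, y ∈ a ∧ z ∈ y :=
  mem_mkS (Z0.zfc.union a) z

noncomputable def pw (a : M) : M := mkS fun z => z ⊆ a

@[simp] theorem mem_pw {a z : M} : z ∈ pw a ↔ z ⊆ a := mem_mkS (Z0.zfc.powerset a) z

noncomputable def upair (a b : M) : M := mkS fun z => z = a ∨ z = b

@[simp] theorem mem_upair {a b z : M} : z ∈ upair a b ↔ z = a ∨ z = b :=
  mem_mkS (Z0.zfc.pairing a b) z

noncomputable instance : Singleton M M := ⟨fun a => upair a a⟩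

@[simp] theorem mem_single {a z : M} : z ∈ ({a} : M) ↔ z = a :=
  mem_upair.trans (or_self_iff)

noncomputable instance : Union M := ⟨fun a b => sU (upair a b)⟩

@[simp] theorem mem_union {a b z : M} : z ∈ a ∪ b ↔ z ∈ a ∨ z ∈ b := by
  change z ∈ sU (upair a b) ↔ _
  simp

noncomputable instance : Inter M := ⟨fun a b => sep a fun z => z ∈ b⟩

@[simp] theorem mem_inter {a b z : M} : z ∈ a ∩ b ↔ z ∈ a ∧ z ∈ b := mem_sep

noncomputable instance : SDiff M := ⟨fun a b => sep a fun z => z ∉ b⟩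

@[simp] theorem mem_diff {a b z : M} : z ∈ a \ b ↔ z ∈ a ∧ z ∉ b := mem_sep

noncomputable def suc (a : M) : M := a ∪ {a}

@[simp] theorem mem_suc {a z : M} : z ∈ suc a ↔ z ∈ a ∨ z = a := by simp [suc]

noncomputable def op (a b : M) : M := upair {a} (upair a b)

theorem isPair_iff {p a b : M} : IsPair (EE M) p a b ↔ p = op a b := by
  have h : IsPair (EE M) (op a b) a b := by
    intro z
    simp only [op, EE, mem_upair]
    refine or_congr ?_ ?_ <;> rw [zext_iff] <;> simp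
  refine ⟨fun hp => zext fun z => (hp z).trans (h z).symm, fun e => e ▸ h⟩

@[simp] theorem op_inj {a b c d : M} : op a b = op c d ↔ a = c ∧ b = d :=
  ⟨fun h => Z0.zfc.isPair_inj (isPair_iff.2 rfl) (isPair_iff.2 h), fun h => by rw [h.1, h.2]⟩

theorem app_iff {f a b : M} : App (EE M) f a b ↔ op a b ∈ f := by
  simp only [App, isPair_iff, EE]
  exact ⟨fun ⟨p, h1, h2⟩ => h2 ▸ h1, fun h => ⟨_, h, rfl⟩⟩

section Inst

variable {α : Type v} [Ctx M α]

instance DF.sU (s : α → M) [DF M s] : DF M (no_index fun x => sU (s x)) :=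
  have : DF M fun x : M => P0.sU x := DF.of_mem _ _ fun _ _ => mem_sU
  DF.comp (fun x : M => P0.sU x) s

instance DF.pw (s : α → M) [DF M s] : DF M (no_index fun x => pw (s x)) :=
  have : DF M fun x : M => P0.pw x := DF.of_mem _ _ fun _ _ => mem_pw
  DF.comp (fun x : M => P0.pw x) s

instance DF.single (s : α → M) [DF M s] : DF M (no_index fun x => ({s x} : M)) :=
  have : DF M fun x : M => ({x} : M) := DF.of_mem _ _ fun _ _ => mem_single
  DF.comp (fun x : M => ({x} : M)) s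

instance DF.suc (s : α → M) [DF M s] : DF M (no_index fun x => suc (s x)) :=
  have : DF M fun x : M => P0.suc x := DF.of_mem _ _ fun _ _ => mem_suc
  DF.comp (fun x : M => P0.suc x) s

instance DF.upair (s t : α → M) [DF M s] [DF M t] : DF M (no_index fun x => upair (s x) (t x)) :=
  have : DF M fun z : M × M => P0.upair z.1 z.2 := DF.of_mem _ _ fun _ _ => mem_upair
  DF.comp (fun z : M × M => P0.upair z.1 z.2) fun x => (s x, t x)

instance DF.union (s t : α → M) [DF M s] [DF M t] : DF M (no_index fun x => s x ∪ t x) :=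
  have : DF M fun z : M × M => z.1 ∪ z.2 := DF.of_mem _ _ fun _ _ => mem_union
  DF.comp (fun z : M × M => z.1 ∪ z.2) fun x => (s x, t x)

instance DF.inter (s t : α → M) [DF M s] [DF M t] : DF M (no_index fun x => s x ∩ t x) :=
  have : DF M fun z : M × M => z.1 ∩ z.2 := DF.of_mem _ _ fun _ _ => mem_inter
  DF.comp (fun z : M × M => z.1 ∩ z.2) fun x => (s x, t x)

instance DF.diff (s t : α → M) [DF M s] [DF M t] : DF M (no_index fun x => s x \ t x) :=
  have : DF M fun z : M × M => z.1 \ z.2 := DF.of_mem _ _ fun _ _ => mem_diff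
  DF.comp (fun z : M × M => z.1 \ z.2) fun x => (s x, t x)

instance DF.op (s t : α → M) [DF M s] [DF M t] : DF M (no_index fun x => op (s x) (t x)) := by
  unfold P0.op; infer_instance

instance DF.sep (A : α → M) (P : α → M → Prop) [DF M A] [h : DP M fun z : α × M => P z.1 z.2] :
    DF M (no_index fun x => sep (A x) (P x)) := by
  have h1 : DF M fun z : α × M => A z.1 := DF.comp A Prod.fst
  refine DF.of_mem _ (fun x t => t ∈ A x ∧ P x t) fun x t => ?_
  have : DP M (P x) := DP.comp (fun z : α × M => P z.1 z.2) fun t : M => (x, t)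
  exact mem_sep

end Inst

noncomputable def prd (A B : M) : M :=
  sep (pw (pw (A ∪ B))) fun p => ∃ a b, a ∈ A ∧ b ∈ B ∧ p = op a b

theorem mem_prd {A B p : M} : p ∈ prd A B ↔ ∃ a b, a ∈ A ∧ b ∈ B ∧ p = op a b := by
  rw [prd, mem_sep]
  refine ⟨fun h => h.2, fun h => ⟨?_, h⟩⟩
  obtain ⟨a, b, ha, hb, rfl⟩ := h
  simp only [mem_pw, sub_def, op, mem_upair]
  rintro z (rfl | rfl) <;> simp [ha, hb]

@[simp] theorem op_mem_prd {A B a b : M} : op a b ∈ prd A B ↔ a ∈ A ∧ b ∈ B := by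
  simp [mem_prd]

/-- The relation defined by `R` on `A × B`. -/
noncomputable def rel (A B : M) (R : M → M → Prop) : M :=
  sep (prd A B) fun p => ∃ a b, p = op a b ∧ R a b

theorem mem_rel {A B : M} {R : M → M → Prop} [DP M fun z : M × M => R z.1 z.2] {p : M} :
    p ∈ rel A B R ↔ ∃ a b, a ∈ A ∧ b ∈ B ∧ p = op a b ∧ R a b := by
  have : DP M fun z : (M × M) × M => R z.1.2 z.2 :=
    DP.comp (fun z : M × M => R z.1 z.2) fun z : (M × M) × M => (z.1.2, z.2)
  rw [rel, mem_sep, mem_prd]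
  constructor
  · rintro ⟨⟨a, b, ha, hb, rfl⟩, a', b', h1, h2⟩
    obtain ⟨rfl, rfl⟩ := op_inj.1 h1
    exact ⟨a, b, ha, hb, rfl, h2⟩
  · rintro ⟨a, b, ha, hb, rfl, h⟩
    exact ⟨⟨a, b, ha, hb, rfl⟩, a, b, rfl, h⟩

@[simp] theorem op_mem_rel {A B : M} {R : M → M → Prop} [DP M fun z : M × M => R z.1 z.2]
    {a b : M} : op a b ∈ rel A B R ↔ a ∈ A ∧ b ∈ B ∧ R a b := by
  simp [mem_rel]

theorem exists_rel (A B : M) (R : M → M → Prop) [DP M fun z : M × M => R z.1 z.2] :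
    ∃ r : M, r ⊆ prd A B ∧ ∀ a b, op a b ∈ r ↔ a ∈ A ∧ b ∈ B ∧ R a b :=
  ⟨rel A B R, fun _ hp => by
    obtain ⟨a, b, ha, hb, rfl, -⟩ := mem_rel.1 hp
    simp [ha, hb], fun _ _ => op_mem_rel⟩

/-- The value of `f` at `a`. -/
noncomputable def app (f a : M) : M := sU (sep (sU (sU f)) fun b => op a b ∈ f)

theorem app_eq {f a b : M} (h1 : op a b ∈ f) (h2 : ∀ b', op a b' ∈ f → b' = b) : app f a = b := by
  refine zext fun z => ?_
  simp only [app, mem_sU, mem_sep]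
  constructor
  · rintro ⟨y, ⟨-, h3⟩, h4⟩
    exact h2 y h3 ▸ h4
  · intro hz
    exact ⟨b, ⟨⟨upair a b, ⟨_, h1, by simp [op]⟩, by simp⟩, h1⟩, hz⟩

instance DF.app {α : Type v} [Ctx M α] (s t : α → M) [DF M s] [DF M t] :
    DF M (no_index fun x => app (s x) (t x)) :=
  have : DF M fun z : M × M => P0.app z.1 z.2 := by
    unfold P0.app; infer_instance
  DF.comp (fun z : M × M => P0.app z.1 z.2) fun x => (s x, t x)

/-- Replacement. -/
theorem exists_img (A : M) (F : M → M) [DF M F] :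
    ∃ s : M, ∀ z, z ∈ s ↔ ∃ a, a ∈ A ∧ z = F a := by
  have : DF M fun z : M × M => F z.1 := DF.comp F Prod.fst
  obtain ⟨φ, v, h⟩ := DP.sat₂ A fun a b => b = F a
  obtain ⟨s, hs⟩ := Z0.zfc.replacement φ v A fun a _ => by
    simp only [← h]; exact ⟨F a, rfl, fun _ h => h⟩
  exact ⟨s, fun z => by simp only [← h] at hs; exact hs z⟩

/-- A definable function restricted to a set is a set. -/
theorem exists_lam (A : M) (F : M → M) [DF M F] :
    ∃ f : M, (∀ p, p ∈ f ↔ ∃ a, a ∈ A ∧ p = op a (F a)) ∧ ∀ a, a ∈ A → app f a = F a := by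
  obtain ⟨f, hf⟩ := exists_img A fun a => op a (F a)
  refine ⟨f, hf, fun a ha => app_eq ((hf _).2 ⟨a, ha, rfl⟩) fun b hb => ?_⟩
  obtain ⟨a', -, h⟩ := (hf _).1 hb
  obtain ⟨rfl, rfl⟩ := op_inj.1 h
  rfl

/-! ### Foundation, choice, Zorn's lemma -/

theorem exists_min (A : M) (P : M → Prop) [DP M P] (h : ∃ a, a ∈ A ∧ P a) :
    ∃ a, a ∈ A ∧ P a ∧ ∀ b, b ∈ a → b ∈ A → ¬ P b := by
  obtain ⟨a, ha⟩ := h
  obtain ⟨y, hy, h1⟩ := Z0.zfc.foundation (sep A P) ⟨a, mem_sep.2 ha⟩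
  exact ⟨y, (mem_sep.1 hy).1, (mem_sep.1 hy).2, fun b hb hA hP => h1 b hb (mem_sep.2 ⟨hA, hP⟩)⟩

theorem mem_induction (A : M) (P : M → Prop) [DP M P]
    (h : ∀ a, a ∈ A → (∀ b, b ∈ a → b ∈ A → P b) → P a) : ∀ a, a ∈ A → P a := by
  by_contra hc
  push Not at hc
  obtain ⟨a, ha, h1, h2⟩ := exists_min A (fun a => ¬ P a) hc
  exact h1 (h a ha fun b hb hA => not_not.1 (h2 b hb hA))

theorem mem_irrefl (a : M) : a ∉ a := Z0.zfc.not_mem_self a

abbrev om (M : Type v) [Z0 M] : M := Z0.w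

def Od (a : M) : Prop := IsOrd (EE M) a

theorem no_cycle {a b c : M} (h1 : a ∈ b) (h2 : b ∈ c) (h3 : c ∈ a) : False := by
  obtain ⟨y, hy, -, h⟩ := exists_min (upair a b ∪ {c}) (fun _ => True) ⟨a, by simp⟩
  simp only [mem_union, mem_upair, mem_single] at hy h
  rcases hy with (rfl | rfl) | rfl
  · exact h c h3 (by simp) trivial
  · exact h a h1 (by simp) trivial
  · exact h b h2 (by simp) trivial

theorem mem_asymm' {a b : M} (h1 : a ∈ b) (h2 : b ∈ a) : False := by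
  obtain ⟨y, hy, -, h⟩ := exists_min (upair a b) (fun _ => True) ⟨a, by simp⟩
  simp only [mem_upair] at hy h
  rcases hy with rfl | rfl
  · exact h b h2 (by simp) trivial
  · exact h a h1 (by simp) trivial

theorem Od.trans {a b c : M} (h : Od a) (h1 : b ∈ a) (h2 : c ∈ b) : c ∈ a := h.1 b h1 c h2

theorem Od.tri {a x y : M} (h : Od a) (h1 : x ∈ a) (h2 : y ∈ a) : x ∈ y ∨ x = y ∨ y ∈ x :=
  h.2 x y h1 h2

theorem Od.mem {a b : M} (h : Od a) (hb : b ∈ a) : Od b := by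
  refine ⟨fun c hc d hd => ?_, fun x y hx hy => h.tri (h.trans hb hx) (h.trans hb hy)⟩
  rcases h.tri (h.trans (h.trans hb hc) hd) hb with h1 | rfl | h1
  · exact h1
  · exact (mem_asymm' hc hd).elim
  · exact (no_cycle h1 hd hc).elim

theorem Od.sub {a b : M} (ha : Od a) (hb : Od b) (h : a ⊆ b) : a = b ∨ a ∈ b :=
  Z0.zfc.ord_sub ha.1 hb h

theorem Od.mem_of_sub {a b c : M} (ha : Od a) (hc : Od c) (h : a ⊆ b) (hb : b ∈ c) : a ∈ c := by
  rcases ha.sub (hc.mem hb) h with rfl | h1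
  · exact hb
  · exact hc.trans hb h1

theorem Od.suc {a : M} (ha : Od a) : Od (suc a) := by
  refine ⟨fun x hx z hz => ?_, fun x y hx hy => ?_⟩
  · rcases mem_suc.1 hx with h | rfl
    · exact mem_suc.2 (Or.inl (ha.trans h hz))
    · exact mem_suc.2 (Or.inl hz)
  · rcases mem_suc.1 hx with h | rfl <;> rcases mem_suc.1 hy with h' | rfl
    · exact ha.tri h h'
    · exact Or.inl h
    · exact Or.inr (Or.inr h')
    · exact Or.inr (Or.inl rfl)

theorem od_empty : Od (∅ : M) :=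
  ⟨fun x hx => absurd hx (not_mem_empty x), fun x _ hx => absurd hx (not_mem_empty x)⟩

theorem Od.empty_mem {a b : M} (ha : Od a) (hb : b ∈ a) : ∅ ∈ a := by
  rcases od_empty.sub ha fun z hz => absurd hz (not_mem_empty z) with rfl | h
  · exact absurd hb (not_mem_empty b)
  · exact h

theorem Od.suc_mem {a b c : M} (hc : Od c) (hb : b ∈ c) (ha : a ∈ b) : P0.suc a ∈ c := by
  refine ((hc.mem hb).mem ha).suc.mem_of_sub hc (fun z hz => ?_) hb
  rcases mem_suc.1 hz with h | rfl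
  · exact (hc.mem hb).trans ha h
  · exact ha

theorem Od.mem_suc_of_not {θ a b : M} (h : Od θ) (ha : a ∈ θ) (hb : b ∈ θ) (hab : b ∉ a) :
    a ∈ P0.suc b := by
  rcases h.tri ha hb with h1 | h1 | h1
  · exact mem_suc.2 (Or.inl h1)
  · exact mem_suc.2 (Or.inr h1)
  · exact absurd h1 hab

theorem self_mem_suc (a : M) : a ∈ suc a := by simp

theorem suc_inj {a b : M} (h : suc a = suc b) : a = b := by
  have h1 : a ∈ suc b := h ▸ self_mem_suc a
  have h2 : b ∈ suc a := h.symm ▸ self_mem_suc b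
  rcases mem_suc.1 h1 with h3 | h3
  · rcases mem_suc.1 h2 with h4 | h4
    · exact (mem_asymm' h3 h4).elim
    · exact h4.symm
  · exact h3

theorem isSucc_iff {s x : M} : IsSucc (EE M) s x ↔ s = suc x := by
  rw [zext_iff]; simp [IsSucc]

theorem od_om : Od (om M) := Z0.hw.1.1

theorem empty_mem_om : ∅ ∈ om M := let ⟨_, h⟩ := (Z0.hw (M := M)).1.2.1; od_om.empty_mem h

theorem suc_mem_om {n : M} (h : n ∈ om M) : suc n ∈ om M :=
  let ⟨_, h1, h2⟩ := (Z0.hw (M := M)).1.2.2 n h; od_om.suc_mem h1 h2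

theorem nat_cases {n : M} (h : n ∈ om M) : n = ∅ ∨ ∃ m, m ∈ om M ∧ n = suc m := by
  rcases empty_or n with h1 | h1
  · exact Or.inl h1
  right
  have h2 : ¬ ∀ b, b ∈ n → ∃ c, c ∈ n ∧ b ∈ c := fun h2 => Z0.hw.2 n h ⟨od_om.mem h, h1, h2⟩
  push Not at h2
  obtain ⟨b, hb, h3⟩ := h2
  refine ⟨b, od_om.trans h hb, zext fun z => ⟨fun hz => ?_, fun hz => ?_⟩⟩
  · exact (od_om.mem h).mem_suc_of_not hz hb (h3 z hz)
  · rcases mem_suc.1 hz with h4 | rfl
    · exact (od_om.mem h).trans hb h4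
    · exact hb

theorem nat_induction (P : M → Prop) [DP M P] (h0 : P ∅)
    (hs : ∀ n, n ∈ om M → P n → P (suc n)) : ∀ n, n ∈ om M → P n := by
  refine mem_induction _ P fun n hn ih => ?_
  rcases nat_cases hn with rfl | ⟨m, hm, rfl⟩
  · exact h0
  · exact hs m hm (ih m (self_mem_suc m) hm)

/-! ### Functions -/

theorem exists_isFun (A B : M) (F : M → M) [DF M F] (h : ∀ a, a ∈ A → F a ∈ B) :
    ∃ f, IsFun (EE M) f A B ∧ ∀ a b, App (EE M) f a b ↔ a ∈ A ∧ b = F a := by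
  obtain ⟨f, hf, -⟩ := exists_lam A F
  have key : ∀ a b, App (EE M) f a b ↔ a ∈ A ∧ b = F a := by
    intro a b
    rw [app_iff, hf]
    constructor
    · rintro ⟨a', h1, h2⟩
      obtain ⟨rfl, rfl⟩ := op_inj.1 h2
      exact ⟨h1, rfl⟩
    · rintro ⟨h1, rfl⟩
      exact ⟨a, h1, rfl⟩
  refine ⟨f, ⟨fun p hp => ?_, fun a ha => ?_⟩, key⟩
  · obtain ⟨a, h1, rfl⟩ := (hf p).1 hp
    exact ⟨a, F a, h1, h a h1, isPair_iff.2 rfl⟩
  · exact ⟨F a, (key _ _).2 ⟨ha, rfl⟩, fun b hb => ((key _ _).1 hb).2⟩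

theorem exists_isInj (A B : M) (F : M → M) [DF M F] (h : ∀ a, a ∈ A → F a ∈ B)
    (hi : ∀ a a', a ∈ A → a' ∈ A → F a = F a' → a = a') :
    ∃ f, IsInj (EE M) f A B ∧ ∀ a b, App (EE M) f a b ↔ a ∈ A ∧ b = F a := by
  obtain ⟨f, h1, h2⟩ := exists_isFun A B F h
  refine ⟨f, ⟨h1, fun a a' b h3 h4 => ?_⟩, h2⟩
  rw [h2] at h3 h4
  exact hi a a' h3.1 h4.1 (h3.2.symm.trans h4.2)

theorem cardLe_of (A B : M) (F : M → M) [DF M F] (h : ∀ a, a ∈ A → F a ∈ B)
    (hi : ∀ a a', a ∈ A → a' ∈ A → F a = F a' → a = a') : CardLe (EE M) A B :=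
  let ⟨f, h1, _⟩ := exists_isInj A B F h hi; ⟨f, h1⟩

theorem cardEq_of (A B : M) (F : M → M) [DF M F] (h : ∀ a, a ∈ A → F a ∈ B)
    (hi : ∀ a a', a ∈ A → a' ∈ A → F a = F a' → a = a')
    (hs : ∀ b, b ∈ B → ∃ a, a ∈ A ∧ b = F a) : CardEq (EE M) A B :=
  let ⟨f, h1, h2⟩ := exists_isInj A B F h hi
  ⟨f, h1, fun b hb => let ⟨a, h3⟩ := hs b hb; ⟨a, (h2 a b).2 h3⟩⟩

end Pool.Agent.Lib.MP_783f50_lc.P0
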